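import Pool.Agent.Q98.Cut.Fix2

/-!
# Potential partial positivity is decidable
-/

set_option autoImplicit false

namespace Pool.Agent.Q98.Cut

open FreeGroup List
open Pool.Agent.Q98.Pos Pool.Agent.Q98.Block

variable {r : ℕ}

/-- letters -/
abbrev Lt (r : ℕ) := Fin r × Bool

/-- states -/
abbrev St' (r : ℕ) := Lt r × List Bool

/-- the list of all letters -/
noncomputable def letters (r : ℕ) : List (Lt r) := (Finset.univ : Finset (Lt r)).toList

theorem mem_letters (y : Lt r) : y ∈ letters r := by simp [letters]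

/-- the position of a letter -/
noncomputable def idx (y : Lt r) : ℕ := (letters r).idxOf y

/-- the function given by a list -/
noncomputable def tf (tl : List (List Bool)) (y : Lt r) : List Bool := tl.getD (idx y) []

/-- the possible values at `y` -/
def sel (o : Option (Lt r)) (T : List (St' r)) (y : Lt r) : List (List Bool) :=
  if o = some y then [[]] else T.filterMap (fun s => if s.1 = y then some s.2 else none)

/-- the possible functions -/
def tup (o : Option (Lt r)) (T : List (St' r)) : List (Lt r) → List (List (List Bool))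
  | [] => [[]]
  | y :: ys => (sel o T y).flatMap fun τ => (tup o T ys).map fun l => τ :: l

theorem mem_sel {o : Option (Lt r)} {T : List (St' r)} {y : Lt r} {τ : List Bool} :
    τ ∈ sel o T y ↔ (o = some y ∧ τ = []) ∨ (o ≠ some y ∧ (y, τ) ∈ T) := by
  unfold sel
  split_ifs with h
  · simp [h]
  · simp only [List.mem_filterMap, h, false_and, ne_eq, not_false_eq_true, true_and, false_or]
    constructor
    · rintro ⟨⟨a, b⟩, h1, h2⟩
      split_ifs at h2 with h3
      simp only [Option.some.injEq] at h2 h3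
      rw [← h2, ← h3]; exact h1
    · intro h1
      exact ⟨_, h1, by simp⟩

theorem mem_tup {o : Option (Lt r)} {T : List (St' r)} : ∀ {ys : List (Lt r)}
    {tl : List (List Bool)}, tl ∈ tup o T ys ↔ List.Forall₂ (fun τ y => τ ∈ sel o T y) tl ys := by
  intro ys
  induction ys with
  | nil => intro tl; simp [tup]
  | cons y ys ih =>
    intro tl
    rw [tup, List.mem_flatMap]
    constructor
    · rintro ⟨τ, h1, h2⟩
      rw [List.mem_map] at h2
      obtain ⟨l, h3, rfl⟩ := h2
      exact List.Forall₂.cons h1 (ih.1 h3)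
    · intro h
      cases h with
      | cons h1 h2 => exact ⟨_, h1, List.mem_map.2 ⟨_, ih.2 h2, rfl⟩⟩

theorem tf_map (t : Lt r → List Bool) (y : Lt r) : tf ((letters r).map t) y = t y := by
  have h := List.idxOf_lt_length_of_mem (mem_letters y)
  unfold tf idx
  rw [List.getD_eq_getElem?_getD, List.getElem?_map, List.getElem?_eq_getElem h,
    List.getElem_idxOf]
  rfl

theorem tup_of_fun {o : Option (Lt r)} {T : List (St' r)} {t : Lt r → List Bool}
    (h : ∀ y, t y ∈ sel o T y) : (letters r).map t ∈ tup o T (letters r) := by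
  rw [mem_tup, List.forall₂_map_left_iff, List.forall₂_same]
  intro y _
  exact h y

theorem tf_mem {o : Option (Lt r)} {T : List (St' r)} {tl : List (List Bool)}
    (h : tl ∈ tup o T (letters r)) (y : Lt r) : tf tl y ∈ sel o T y := by
  rw [mem_tup] at h
  have hi := List.idxOf_lt_length_of_mem (mem_letters y)
  have hl := h.length_eq
  have h1 := h.get (i := (letters r).idxOf y) (by rw [hl]; exact hi) hi
  unfold tf idx
  rw [List.getD_eq_getElem?_getD, List.getElem?_eq_getElem (by rw [hl]; exact hi)]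
  simp only [List.get_eq_getElem, List.getElem_idxOf] at h1
  exact h1

open Classical in
/-- one step of the closure process -/
noncomputable def stepL (W : List (Lt r)) (T : List (St' r)) : List (St' r) :=
  ((letters r).flatMap fun x => [(x, baseT W x), (x, baseF W)]) ++
  (letters r).flatMap fun x => (tup (some (iv x)) T (letters r)).filterMap fun tl =>
    if compat W x (tf tl) then some (x, outW W x (tf tl)) else none

theorem mem_stepL {W : List (Lt r)} {T : List (St' r)} {x : Lt r} {τ : List Bool} :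
    (x, τ) ∈ stepL W T ↔ τ = baseT W x ∨ τ = baseF W ∨
      ∃ t : Lt r → List Bool, t (iv x) = [] ∧ (∀ y, y ≠ iv x → (y, t y) ∈ T) ∧ compat W x t ∧
        τ = outW W x t := by
  classical
  unfold stepL
  rw [List.mem_append, List.mem_flatMap, List.mem_flatMap]
  constructor
  · rintro (⟨y, _, h⟩ | ⟨y, _, h⟩)
    · simp only [List.mem_cons, Prod.mk.injEq, List.not_mem_nil, or_false] at h
      rcases h with ⟨rfl, h⟩ | ⟨rfl, h⟩
      · exact Or.inl h
      · exact Or.inr (Or.inl h)
    · rw [List.mem_filterMap] at h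
      obtain ⟨tl, h1, h2⟩ := h
      split_ifs at h2 with h3
      simp only [Option.some.injEq, Prod.mk.injEq] at h2
      obtain ⟨rfl, h2⟩ := h2
      refine Or.inr (Or.inr ⟨tf tl, ?_, ?_, h3, h2.symm⟩)
      · have := tf_mem h1 (iv y)
        rw [mem_sel] at this
        rcases this with h4 | h4
        · exact h4.2
        · exact absurd rfl h4.1
      · intro z hz
        have := tf_mem h1 z
        rw [mem_sel] at this
        rcases this with h4 | h4
        · exact absurd (by simpa using h4.1.symm) hz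
        · exact h4.2
  · rintro (rfl | rfl | ⟨t, h1, h2, h3, rfl⟩)
    · exact Or.inl ⟨x, mem_letters x, by simp⟩
    · exact Or.inl ⟨x, mem_letters x, by simp⟩
    · refine Or.inr ⟨x, mem_letters x, ?_⟩
      rw [List.mem_filterMap]
      have ht : (tf ((letters r).map t) : Lt r → List Bool) = t := funext (tf_map t)
      refine ⟨(letters r).map t, tup_of_fun fun y => ?_, ?_⟩
      · rw [mem_sel]
        by_cases hy : y = iv x
        · left
          exact ⟨by rw [hy], by rw [hy, h1]⟩
        · right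
          exact ⟨fun h => hy (by simpa using h.symm), h2 y hy⟩
      · rw [ht, if_pos h3]

/-- the iterates -/
noncomputable def itL (W : List (Lt r)) (n : ℕ) : List (St' r) := (stepL W)^[n] []

theorem itL_succ (W : List (Lt r)) (n : ℕ) : itL W (n + 1) = stepL W (itL W n) := by
  unfold itL
  rw [Function.iterate_succ_apply']

theorem stepL_mono {W : List (Lt r)} {T T' : List (St' r)} (h : ∀ s ∈ T, s ∈ T') :
    ∀ s ∈ stepL W T, s ∈ stepL W T' := by
  rintro ⟨x, τ⟩ hs
  rw [mem_stepL] at hs ⊢
  rcases hs with hs | hs | ⟨t, h1, h2, h3, h4⟩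
  · exact Or.inl hs
  · exact Or.inr (Or.inl hs)
  · exact Or.inr (Or.inr ⟨t, h1, fun y hy => h _ (h2 y hy), h3, h4⟩)

theorem itL_mono (W : List (Lt r)) : ∀ n, ∀ s ∈ itL W n, s ∈ itL W (n + 1) := by
  intro n
  induction n with
  | zero => intro s hs; simp [itL] at hs
  | succ n ih =>
    intro s hs
    rw [itL_succ] at hs ⊢
    exact stepL_mono ih s hs

theorem itL_le (W : List (Lt r)) {m n : ℕ} (h : m ≤ n) : ∀ s ∈ itL W m, s ∈ itL W n := by
  induction n, h using Nat.le_induction with
  | base => exact fun s hs => hs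
  | succ n _ ih => exact fun s hs => itL_mono W n s (ih s hs)

theorem ach_of_itL {W : List (Lt r)} : ∀ (n : ℕ) (s : St' r), s ∈ itL W n → Ach W s.1 s.2 := by
  intro n
  induction n with
  | zero => intro s hs; simp [itL] at hs
  | succ n ih =>
    rintro ⟨x, τ⟩ hs
    rw [itL_succ, mem_stepL] at hs
    rcases hs with rfl | rfl | ⟨t, h1, h2, h3, rfl⟩
    · exact Ach.tt x
    · exact Ach.ff x
    · exact Ach.node x t h1 (fun y hy => ih _ (h2 y hy)) h3

theorem itL_of_ach {W : List (Lt r)} {x : Lt r} {τ : List Bool} (h : Ach W x τ) :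
    ∃ n, (x, τ) ∈ itL W n := by
  classical
  induction h with
  | tt x => exact ⟨1, by rw [itL_succ, mem_stepL]; exact Or.inl rfl⟩
  | ff x => exact ⟨1, by rw [itL_succ, mem_stepL]; exact Or.inr (Or.inl rfl)⟩
  | node x t h1 _ h3 ih =>
    have h4 : ∀ y, ∃ n, y ≠ iv x → (y, t y) ∈ itL W n := by
      intro y
      by_cases hy : y = iv x
      · exact ⟨0, fun h => absurd hy h⟩
      · obtain ⟨n, hn⟩ := ih y hy
        exact ⟨n, fun _ => hn⟩
    choose f hf using h4
    refine ⟨Finset.univ.sup f + 1, ?_⟩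
    rw [itL_succ, mem_stepL]
    refine Or.inr (Or.inr ⟨t, h1, fun y hy => ?_, h3, rfl⟩)
    exact itL_le W (Finset.le_sup (f := f) (Finset.mem_univ y)) _ (hf y hy)

theorem ach_sub {W : List (Lt r)} {T : List (St' r)} (hT : ∀ s ∈ stepL W T, s ∈ T)
    {x : Lt r} {τ : List Bool} (h : Ach W x τ) : (x, τ) ∈ T := by
  induction h with
  | tt x => exact hT _ (mem_stepL.2 (Or.inl rfl))
  | ff x => exact hT _ (mem_stepL.2 (Or.inr (Or.inl rfl)))
  | node x t h1 _ h3 ih => exact hT _ (mem_stepL.2 (Or.inr (Or.inr ⟨t, h1, ih, h3, rfl⟩)))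

theorem ach_length {W : List (Lt r)} {x : Lt r} {τ : List Bool} (h : Ach W x τ) :
    τ.length = W.length := by
  cases h with
  | tt x => simp [baseT]
  | ff x => simp [baseF]
  | node x t _ _ _ => simp [outW]

/-- the acceptance condition for a list of states -/
def Acc (W : List (Lt r)) (T : List (St' r)) : Prop :=
  ∃ tl ∈ tup none T (letters r), RootOK W (tf tl)

theorem acc_iff {W : List (Lt r)} {T : List (St' r)} :
    Acc W T ↔ ∃ t : Lt r → List Bool, (∀ y, (y, t y) ∈ T) ∧ RootOK W t := by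
  constructor
  · rintro ⟨tl, h1, h2⟩
    refine ⟨tf tl, fun y => ?_, h2⟩
    have := tf_mem h1 y
    rw [mem_sel] at this
    rcases this with h3 | h3
    · exact absurd h3.1 (by simp)
    · exact h3.2
  · rintro ⟨t, h1, h2⟩
    have ht : (tf ((letters r).map t) : Lt r → List Bool) = t := funext (tf_map t)
    refine ⟨(letters r).map t, tup_of_fun fun y => ?_, ?_⟩
    · rw [mem_sel]
      exact Or.inr ⟨by simp, h1 y⟩
    · rw [ht]; exact h2

/-- the answer in terms of the iterates -/
theorem root_iff_it {W : List (Lt r)} :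
    (∃ t, (∀ y, Ach W y (t y)) ∧ RootOK W t) ↔ ∃ n, Acc W (itL W n) := by
  constructor
  · rintro ⟨t, h1, h2⟩
    choose f hf using fun y => itL_of_ach (h1 y)
    refine ⟨Finset.univ.sup f, acc_iff.2 ⟨t, fun y => ?_, h2⟩⟩
    exact itL_le W (Finset.le_sup (f := f) (Finset.mem_univ y)) _ (hf y)
  · rintro ⟨n, hn⟩
    obtain ⟨t, h1, h2⟩ := acc_iff.1 hn
    exact ⟨t, fun y => ach_of_itL n _ (h1 y), h2⟩

/-- the negative answer in terms of closed lists -/
theorem not_root_iff {W : List (Lt r)} :
    (¬ ∃ t, (∀ y, Ach W y (t y)) ∧ RootOK W t) ↔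
      ∃ T : List (St' r), (∀ s ∈ stepL W T, s ∈ T) ∧ ¬ Acc W T := by
  constructor
  · intro h
    have hfin : {s : St' r | Ach W s.1 s.2}.Finite := by
      have h1 : {s : St' r | s.2.length = W.length}.Finite := by
        have h2 := (Set.finite_univ (α := Lt r)).prod (List.finite_length_eq Bool W.length)
        refine h2.subset ?_
        intro s hs
        exact ⟨Set.mem_univ _, hs⟩
      exact h1.subset fun s hs => ach_length hs
    refine ⟨hfin.toFinset.toList, ?_, ?_⟩
    · rintro ⟨x, τ⟩ hs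
      rw [mem_stepL] at hs
      simp only [Finset.mem_toList, Set.Finite.mem_toFinset, Set.mem_ofPred_eq] at hs ⊢
      rcases hs with rfl | rfl | ⟨t, h1, h2, h3, rfl⟩
      · exact Ach.tt x
      · exact Ach.ff x
      · exact Ach.node x t h1 h2 h3
    · rw [acc_iff]
      rintro ⟨t, h1, h2⟩
      apply h
      refine ⟨t, fun y => ?_, h2⟩
      simpa using h1 y
  · rintro ⟨T, h1, h2⟩ ⟨t, h3, h4⟩
    exact h2 (acc_iff.2 ⟨t, fun y => ach_sub h1 (h3 y), h4⟩)

/-- the main equivalence -/
theorem pp3_iff_root {W : List (Lt r)} (hW : IsCyclicallyReduced W) :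
    PP3 (mk W : FreeGroup (Fin r)) ↔ ∃ t, (∀ y, Ach W y (t y)) ∧ RootOK W t := by
  by_cases hv : mk W = (1 : FreeGroup (Fin r))
  · have hW0 : W = [] := by
      have := toWord_mk_red hW.isReduced
      rw [hv] at this
      simpa using this.symm
    constructor
    · intro h
      obtain ⟨hw, _⟩ := fc_of_PP3 h
      exact absurd hv hw
    · rintro ⟨t, _, _, i, hi, _⟩
      rw [hW0] at hi
      simp at hi
  · constructor
    · intro h
      obtain ⟨_, A, hA⟩ := fc_of_PP3 h
      exact root_of_fc hW hv ⟨A, hA⟩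
    · intro h
      obtain ⟨A, hA⟩ := fc_of_root hW hv h
      exact PP3_of_fc _ _ hv A hA le_rfl

theorem cyc_iff_reduce {W : List (Lt r)} :
    IsCyclicallyReduced W ↔ FreeGroup.reduce (W ++ W) = W ++ W := by
  rw [← isReduced_iff_reduce_eq]
  rcases eq_or_ne W [] with rfl | h
  · simp
  · exact cyc_iff h

theorem conj_iff_reduce {L W c : List (Lt r)} :
    FreeGroup.reduce (L ++ c) = FreeGroup.reduce (c ++ W) ↔
      (mk L : FreeGroup (Fin r)) = mk c * mk W * (mk c)⁻¹ := by
  rw [eq_mul_inv_iff_mul_eq, mul_mk, mul_mk]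
  constructor
  · intro h; exact FreeGroup.reduce.exact h
  · intro h; exact FreeGroup.reduce.sound h

theorem pp3_conj_iff {c v : FreeGroup (Fin r)} : PP3 (c * v * c⁻¹) ↔ PP3 v := by
  constructor
  · intro h
    have := h.conj c⁻¹
    have e : c⁻¹ * (c * v * c⁻¹) * c⁻¹⁻¹ = v := by group
    rwa [e] at this
  · exact fun h => h.conj c

/-- the first semi-algorithm -/
theorem pp3_iff_pos (L : List (Lt r)) : PP3 (mk L : FreeGroup (Fin r)) ↔
    ∃ p : List (Lt r) × List (Lt r) × ℕ, FreeGroup.reduce (p.1 ++ p.1) = p.1 ++ p.1 ∧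
      FreeGroup.reduce (L ++ p.2.1) = FreeGroup.reduce (p.2.1 ++ p.1) ∧
      Acc p.1 (itL p.1 p.2.2) := by
  constructor
  · intro h
    obtain ⟨W, c, hW, hc⟩ := exists_cyc (mk L : FreeGroup (Fin r))
    rw [hc, pp3_conj_iff, pp3_iff_root hW, root_iff_it] at h
    obtain ⟨n, hn⟩ := h
    refine ⟨(W, c.toWord, n), cyc_iff_reduce.1 hW, ?_, hn⟩
    rw [conj_iff_reduce, mk_toWord]
    exact hc
  · rintro ⟨⟨W, c, n⟩, h1, h2, h3⟩
    rw [conj_iff_reduce] at h2
    rw [h2, pp3_conj_iff, pp3_iff_root (cyc_iff_reduce.2 h1), root_iff_it]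
    exact ⟨n, h3⟩

/-- the second semi-algorithm -/
theorem pp3_iff_neg (L : List (Lt r)) : ¬ PP3 (mk L : FreeGroup (Fin r)) ↔
    ∃ p : List (Lt r) × List (Lt r) × List (St' r),
      FreeGroup.reduce (p.1 ++ p.1) = p.1 ++ p.1 ∧
      FreeGroup.reduce (L ++ p.2.1) = FreeGroup.reduce (p.2.1 ++ p.1) ∧
      (∀ s ∈ stepL p.1 p.2.2, s ∈ p.2.2) ∧ ¬ Acc p.1 p.2.2 := by
  constructor
  · intro h
    obtain ⟨W, c, hW, hc⟩ := exists_cyc (mk L : FreeGroup (Fin r))
    rw [hc, pp3_conj_iff, pp3_iff_root hW, not_root_iff] at h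
    obtain ⟨T, hT1, hT2⟩ := h
    refine ⟨(W, c.toWord, T), cyc_iff_reduce.1 hW, ?_, hT1, hT2⟩
    rw [conj_iff_reduce, mk_toWord]
    exact hc
  · rintro ⟨⟨W, c, T⟩, h1, h2, h3, h4⟩
    rw [conj_iff_reduce] at h2
    rw [h2, pp3_conj_iff, pp3_iff_root (cyc_iff_reduce.2 h1), not_root_iff]
    exact ⟨T, h3, h4⟩

end Pool.Agent.Q98.Cut
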