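import Mathlib

/-!
# Crossing of subsets
-/

set_option autoImplicit false

namespace Pool.Agent.Q98.Cut

variable {E : Type*}

/-- `B` is monochromatic with respect to `A`. -/
def Mono (B A : Set E) : Prop := B ⊆ A ∨ B ⊆ Aᶜ

/-- All four corners are not empty. -/
def Cross (B A : Set E) : Prop := ¬ Mono B A ∧ ¬ Mono Bᶜ A

theorem Mono.compl {B A : Set E} (h : Mono B A) : Mono B Aᶜ := by
  rcases h with h | h
  · right; rwa [compl_compl]
  · left; exact h

theorem mono_compl {B A : Set E} : Mono B Aᶜ ↔ Mono B A := by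
  constructor
  · intro h
    have := h.compl
    rwa [compl_compl] at this
  · exact Mono.compl

theorem cross_compl_right {B A : Set E} : Cross B Aᶜ ↔ Cross B A := by
  simp only [Cross, mono_compl]

theorem cross_compl_left {B A : Set E} : Cross Bᶜ A ↔ Cross B A := by
  simp only [Cross, compl_compl]
  tauto

theorem cross_iff {B A : Set E} : Cross B A ↔ (A ∩ B).Nonempty ∧ (A ∩ Bᶜ).Nonempty ∧
    (Aᶜ ∩ B).Nonempty ∧ (Aᶜ ∩ Bᶜ).Nonempty := by
  simp only [Cross, Mono, not_or, Set.not_subset, Set.Nonempty, Set.mem_inter_iff,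
    Set.mem_compl_iff, not_not]
  constructor
  · rintro ⟨⟨⟨a, h1, h2⟩, ⟨b, h3, h4⟩⟩, ⟨c, h5, h6⟩, ⟨d, h7, h8⟩⟩
    exact ⟨⟨b, h4, h3⟩, ⟨d, h8, h7⟩, ⟨a, h2, h1⟩, ⟨c, h6, h5⟩⟩
  · rintro ⟨⟨b, h4, h3⟩, ⟨d, h8, h7⟩, ⟨a, h2, h1⟩, ⟨c, h6, h5⟩⟩
    exact ⟨⟨⟨a, h1, h2⟩, ⟨b, h3, h4⟩⟩, ⟨c, h5, h6⟩, ⟨d, h7, h8⟩⟩

theorem Cross.symm {B A : Set E} (h : Cross B A) : Cross A B := by
  rw [cross_iff] at h ⊢
  obtain ⟨h1, h2, h3, h4⟩ := h
  rw [Set.inter_comm] at h1 h2 h3 h4
  exact ⟨h1, h3, h2, h4⟩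

/-- A set which is nested with `B` is nested with `A ∩ B` or with `A ∪ B`. -/
theorem nested_one {X A B : Set E} (h : ¬ Cross X B) : ¬ Cross X (A ∩ B) ∨ ¬ Cross X (A ∪ B) := by
  simp only [Cross, Mono, not_and_or, not_not] at h ⊢
  rcases h with (h | h) | (h | h)
  · right; left; left; exact h.trans Set.subset_union_right
  · left; left; right; exact h.trans (Set.compl_subset_compl.2 Set.inter_subset_right)
  · right; right; left; exact h.trans Set.subset_union_right
  · left; right; right; exact h.trans (Set.compl_subset_compl.2 Set.inter_subset_right)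

theorem nested_both_inter {X A B : Set E} (hAB : Cross A B) (hA : ¬ Cross X A)
    (hB : ¬ Cross X B) : ¬ Cross X (A ∩ B) := by
  have key : ∀ Y : Set E, Y ⊆ A → Yᶜ ⊆ B → False := by
    intro Y h1 h2
    rw [cross_iff] at hAB
    obtain ⟨x, h3, h4⟩ := hAB.2.2.2
    by_cases h5 : x ∈ Y
    · exact h4 (h1 h5)
    · exact h3 (h2 h5)
  simp only [Cross, Mono, not_and_or, not_not] at hA hB ⊢
  rcases hA with (hA | hA) | (hA | hA)
  · rcases hB with (hB | hB) | (hB | hB)
    · left; left; exact Set.subset_inter hA hB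
    · left; right; exact hB.trans (Set.compl_subset_compl.2 Set.inter_subset_right)
    · exact absurd (key X hA hB) id
    · right; right; exact hB.trans (Set.compl_subset_compl.2 Set.inter_subset_right)
  · left; right; exact hA.trans (Set.compl_subset_compl.2 Set.inter_subset_left)
  · rcases hB with (hB | hB) | (hB | hB)
    · refine absurd (key Xᶜ hA ?_) id
      rwa [compl_compl]
    · left; right; exact hB.trans (Set.compl_subset_compl.2 Set.inter_subset_right)
    · right; left; exact Set.subset_inter hA hB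
    · right; right; exact hB.trans (Set.compl_subset_compl.2 Set.inter_subset_right)
  · right; right; exact hA.trans (Set.compl_subset_compl.2 Set.inter_subset_left)

theorem nested_both_union {X A B : Set E} (hAB : Cross A B) (hA : ¬ Cross X A)
    (hB : ¬ Cross X B) : ¬ Cross X (A ∪ B) := by
  have h1 : ¬ Cross X (Aᶜ ∩ Bᶜ) := by
    refine nested_both_inter ?_ ?_ ?_
    · rw [cross_compl_right, cross_compl_left]; exact hAB
    · rwa [cross_compl_right]
    · rwa [cross_compl_right]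
  rwa [← Set.compl_union, cross_compl_right] at h1

/-- The pair `P, Q` is a pair of opposite corners of `A, B`. -/
def Corners (A B P Q : Set E) : Prop :=
  (P = A ∩ B ∧ Q = A ∪ B) ∨ (P = A ∩ Bᶜ ∧ Q = B ∩ Aᶜ) ∨ (P = A ∪ Bᶜ ∧ Q = B ∪ Aᶜ)

theorem Corners.nested_both {A B P Q X : Set E} (h : Corners A B P Q) (hAB : Cross A B)
    (hA : ¬ Cross X A) (hB : ¬ Cross X B) : ¬ Cross X P ∧ ¬ Cross X Q := by
  rcases h with ⟨rfl, rfl⟩ | ⟨rfl, rfl⟩ | ⟨rfl, rfl⟩
  · exact ⟨nested_both_inter hAB hA hB, nested_both_union hAB hA hB⟩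
  · refine ⟨nested_both_inter ?_ hA ?_, nested_both_inter ?_ hB ?_⟩
    · rwa [cross_compl_right]
    · rwa [cross_compl_right]
    · rw [cross_compl_right]; exact hAB.symm
    · rwa [cross_compl_right]
  · refine ⟨nested_both_union ?_ hA ?_, nested_both_union ?_ hB ?_⟩
    · rwa [cross_compl_right]
    · rwa [cross_compl_right]
    · rw [cross_compl_right]; exact hAB.symm
    · rwa [cross_compl_right]

theorem Corners.nested_one {A B P Q X : Set E} (h : Corners A B P Q)
    (hX : ¬ Cross X A ∨ ¬ Cross X B) : ¬ Cross X P ∨ ¬ Cross X Q := by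
  rcases h with ⟨rfl, rfl⟩ | ⟨rfl, rfl⟩ | ⟨rfl, rfl⟩
  · rcases hX with hX | hX
    · rw [Set.inter_comm, Set.union_comm]; exact Cut.nested_one hX
    · exact Cut.nested_one hX
  · have e : (B ∩ Aᶜ) = (A ∪ Bᶜ)ᶜ := by
      rw [Set.compl_union, compl_compl, Set.inter_comm]
    rw [e, cross_compl_right]
    rcases hX with hX | hX
    · rw [Set.inter_comm, Set.union_comm]; exact Cut.nested_one hX
    · exact Cut.nested_one (by rwa [cross_compl_right])
  · have e : (B ∪ Aᶜ) = (A ∩ Bᶜ)ᶜ := by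
      rw [Set.compl_inter, compl_compl, Set.union_comm]
    rw [e, cross_compl_right]
    rcases hX with hX | hX
    · rw [Set.inter_comm, Set.union_comm]; exact (Cut.nested_one hX).symm
    · exact (Cut.nested_one (by rwa [cross_compl_right])).symm

theorem not_cross_self (A : Set E) : ¬ Cross A A := by
  intro h
  exact h.1 (Or.inl le_rfl)

theorem Corners.nested_left {A B P Q : Set E} (h : Corners A B P Q) :
    ¬ Cross A P ∧ ¬ Cross A Q := by
  rcases h with ⟨rfl, rfl⟩ | ⟨rfl, rfl⟩ | ⟨rfl, rfl⟩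
  · refine ⟨fun h => h.2 (Or.inr ?_), fun h => h.1 (Or.inl ?_)⟩
    · exact Set.compl_subset_compl.2 Set.inter_subset_left
    · exact Set.subset_union_left
  · refine ⟨fun h => h.2 (Or.inr ?_), fun h => h.1 (Or.inr ?_)⟩
    · exact Set.compl_subset_compl.2 Set.inter_subset_left
    · intro x hx h2; exact h2.2 hx
  · refine ⟨fun h => h.1 (Or.inl ?_), fun h => h.2 (Or.inl ?_)⟩
    · exact Set.subset_union_left
    · exact Set.subset_union_right

end Pool.Agent.Q98.Cut
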