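import Pool.Agent.Q98.Cut.Levels
import Pool.Agent.Q98.Cut.Cross

/-!
# Existence of nested clopen sets in families which are closed under uncrossing
-/

set_option autoImplicit false

namespace Pool.Agent.Q98.Cut

open FreeGroup List
open Filter hiding mk
open Pool.Agent.Q98.Pos Pool.Agent.Q98.Block

variable {α : Type*} [DecidableEq α]

theorem mono_sh {k : FreeGroup α} {B A : Set (Pt α)} : Mono (sh k B) (sh k A) ↔ Mono B A := by
  unfold Mono
  rw [← sh_compl, sh_subset, sh_subset]

theorem cross_sh {k : FreeGroup α} {B A : Set (Pt α)} : Cross (sh k B) (sh k A) ↔ Cross B A := by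
  unfold Cross
  rw [← sh_compl, mono_sh, mono_sh]

/-- The oriented edges which cross `A`. -/
def J (A : Set (Pt α)) : Set (FreeGroup α × (α × Bool)) := {e | Cross (sh e.1 (D [e.2])) A}

theorem J_sh (k : FreeGroup α) (A : Set (Pt α)) : (J (sh k A)).ncard = (J A).ncard := by
  have h : J (sh k A) = (fun e : FreeGroup α × (α × Bool) => (k * e.1, e.2)) '' J A := by
    apply Set.Subset.antisymm
    · rintro ⟨g, s⟩ h
      refine ⟨(k⁻¹ * g, s), ?_, by simp⟩
      change Cross (sh (k⁻¹ * g) (D [s])) A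
      rw [← cross_sh (k := k), sh_sh, mul_inv_cancel_left]
      exact h
    · rintro _ ⟨⟨g', s'⟩, h, rfl⟩
      change Cross (sh (k * g') (D [s'])) (sh k A)
      rw [← sh_sh, cross_sh]
      exact h
  rw [h, Set.ncard_image_of_injective]
  rintro ⟨g, s⟩ ⟨g', s'⟩ h
  simp only [Prod.mk.injEq, mul_right_inj] at h
  exact Prod.ext h.1 h.2

theorem Mono.mono {B B' A : Set (Pt α)} (h : Mono B A) (hB : B' ⊆ B) : Mono B' A := by
  rcases h with h | h
  · exact Or.inl (hB.trans h)
  · exact Or.inr (hB.trans h)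

theorem J_finite [Finite α] {A : Set (Pt α)} (hA : Clo A) : (J A).Finite := by
  obtain ⟨R, hR⟩ := hA.level
  have hfin : {e : FreeGroup α × (α × Bool) | e.1.norm ≤ R}.Finite := by
    have h1 : {k : FreeGroup α | k.norm ≤ R}.Finite := by
      refine Set.Finite.of_finite_image (f := FreeGroup.toWord)
        ((List.finite_length_le (α × Bool) R).subset ?_) FreeGroup.toWord_injective.injOn
      rintro _ ⟨k, hk, rfl⟩
      exact hk
    refine (h1.prod (Set.finite_univ (α := α × Bool))).subset ?_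
    rintro ⟨g, s⟩ h
    exact ⟨h, Set.mem_univ _⟩
  refine hfin.subset ?_
  rintro ⟨g, s⟩ h
  simp only [Set.mem_ofPred_eq]
  by_contra hl
  push Not at hl
  simp only [J, Set.mem_ofPred_eq] at h
  by_cases hr : IsReduced (g.toWord ++ [s])
  · have h1 := sh_D hr
    rw [mk_toWord] at h1
    rw [h1] at h
    refine h.1 (hR _ hr ?_)
    rw [List.length_append]
    unfold FreeGroup.norm at hl
    omega
  · have h2 : ∃ a ∈ g.toWord.getLast?, s = iv a := by
      by_contra h3
      push Not at h3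
      exact hr (red_concat.2 ⟨toWord_red g, h3⟩)
    obtain ⟨a, ha, rfl⟩ := h2
    have h3 : g.toWord = g.toWord.dropLast ++ [a] := by
      have hne : g.toWord ≠ [] := by
        intro h0; rw [h0] at ha; simp at ha
      have := List.dropLast_append_getLast hne
      rw [List.getLast?_eq_some_getLast hne] at ha
      simp only [Option.mem_def, Option.some.injEq] at ha
      rw [ha] at this
      exact this.symm
    have h4 := toWord_red g
    rw [h3] at h4
    have h5 := sh_D_inv' h4
    rw [← h3, mk_toWord] at h5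
    rw [h5, cross_compl_left] at h
    refine h.1 (hR _ (toWord_red g) ?_)
    unfold FreeGroup.norm at hl
    omega

theorem corners_card {ι E : Type*} (X : ι → Set E) {A B P Q : Set E} (hAB : Cross A B)
    (h : Corners A B P Q) (hA : {i | Cross (X i) A}.Finite) (hB : {i | Cross (X i) B}.Finite) :
    {i | Cross (X i) P}.ncard + {i | Cross (X i) Q}.ncard ≤
      {i | Cross (X i) A}.ncard + {i | Cross (X i) B}.ncard := by
  have h1 : {i | Cross (X i) P} ∪ {i | Cross (X i) Q} ⊆
      {i | Cross (X i) A} ∪ {i | Cross (X i) B} := by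
    intro i hi
    by_contra hno
    simp only [Set.mem_union, Set.mem_ofPred_eq, not_or] at hno hi
    have := h.nested_both hAB hno.1 hno.2
    tauto
  have h2 : {i | Cross (X i) P} ∩ {i | Cross (X i) Q} ⊆
      {i | Cross (X i) A} ∩ {i | Cross (X i) B} := by
    intro i hi
    by_contra hno
    simp only [Set.mem_inter_iff, Set.mem_ofPred_eq, not_and_or] at hno hi
    have := h.nested_one hno
    tauto
  have hf := hA.union hB
  have hP : {i | Cross (X i) P}.Finite := hf.subset (Set.subset_union_left.trans h1)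
  have hQ : {i | Cross (X i) Q}.Finite := hf.subset (Set.subset_union_right.trans h1)
  rw [← Set.ncard_union_add_ncard_inter _ _ hP hQ, ← Set.ncard_union_add_ncard_inter _ _ hA hB]
  exact add_le_add (Set.ncard_le_ncard h1 hf) (Set.ncard_le_ncard h2 (hA.subset
    Set.inter_subset_left))

/-- A clopen set which is crossed by few edges and crosses `A` has a bounded level. -/
theorem level_of_cross [Finite α] {A B : Set (Pt α)} {R : ℕ}
    (hR : ∀ u : List (α × Bool), IsReduced u → R ≤ u.length → D u ⊆ A ∨ D u ⊆ Aᶜ)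
    (hB : Clo B) (hBA : Cross B A) (u : List (α × Bool)) (hu : IsReduced u)
    (hl : R + 1 + (J B).ncard ≤ u.length) : Mono (D u) B := by
  by_contra hno
  have hpre : ∀ j, j ≤ (J B).ncard → IsReduced (u.take (R + 1 + j)) := by
    intro j _
    refine red_mid (P := []) (R := u.drop (R + 1 + j)) hu (by simp)
  have h0 : ¬ Mono (D (u.take (R + 1)))ᶜ B := by
    intro hm
    have h1 : Mono (D (u.take (R + 1))) A := hR _ (hpre 0 (Nat.zero_le _)) (by
      rw [List.length_take]; omega)
    rw [cross_iff] at hBA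
    obtain ⟨c1, c2, c3, c4⟩ := hBA
    rcases hm with hm | hm <;> rcases h1 with h1 | h1
    · obtain ⟨x, hx1, hx2⟩ := c4
      by_cases hx : x ∈ D (u.take (R + 1))
      · exact hx1 (h1 hx)
      · exact hx2 (hm hx)
    · obtain ⟨x, hx1, hx2⟩ := c2
      by_cases hx : x ∈ D (u.take (R + 1))
      · exact h1 hx hx1
      · exact hx2 (hm hx)
    · obtain ⟨x, hx1, hx2⟩ := c3
      by_cases hx : x ∈ D (u.take (R + 1))
      · exact hx1 (h1 hx)
      · exact hm hx hx2
    · obtain ⟨x, hx1, hx2⟩ := c1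
      by_cases hx : x ∈ D (u.take (R + 1))
      · exact h1 hx hx1
      · exact hm hx hx2
  have hcr : ∀ j, j ≤ (J B).ncard → Cross (D (u.take (R + 1 + j))) B := by
    intro j hj
    refine ⟨fun h => hno (h.mono (D_mono (List.take_prefix _ _))), fun h => h0 (h.mono ?_)⟩
    rw [Set.compl_subset_compl]
    refine D_mono ?_
    rw [List.prefix_iff_eq_take]
    rw [List.take_take, List.length_take]
    congr 1
    omega
  have hlt : ∀ j : Fin ((J B).ncard + 1), R + j.1 < u.length := fun j => by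
    have := j.2; omega
  let f : Fin ((J B).ncard + 1) → FreeGroup α × (α × Bool) :=
    fun j => (mk (u.take (R + j.1)), u[R + j.1]'(hlt j))
  have htake : ∀ j : Fin ((J B).ncard + 1), u.take (R + 1 + j.1) =
      u.take (R + j.1) ++ [u[R + j.1]'(hlt j)] := by
    intro j
    rw [← List.take_succ_eq_append_getElem]
    congr 1
    omega
  have hfJ : ∀ j, f j ∈ J B := by
    intro j
    have h1 := hcr j.1 (by have := j.2; omega)
    have h2 := hpre j.1 (by have := j.2; omega)
    rw [htake] at h1 h2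
    rw [← sh_D h2] at h1
    exact h1
  have hfi : Function.Injective f := by
    intro i j hij
    have h1 := congrArg (fun e => (Prod.fst e).toWord.length) hij
    simp only [f] at h1
    have hr : ∀ i : Fin ((J B).ncard + 1), IsReduced (u.take (R + i.1)) := fun i =>
      red_mid (P := []) (R := u.drop (R + i.1)) hu (by simp)
    rw [toWord_mk_red (hr i), toWord_mk_red (hr j), List.length_take, List.length_take] at h1
    have h2 := hlt i
    have h3 := hlt j
    apply Fin.ext
    omega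
  have h1 : Nat.card (Fin ((J B).ncard + 1)) ≤ (J B).ncard := by
    rw [← Set.ncard_univ, ← Set.ncard_image_of_injective Set.univ hfi]
    refine Set.ncard_le_ncard ?_ (J_finite hB)
    rintro _ ⟨j, _, rfl⟩
    exact hfJ j
  simp at h1

theorem finite_level [Finite α] (R : ℕ) : {B : Set (Pt α) | ∀ u : List (α × Bool), IsReduced u →
    u.length = R → Mono (D u) B}.Finite := by
  have h1 : (Set.powerset {u : List (α × Bool) | u.length = R}).Finite :=
    (List.finite_length_eq (α × Bool) R).powerset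
  refine (h1.image (fun S => ⋃ u ∈ S, D u)).subset ?_
  intro B hB
  refine ⟨{u | u.length = R ∧ D u ⊆ B}, fun u hu => hu.1, ?_⟩
  ext p
  simp only [Set.mem_ofPred_eq, Set.mem_iUnion, exists_prop]
  constructor
  · rintro ⟨u, ⟨_, h2⟩, h3⟩
    exact h2 h3
  · intro hp
    obtain ⟨u, h2, h3, h4⟩ := exists_level p R
    refine ⟨u, ⟨h2, ?_⟩, h4⟩
    rcases hB u h3 h2 with h5 | h5
    · exact h5
    · exact absurd hp (h5 h4)

/-- **Existence of a minimal nested clopen set.** -/
theorem exists_nested [Finite α] (F : Set (Set (Pt α))) (hF : F.Nonempty) (hclo : ∀ A ∈ F, Clo A)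
    (hsh : ∀ A ∈ F, ∀ k, sh k A ∈ F)
    (hcor : ∀ A ∈ F, ∀ B ∈ F, Cross A B → ∃ P Q, Corners A B P Q ∧ P ∈ F ∧ Q ∈ F) :
    ∃ A ∈ F, (∀ B ∈ F, (J A).ncard ≤ (J B).ncard) ∧ ∀ k, ¬ Cross A (sh k A) := by
  classical
  obtain ⟨A0, hA0, hmin0⟩ : ∃ A ∈ F, ∀ B ∈ F, (J A).ncard ≤ (J B).ncard := by
    obtain ⟨A, hA, h⟩ := WellFounded.has_min (measure (fun A : Set (Pt α) => (J A).ncard)).wf F hF
    exact ⟨A, hA, fun B hB => not_lt.1 (h B hB)⟩
  let M : Set (Set (Pt α)) := {A | A ∈ F ∧ (J A).ncard = (J A0).ncard}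
  have hMsh : ∀ A ∈ M, ∀ k, sh k A ∈ M := fun A hA k => ⟨hsh A hA.1 k, by rw [J_sh]; exact hA.2⟩
  have hfinM : ∀ A ∈ M, {B | B ∈ M ∧ Cross B A}.Finite := by
    intro A hA
    obtain ⟨R, hR⟩ := (hclo A hA.1).level
    refine (finite_level (R + 1 + (J A0).ncard)).subset ?_
    rintro B ⟨hB, hBA⟩ u hu hl
    refine level_of_cross hR (hclo B hB.1) hBA u hu ?_
    rw [hB.2, hl]
  obtain ⟨A, hA, hminA⟩ : ∃ A ∈ M, ∀ B ∈ M, {C | C ∈ M ∧ Cross C A}.ncard ≤
      {C | C ∈ M ∧ Cross C B}.ncard := by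
    obtain ⟨A, hA, h⟩ := WellFounded.has_min
      (measure (fun A : Set (Pt α) => {C | C ∈ M ∧ Cross C A}.ncard)).wf M ⟨A0, hA0, rfl⟩
    exact ⟨A, hA, fun B hB => not_lt.1 (h B hB)⟩
  refine ⟨A, hA.1, fun B hB => by rw [hA.2]; exact hmin0 B hB, fun k hcr => ?_⟩
  set B := sh k A with hBdef
  have hB : B ∈ M := hMsh A hA k
  obtain ⟨P, Q, hPQ, hP, hQ⟩ := hcor A hA.1 B hB.1 hcr
  have hJ := corners_card (fun e : FreeGroup α × (α × Bool) => sh e.1 (D [e.2])) hcr hPQ
    (J_finite (hclo A hA.1)) (J_finite (hclo B hB.1))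
  change (J P).ncard + (J Q).ncard ≤ (J A).ncard + (J B).ncard at hJ
  have h1 := hmin0 P hP
  have h2 := hmin0 Q hQ
  rw [hA.2, hB.2] at hJ
  have hPM : P ∈ M := ⟨hP, by omega⟩
  have hQM : Q ∈ M := ⟨hQ, by omega⟩
  -- the number of members of `M` which cross
  have hfA := hfinM A hA
  have hfB := hfinM B hB
  have hsub1 : {C | C ∈ M ∧ Cross C P} ∪ {C | C ∈ M ∧ Cross C Q} ⊆
      ({C | C ∈ M ∧ Cross C A} ∪ {C | C ∈ M ∧ Cross C B}) \ {A} := by
    rintro C hC
    have hCM : C ∈ M := by
      rcases hC with hC | hC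
      · exact hC.1
      · exact hC.1
    refine ⟨?_, ?_⟩
    · by_contra hno
      simp only [Set.mem_union, Set.mem_ofPred_eq, not_or, not_and] at hno hC
      have := hPQ.nested_both hcr (hno.1 hCM) (hno.2 hCM)
      tauto
    · rw [Set.mem_singleton_iff]
      rintro rfl
      have := hPQ.nested_left
      simp only [Set.mem_union, Set.mem_ofPred_eq] at hC
      tauto
  have hsub2 : {C | C ∈ M ∧ Cross C P} ∩ {C | C ∈ M ∧ Cross C Q} ⊆
      {C | C ∈ M ∧ Cross C A} ∩ {C | C ∈ M ∧ Cross C B} := by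
    rintro C ⟨hC1, hC2⟩
    by_contra hno
    simp only [Set.mem_inter_iff, Set.mem_ofPred_eq, not_and_or] at hno
    have h3 : ¬ Cross C A ∨ ¬ Cross C B := by
      have := hC1.1
      tauto
    have := hPQ.nested_one h3
    have h4 := hC1.2
    have h5 := hC2.2
    tauto
  have hfP := hfinM P hPM
  have hfQ := hfinM Q hQM
  have hAin : A ∈ ({C | C ∈ M ∧ Cross C A} ∪ {C | C ∈ M ∧ Cross C B}) := Or.inr ⟨hA, hcr⟩
  have hc1 : ({C | C ∈ M ∧ Cross C P} ∪ {C | C ∈ M ∧ Cross C Q}).ncard <
      ({C | C ∈ M ∧ Cross C A} ∪ {C | C ∈ M ∧ Cross C B}).ncard := by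
    refine lt_of_le_of_lt (Set.ncard_le_ncard hsub1 ((hfA.union hfB).subset
      Set.sdiff_subset)) ?_
    exact Set.ncard_sdiff_singleton_lt_of_mem hAin (hfA.union hfB)
  have hc2 := Set.ncard_le_ncard hsub2 (hfA.subset Set.inter_subset_left)
  have e1 := Set.ncard_union_add_ncard_inter _ _ hfP hfQ
  have e2 := Set.ncard_union_add_ncard_inter _ _ hfA hfB
  have m1 := hminA P hPM
  have m2 := hminA Q hQM
  have hBA : {C | C ∈ M ∧ Cross C B}.ncard = {C | C ∈ M ∧ Cross C A}.ncard := by
    have h : {C | C ∈ M ∧ Cross C B} = (sh k) '' {C | C ∈ M ∧ Cross C A} := by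
      ext C
      simp only [Set.mem_ofPred_eq, Set.mem_image]
      constructor
      · rintro ⟨h3, h4⟩
        refine ⟨sh k⁻¹ C, ⟨hMsh C h3 _, ?_⟩, ?_⟩
        · rw [← cross_sh (k := k), sh_sh, mul_inv_cancel, sh_one]
          exact h4
        · rw [sh_sh, mul_inv_cancel, sh_one]
      · rintro ⟨C', ⟨h3, h4⟩, rfl⟩
        exact ⟨hMsh C' h3 k, cross_sh.2 h4⟩
    rw [h, Set.ncard_image_of_injective]
    intro X Y hXY
    exact sh_inj hXY
  omega

end Pool.Agent.Q98.Cut
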