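import Pool.Agent.Q98.Block

/-!
# Almost invariant subsets of a free group and the clopen sets of ends
-/

set_option autoImplicit false

namespace Pool.Agent.Q98.Cut

open FreeGroup List
open Filter hiding mk
open Pool.Agent.Q98.Pos Pool.Agent.Q98.Block

variable {α : Type*} [DecidableEq α]

/-- A rational end: `g h^∞`. -/
@[ext] structure Pt (α : Type*) where
  /-- the starting point -/
  g : FreeGroup α
  /-- the period -/
  h : FreeGroup α
  /-- the period is not trivial -/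
  ne : h ≠ 1

/-- The points `g h ^ n`. -/
def Pt.at (p : Pt α) (n : ℕ) : FreeGroup α := p.g * p.h ^ n

theorem Pt.inj (p : Pt α) : Function.Injective p.at := by
  intro m n h
  exact IsMulTorsionFree.pow_right_injective p.ne (mul_left_cancel h)

/-- Almost invariant sets. -/
def AI (U : Set (FreeGroup α)) : Prop := ∀ s : α × Bool, {g | g ∈ U ∧ g * mk [s] ∉ U}.Finite

theorem AI.all {U : Set (FreeGroup α)} (hU : AI U) (h : FreeGroup α) :
    {g | g ∈ U ∧ g * h ∉ U}.Finite := by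
  have key : ∀ L : List (α × Bool), {g | g ∈ U ∧ g * mk L ∉ U}.Finite := by
    intro L
    induction L with
    | nil =>
      convert Set.finite_empty
      ext g
      simp only [Set.mem_ofPred_eq, Set.mem_empty_iff_false, iff_false, not_and, not_not]
      intro hg
      rwa [← one_eq_mk, mul_one]
    | cons s L ih =>
      have h1 := hU s
      have h2 : ((fun g : FreeGroup α => g * mk [s]) ⁻¹' {g | g ∈ U ∧ g * mk L ∉ U}).Finite :=
        ih.preimage (fun a _ b _ h => mul_right_cancel h)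
      refine (h1.union h2).subset ?_
      rintro g ⟨hg, hg2⟩
      by_cases h3 : g * mk [s] ∈ U
      · right
        refine ⟨h3, ?_⟩
        rw [mul_assoc, mul_mk]
        exact hg2
      · left
        exact ⟨hg, h3⟩
  have := key h.toWord
  rwa [mk_toWord] at this

theorem ai_of {U : Set (FreeGroup α)} (h : ∀ k : FreeGroup α, {g | g ∈ U ∧ g * k ∉ U}.Finite) :
    AI U := fun s => h _

theorem AI.compl {U : Set (FreeGroup α)} (hU : AI U) : AI Uᶜ := by
  refine ai_of fun k => ?_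
  have h1 := hU.all k⁻¹
  have h2 : ((fun g : FreeGroup α => g * k) ⁻¹' {g | g ∈ U ∧ g * k⁻¹ ∉ U}).Finite :=
    h1.preimage (fun a _ b _ h => mul_right_cancel h)
  refine h2.subset ?_
  rintro g ⟨hg, hg2⟩
  simp only [Set.mem_compl_iff, not_not] at hg hg2
  refine ⟨hg2, ?_⟩
  rw [mul_inv_cancel_right]
  exact hg

theorem AI.inter {U V : Set (FreeGroup α)} (hU : AI U) (hV : AI V) : AI (U ∩ V) := by
  intro s
  refine ((hU s).union (hV s)).subset ?_
  rintro g ⟨⟨h1, h2⟩, h3⟩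
  by_cases h4 : g * mk [s] ∈ U
  · exact Or.inr ⟨h2, fun h5 => h3 ⟨h4, h5⟩⟩
  · exact Or.inl ⟨h1, h4⟩

theorem AI.shift {U : Set (FreeGroup α)} (hU : AI U) (k : FreeGroup α) : AI {g | k⁻¹ * g ∈ U} := by
  intro s
  have h2 : ((fun g : FreeGroup α => k⁻¹ * g) ⁻¹' {g | g ∈ U ∧ g * mk [s] ∉ U}).Finite :=
    (hU s).preimage (fun a _ b _ h => mul_left_cancel h)
  refine h2.subset ?_
  rintro g ⟨h3, h4⟩
  refine ⟨h3, ?_⟩
  rw [mul_assoc]
  exact h4

theorem AI.map {U : Set (FreeGroup α)} (hU : AI U) (φ : FreeGroup α ≃* FreeGroup α) :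
    AI {g | φ.symm g ∈ U} := by
  refine ai_of fun k => ?_
  have h2 : ((fun g : FreeGroup α => φ.symm g) ⁻¹'
      {g | g ∈ U ∧ g * φ.symm k ∉ U}).Finite :=
    (hU.all _).preimage (fun a _ b _ h => φ.symm.injective h)
  refine h2.subset ?_
  rintro g ⟨h3, h4⟩
  refine ⟨h3, ?_⟩
  rw [Set.mem_ofPred_eq, _root_.map_mul] at h4
  exact h4

theorem AI.univ : AI (Set.univ : Set (FreeGroup α)) := by
  intro s
  convert Set.finite_empty
  ext g
  simp

/-- The ends which lie in `U`. -/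
def lim (U : Set (FreeGroup α)) : Set (Pt α) := {p | ∀ᶠ n in atTop, p.at n ∈ U}

theorem AI.ev {U : Set (FreeGroup α)} (hU : AI U) (p : Pt α) :
    (∀ᶠ n in atTop, p.at n ∈ U) ∨ (∀ᶠ n in atTop, p.at n ∉ U) := by
  have hS : {k : FreeGroup α | (k ∈ U ∧ k * p.h ∉ U) ∨ (k ∈ Uᶜ ∧ k * p.h ∉ Uᶜ)}.Finite :=
    (hU.all p.h).union (hU.compl.all p.h)
  have h1 : (p.at ⁻¹' {k : FreeGroup α | (k ∈ U ∧ k * p.h ∉ U) ∨
      (k ∈ Uᶜ ∧ k * p.h ∉ Uᶜ)}).Finite := hS.preimage p.inj.injOn
  obtain ⟨N, hN⟩ := h1.bddAbove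
  have hstep : ∀ n, N < n → (p.at n ∈ U ↔ p.at (n + 1) ∈ U) := by
    intro n hn
    have h2 : p.at (n + 1) = p.at n * p.h := by
      simp only [Pt.at, pow_succ, mul_assoc]
    have h3 : n ∉ (p.at ⁻¹' {k : FreeGroup α | (k ∈ U ∧ k * p.h ∉ U) ∨
      (k ∈ Uᶜ ∧ k * p.h ∉ Uᶜ)}) := fun h => absurd (hN h) (by omega)
    simp only [Set.mem_preimage, Set.mem_ofPred_eq, Set.mem_compl_iff, not_not, not_or,
      not_and] at h3
    rw [h2]
    exact ⟨h3.1, fun h => by_contra fun h4 => h3.2 h4 h⟩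
  have hconst : ∀ n, N < n → (p.at n ∈ U ↔ p.at (N + 1) ∈ U) := by
    intro n hn
    induction n with
    | zero => omega
    | succ n ih =>
      rcases Nat.lt_or_ge N n with h | h
      · rw [← hstep n h, ih h]
      · have : n = N := by omega
        rw [this]
  by_cases h : p.at (N + 1) ∈ U
  · left
    filter_upwards [eventually_gt_atTop N] with n hn
    rwa [hconst n hn]
  · right
    filter_upwards [eventually_gt_atTop N] with n hn
    rwa [hconst n hn]

theorem lim_compl {U : Set (FreeGroup α)} (hU : AI U) : lim Uᶜ = (lim U)ᶜ := by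
  ext p
  simp only [lim, Set.mem_compl_iff, Set.mem_ofPred_eq]
  constructor
  · intro h h2
    obtain ⟨n, h3, h4⟩ := (h.and h2).exists
    exact h3 h4
  · intro h
    rcases hU.ev p with h2 | h2
    · exact absurd h2 h
    · exact h2

theorem lim_inter (U V : Set (FreeGroup α)) : lim (U ∩ V) = lim U ∩ lim V := by
  ext p
  simp only [lim, Set.mem_inter_iff, Set.mem_ofPred_eq, eventually_and]

theorem lim_univ : lim (Set.univ : Set (FreeGroup α)) = Set.univ := by
  ext p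
  simp [lim]

theorem lim_of_finite {U V : Set (FreeGroup α)} (h : (U \ V).Finite) : lim U ⊆ lim V := by
  intro p hp
  have h1 : (p.at ⁻¹' (U \ V)).Finite := h.preimage p.inj.injOn
  obtain ⟨N, hN⟩ := h1.bddAbove
  change ∀ᶠ n in atTop, p.at n ∈ V
  filter_upwards [eventually_gt_atTop N, hp] with n hn hn2
  by_contra h3
  exact absurd (hN (show n ∈ p.at ⁻¹' (U \ V) from ⟨hn2, h3⟩)) (by omega)

/-- Translates of sets of ends. -/
def sh (k : FreeGroup α) (A : Set (Pt α)) : Set (Pt α) := {p | (⟨k⁻¹ * p.g, p.h, p.ne⟩ : Pt α) ∈ A}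

/-- Images of sets of ends. -/
def im (φ : FreeGroup α ≃* FreeGroup α) (A : Set (Pt α)) : Set (Pt α) :=
  {p | (⟨φ.symm p.g, φ.symm p.h, fun h => p.ne (by
    rw [← φ.symm.map_one] at h; exact φ.symm.injective h)⟩ : Pt α) ∈ A}

theorem mem_sh {k : FreeGroup α} {A : Set (Pt α)} {p : Pt α} :
    p ∈ sh k A ↔ (⟨k⁻¹ * p.g, p.h, p.ne⟩ : Pt α) ∈ A := Iff.rfl

theorem sh_lim (k : FreeGroup α) (U : Set (FreeGroup α)) :
    sh k (lim U) = lim {g | k⁻¹ * g ∈ U} := by
  ext p
  simp only [sh, lim, Set.mem_ofPred_eq, Pt.at, mul_assoc]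

theorem im_lim (φ : FreeGroup α ≃* FreeGroup α) (U : Set (FreeGroup α)) :
    im φ (lim U) = lim {g | φ.symm g ∈ U} := by
  ext p
  simp only [im, lim, Set.mem_ofPred_eq, Pt.at, _root_.map_mul, _root_.map_pow]

theorem sh_one (A : Set (Pt α)) : sh 1 A = A := by
  ext p
  simp only [mem_sh, inv_one, one_mul]

theorem sh_sh (k l : FreeGroup α) (A : Set (Pt α)) : sh k (sh l A) = sh (k * l) A := by
  ext p
  simp only [mem_sh, mul_inv_rev, mul_assoc]

theorem sh_compl (k : FreeGroup α) (A : Set (Pt α)) : sh k Aᶜ = (sh k A)ᶜ := rfl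
theorem sh_inter (k : FreeGroup α) (A B : Set (Pt α)) : sh k (A ∩ B) = sh k A ∩ sh k B := rfl
theorem sh_union (k : FreeGroup α) (A B : Set (Pt α)) : sh k (A ∪ B) = sh k A ∪ sh k B := rfl

theorem sh_subset {k : FreeGroup α} {A B : Set (Pt α)} : sh k A ⊆ sh k B ↔ A ⊆ B := by
  constructor
  · intro h p hp
    have h1 : (⟨k * p.g, p.h, p.ne⟩ : Pt α) ∈ sh k A := by
      rw [mem_sh]; simpa using hp
    have := h h1
    rw [mem_sh] at this
    simpa using this
  · intro h p hp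
    exact h hp

theorem sh_nonempty {k : FreeGroup α} {A : Set (Pt α)} : (sh k A).Nonempty ↔ A.Nonempty := by
  constructor
  · rintro ⟨p, hp⟩; exact ⟨_, hp⟩
  · rintro ⟨p, hp⟩
    exact ⟨⟨k * p.g, p.h, p.ne⟩, by rw [mem_sh]; simpa using hp⟩

theorem sh_inj {k : FreeGroup α} {A B : Set (Pt α)} (h : sh k A = sh k B) : A = B :=
  Set.Subset.antisymm (sh_subset.1 h.subset) (sh_subset.1 h.symm.subset)

theorem im_compl (φ : FreeGroup α ≃* FreeGroup α) (A : Set (Pt α)) : im φ Aᶜ = (im φ A)ᶜ := rfl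

theorem mem_im {φ : FreeGroup α ≃* FreeGroup α} {A : Set (Pt α)} {p : Pt α} :
    p ∈ im φ A ↔ (⟨φ.symm p.g, φ.symm p.h, fun h => p.ne (by
    rw [← φ.symm.map_one] at h; exact φ.symm.injective h)⟩ : Pt α) ∈ A := Iff.rfl

/-- the image of a point -/
def Pt.map (φ : FreeGroup α ≃* FreeGroup α) (p : Pt α) : Pt α :=
  ⟨φ p.g, φ p.h, fun h => p.ne (by rw [← φ.map_one] at h; exact φ.injective h)⟩

theorem map_mem_im {φ : FreeGroup α ≃* FreeGroup α} {A : Set (Pt α)} {p : Pt α} :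
    p.map φ ∈ im φ A ↔ p ∈ A := by
  rw [mem_im]
  simp [Pt.map]

theorem im_subset {φ : FreeGroup α ≃* FreeGroup α} {A B : Set (Pt α)} :
    im φ A ⊆ im φ B ↔ A ⊆ B := by
  constructor
  · intro h p hp
    exact map_mem_im.1 (h (map_mem_im.2 hp))
  · intro h p hp
    exact h hp

theorem im_sh (φ : FreeGroup α ≃* FreeGroup α) (k : FreeGroup α) (A : Set (Pt α)) :
    im φ (sh k A) = sh (φ k) (im φ A) := by
  ext p
  simp only [mem_im, mem_sh, _root_.map_mul, _root_.map_inv, φ.symm_apply_apply]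

theorem im_symm (φ : FreeGroup α ≃* FreeGroup α) (A : Set (Pt α)) :
    im φ (im φ.symm A) = A := by
  ext p
  simp only [mem_im, MulEquiv.symm_symm, φ.apply_symm_apply]

/-- The clopen sets of ends. -/
def Clo (A : Set (Pt α)) : Prop := ∃ U, AI U ∧ A = lim U

theorem Clo.compl {A : Set (Pt α)} (hA : Clo A) : Clo Aᶜ := by
  obtain ⟨U, hU, rfl⟩ := hA
  exact ⟨Uᶜ, hU.compl, (lim_compl hU).symm⟩

theorem Clo.inter {A B : Set (Pt α)} (hA : Clo A) (hB : Clo B) : Clo (A ∩ B) := by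
  obtain ⟨U, hU, rfl⟩ := hA
  obtain ⟨V, hV, rfl⟩ := hB
  exact ⟨U ∩ V, hU.inter hV, (lim_inter U V).symm⟩

theorem Clo.union {A B : Set (Pt α)} (hA : Clo A) (hB : Clo B) : Clo (A ∪ B) := by
  have := (hA.compl.inter hB.compl).compl
  rwa [Set.compl_inter, compl_compl, compl_compl] at this

theorem Clo.sh {A : Set (Pt α)} (hA : Clo A) (k : FreeGroup α) : Clo (sh k A) := by
  obtain ⟨U, hU, rfl⟩ := hA
  exact ⟨_, hU.shift k, sh_lim k U⟩

theorem Clo.im {A : Set (Pt α)} (hA : Clo A) (φ : FreeGroup α ≃* FreeGroup α) : Clo (im φ A) := by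
  obtain ⟨U, hU, rfl⟩ := hA
  exact ⟨_, hU.map φ, im_lim φ U⟩

theorem Clo.univ : Clo (Set.univ : Set (Pt α)) := ⟨_, AI.univ, lim_univ.symm⟩

/-- Clopen sets do not distinguish between conjugate periods. -/
theorem Clo.conj {A : Set (Pt α)} (hA : Clo A) (g c h : FreeGroup α) (hh : h ≠ 1)
    (hh' : c * h * c⁻¹ ≠ 1) :
    (⟨g, c * h * c⁻¹, hh'⟩ : Pt α) ∈ A ↔ (⟨g * c, h, hh⟩ : Pt α) ∈ A := by
  obtain ⟨U, hU, rfl⟩ := hA
  have e : ∀ n, (⟨g, c * h * c⁻¹, hh'⟩ : Pt α).at n = (⟨g * c, h, hh⟩ : Pt α).at n * c⁻¹ := by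
    intro n
    simp only [Pt.at, conj_pow]
    group
  have key : ∀ V : Set (FreeGroup α), AI V → (⟨g * c, h, hh⟩ : Pt α) ∈ lim V →
      (⟨g, c * h * c⁻¹, hh'⟩ : Pt α) ∈ lim V := by
    intro V hV hp
    have h1 : ((⟨g * c, h, hh⟩ : Pt α).at ⁻¹' {k | k ∈ V ∧ k * c⁻¹ ∉ V}).Finite :=
      (hV.all c⁻¹).preimage (Pt.inj _).injOn
    obtain ⟨N, hN⟩ := h1.bddAbove
    change ∀ᶠ n in atTop, _ ∈ V
    filter_upwards [eventually_gt_atTop N, hp] with n hn hn2
    rw [e]
    by_contra h3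
    exact absurd (hN (show n ∈ _ from ⟨hn2, h3⟩)) (by omega)
  constructor
  · intro h1
    by_contra h2
    have h3 : (⟨g * c, h, hh⟩ : Pt α) ∈ lim Uᶜ := by rw [lim_compl hU]; exact h2
    have h4 := key _ hU.compl h3
    rw [lim_compl hU] at h4
    exact h4 h1
  · exact key U hU

/-! ### Cones -/

/-- The words which start with `u`. -/
def C (u : List (α × Bool)) : Set (FreeGroup α) := {k | u <+: k.toWord}

theorem C_ai (u : List (α × Bool)) : AI (C u) := by
  intro s
  refine (Set.finite_singleton (mk u)).subset ?_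
  rintro k ⟨h1, h2⟩
  rw [Set.mem_singleton_iff]
  rcases toWord_mul_letter k s with ⟨T, h3, h4⟩ | h3
  · simp only [C, Set.mem_ofPred_eq] at h1 h2
    rw [h4] at h2
    rw [h3] at h1
    rcases List.prefix_concat_iff.1 h1 with h5 | h5
    · rw [h5, ← h3, mk_toWord]
    · exact absurd h5 h2
  · exfalso
    apply h2
    simp only [C, Set.mem_ofPred_eq] at h1 ⊢
    rw [h3]
    exact h1.trans (List.prefix_append _ _)

/-- The ends beyond the path `u`. -/
def D (u : List (α × Bool)) : Set (Pt α) := lim (C u)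

theorem D_clo (u : List (α × Bool)) : Clo (D u) := ⟨_, C_ai u, rfl⟩

theorem D_nil : D ([] : List (α × Bool)) = Set.univ := by
  ext p
  simp [D, lim, C]

theorem D_mono {u v : List (α × Bool)} (h : u <+: v) : D v ⊆ D u := by
  intro p hp
  change ∀ᶠ n in atTop, _ ∈ C u
  filter_upwards [hp] with n hn
  exact h.trans hn

theorem D_disj {u v : List (α × Bool)} (hl : u.length = v.length) (h : u ≠ v) :
    Disjoint (D u) (D v) := by
  rw [Set.disjoint_left]
  intro p h1 h2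
  obtain ⟨n, h3, h4⟩ := (h1.and h2).exists
  simp only [C, Set.mem_ofPred_eq] at h3 h4
  exact h (List.prefix_iff_eq_take.1 h3 ▸ (by
    rw [hl]; exact (List.prefix_iff_eq_take.1 h4).symm))

theorem D_nonempty {u : List (α × Bool)} {s : α × Bool} (hu : IsReduced (u ++ [s])) :
    (D (u ++ [s])).Nonempty := by
  have hs : (mk [s] : FreeGroup α) ≠ 1 := mk_ne_one (by simp) (IsReduced.singleton)
  refine ⟨⟨mk (u ++ [s]), mk [s], hs⟩, ?_⟩
  change ∀ᶠ n in atTop, _ ∈ C (u ++ [s])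
  filter_upwards with n
  have hcyc : IsCyclicallyReduced [s] := by
    rw [isCyclicallyReduced_iff]
    refine ⟨IsReduced.singleton, ?_⟩
    intro a ha b hb
    simp only [List.getLast?_singleton, List.head?_cons, Option.mem_def,
      Option.some.injEq] at ha hb
    rw [← ha, ← hb]; simp
  have h1 : IsReduced ((u ++ [s]) ++ rep n [s]) := by
    rw [List.append_assoc, reduced_append]
    have h2 : [s] ++ rep n [s] = rep (n + 1) [s] := (rep_succ _ _).symm
    rw [reduced_append] at hu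
    refine ⟨hu.1, ?_, ?_⟩
    · rw [h2]
      exact (cyc_rep hcyc _).isReduced
    · intro a ha b hb
      simp only [List.singleton_append, List.head?_cons, Option.mem_def,
        Option.some.injEq] at hb
      exact hu.2.2 a ha b (by simp [hb])
  have h3 : (mk (u ++ [s]) : FreeGroup α) * mk [s] ^ n = mk ((u ++ [s]) ++ rep n [s]) := by
    rw [← mk_rep, mul_mk]
  simp only [C, Set.mem_ofPred_eq, Pt.at]
  rw [h3, toWord_mk_red h1]
  exact List.prefix_append _ _

end Pool.Agent.Q98.Cut
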