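import Pool.Agent.Q98.Cut.Three

/-!
# The closure process computes the existence of forward closed sets
-/

set_option autoImplicit false

namespace Pool.Agent.Q98.Cut

open FreeGroup List
open Filter hiding mk
open Pool.Agent.Q98.Pos Pool.Agent.Q98.Block

variable {α : Type*} [DecidableEq α]

theorem nxt_lt {m i : ℕ} (h : i < m) : nxt m i < m := by
  unfold nxt; split_ifs <;> omega

theorem prv_lt {m i : ℕ} (h : i < m) : prv m i < m := by
  unfold prv; split_ifs <;> omega

theorem nxt_prv {m i : ℕ} (h : i < m) : nxt m (prv m i) = i := by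
  unfold prv
  split_ifs with h1
  · unfold nxt; split_ifs <;> omega
  · unfold nxt; split_ifs <;> omega

theorem prv_nxt {m i : ℕ} (h : i < m) : prv m (nxt m i) = i := by
  unfold nxt
  split_ifs with h1
  · unfold prv; rw [if_neg (by omega)]; omega
  · unfold prv; rw [if_pos rfl]; omega

theorem getD_map_range (f : ℕ → Bool) {m i : ℕ} (h : i < m) :
    ((List.range m).map f).getD i false = f i := by
  rw [List.getD_eq_getElem?_getD, List.getElem?_map, List.getElem?_range h]
  rfl

/-- the line number `i` through `g` -/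
def kk (W : List (α × Bool)) (g : FreeGroup α) (i : ℕ) : FreeGroup α := g * (mk (W.take i))⁻¹

theorem fw_mul {A : Set (Pt α)} (hA : Clo A) {v : FreeGroup α} (hv : v ≠ 1) (k : FreeGroup α) :
    fw v hv (k * v) ∈ A ↔ fw v hv k ∈ A := by
  have h1 : v * v * v⁻¹ ≠ 1 := by rwa [mul_inv_cancel_right]
  have h2 := hA.conj k v v hv h1
  refine Iff.trans (Iff.symm h2) (Eq.to_iff ?_)
  congr 1
  ext
  · rfl
  · simp [fw]

theorem bw_mul {A : Set (Pt α)} (hA : Clo A) {v : FreeGroup α} (hv : v ≠ 1) (k : FreeGroup α) :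
    bw v hv (k * v) ∈ A ↔ bw v hv k ∈ A := by
  have h1 : v * v⁻¹ * v⁻¹ ≠ 1 := by rw [mul_inv_cancel, one_mul]; exact inv_ne_one.2 hv
  have h2 := hA.conj k v v⁻¹ (inv_ne_one.2 hv) h1
  refine Iff.trans (Iff.symm h2) (Eq.to_iff ?_)
  congr 1
  ext
  · rfl
  · simp [bw]

theorem fw_pow {A : Set (Pt α)} (hA : Clo A) {v : FreeGroup α} (hv : v ≠ 1) (n : ℕ) :
    ∀ k : FreeGroup α, fw v hv (k * v ^ n) ∈ A ↔ fw v hv k ∈ A := by
  induction n with
  | zero => intro k; rw [pow_zero, mul_one]
  | succ n ih =>
    intro k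
    rw [pow_succ, ← mul_assoc, fw_mul hA, ih]

theorem bw_pow {A : Set (Pt α)} (hA : Clo A) {v : FreeGroup α} (hv : v ≠ 1) (n : ℕ) :
    ∀ k : FreeGroup α, bw v hv (k * v ^ n) ∈ A ↔ bw v hv k ∈ A := by
  induction n with
  | zero => intro k; rw [pow_zero, mul_one]
  | succ n ih =>
    intro k
    rw [pow_succ, ← mul_assoc, bw_mul hA, ih]

theorem kk_next {W : List (α × Bool)} {i : ℕ} {z : α × Bool} (hz : W[i]? = some z)
    (g : FreeGroup α) : kk W (g * mk [z]) (nxt W.length i) = kk W g i ∨
      kk W (g * mk [z]) (nxt W.length i) = kk W g i * mk W := by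
  have hi : i < W.length := by
    rw [List.getElem?_eq_some_iff] at hz
    exact hz.1
  have htake : W.take (i + 1) = W.take i ++ [z] := by
    rw [List.take_add_one, hz]; rfl
  unfold nxt
  split_ifs with h
  · left
    unfold kk
    rw [htake, ← mul_mk]
    group
  · right
    have h1 : W = W.take i ++ [z] := by
      rw [← htake, List.take_of_length_le (by omega)]
    unfold kk
    have e : (mk W : FreeGroup α) = mk (W.take i) * mk [z] := by
      rw [mul_mk, ← h1]
    rw [e, List.take_zero, ← one_eq_mk]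
    group

variable {W : List (α × Bool)} (hW : IsCyclicallyReduced W) (hv : mk W ≠ (1 : FreeGroup α))

include hv in
theorem W_ne : W ≠ [] := by
  rintro rfl; exact hv (by rw [← one_eq_mk])

include hW in
theorem pos_dir {i : ℕ} {p q : α × Bool} (hq : W[i]? = some q)
    (hp : W[prv W.length i]? = some p) :
    bw (mk W) hv (kk W 1 i) ∈ D [iv p] ∧ fw (mk W) hv (kk W 1 i) ∈ D [q] := by
  have hi : i < W.length := by
    rw [List.getElem?_eq_some_iff] at hq
    exact hq.1
  rcases Nat.eq_zero_or_pos i with rfl | hi0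
  · have hp' : W[W.length - 1]? = some p := by simpa [prv] using hp
    have h1 : W = W.take (W.length - 1) ++ [p] := by
      have : W.take (W.length - 1 + 1) = W.take (W.length - 1) ++ [p] := by
        rw [List.take_add_one, hp']; rfl
      rw [← this, List.take_of_length_le (by omega)]
    obtain ⟨T, hT⟩ : ∃ T, W = q :: T := by
      rcases W with _ | ⟨a, T⟩
      · simp at hi
      · simp only [List.getElem?_cons_zero, Option.some.injEq] at hq
        exact ⟨T, by rw [hq]⟩
    have h2 : rep 2 W = W.take (W.length - 1) ++ [p, q] ++ T := by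
      rw [rep_two]
      conv_lhs => rw [h1]
      conv_lhs => rw [← h1]
      have : W ++ W = (W.take (W.length - 1) ++ [p]) ++ (q :: T) := by
        rw [← h1, ← hT]
      rw [this]; simp
    obtain ⟨h3, h4⟩ := line_at hW hv h2
    rw [← h1] at h3 h4
    have e : kk W 1 0 = (mk W)⁻¹ * mk W := by
      unfold kk; rw [List.take_zero, ← one_eq_mk]; group
    rw [e, bw_mul (D_clo _) hv, fw_mul (D_clo _) hv]
    exact ⟨h3, h4⟩
  · have hprv : prv W.length i = i - 1 := by unfold prv; rw [if_neg (by omega)]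
    rw [hprv] at hp
    have h1 : W.take i = W.take (i - 1) ++ [p] := by
      have : W.take (i - 1 + 1) = W.take (i - 1) ++ [p] := by
        rw [List.take_add_one, hp]; rfl
      rw [← this]; congr 1; omega
    have h2 : W.take (i + 1) = W.take i ++ [q] := by
      rw [List.take_add_one, hq]; rfl
    have h3 : rep 1 W = W.take (i - 1) ++ [p, q] ++ W.drop (i + 1) := by
      rw [rep_succ, rep_zero, List.append_nil]
      conv_lhs => rw [← List.take_append_drop (i + 1) W, h2, h1]
      simp
    obtain ⟨h4, h5⟩ := line_at hW hv h3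
    rw [← h1] at h4 h5
    have e : kk W 1 i = (mk (W.take i))⁻¹ := by unfold kk; rw [one_mul]
    rw [e]
    exact ⟨h4, h5⟩

include hW hv in
theorem turn_ne {i : ℕ} {p q : α × Bool} (hq : W[i]? = some q)
    (hp : W[prv W.length i]? = some p) : q ≠ iv p := by
  rintro rfl
  obtain ⟨h1, h2⟩ := pos_dir hW hv hq hp
  -- both ends are in the same direction: impossible by reducedness
  have hi : i < W.length := by
    rw [List.getElem?_eq_some_iff] at hq
    exact hq.1
  have hred : IsReduced (W ++ W) := by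
    rw [← rep_two]; exact (cyc_rep hW 2).isReduced
  have hsplit : ∃ P Q, W ++ W = P ++ [p, iv p] ++ Q := by
    rcases Nat.eq_zero_or_pos i with rfl | hi0
    · have hp' : W[W.length - 1]? = some p := by simpa [prv] using hp
      have h1 : W = W.take (W.length - 1) ++ [p] := by
        have : W.take (W.length - 1 + 1) = W.take (W.length - 1) ++ [p] := by
          rw [List.take_add_one, hp']; rfl
        rw [← this, List.take_of_length_le (by omega)]
      obtain ⟨T, hT⟩ : ∃ T, W = iv p :: T := by
        rcases W with _ | ⟨a, T⟩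
        · simp at hi
        · simp only [List.getElem?_cons_zero, Option.some.injEq] at hq
          exact ⟨T, by rw [hq]⟩
      refine ⟨W.take (W.length - 1), T, ?_⟩
      have : W ++ W = (W.take (W.length - 1) ++ [p]) ++ (iv p :: T) := by
        rw [← h1, ← hT]
      rw [this]; simp
    · have hprv : prv W.length i = i - 1 := by unfold prv; rw [if_neg (by omega)]
      rw [hprv] at hp
      have h1 : W.take i = W.take (i - 1) ++ [p] := by
        have : W.take (i - 1 + 1) = W.take (i - 1) ++ [p] := by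
          rw [List.take_add_one, hp]; rfl
        rw [← this]; congr 1; omega
      have h2 : W.take (i + 1) = W.take i ++ [iv p] := by
        rw [List.take_add_one, hq]; rfl
      refine ⟨W.take (i - 1), W.drop (i + 1) ++ W, ?_⟩
      have : W = W.take (i - 1) ++ [p, iv p] ++ W.drop (i + 1) := by
        conv_lhs => rw [← List.take_append_drop (i + 1) W, h2, h1]
        simp
      conv_lhs => rw [this]
      rw [List.append_assoc, ← this]
  obtain ⟨P, Q, hPQ⟩ := hsplit
  have h3 : IsReduced ([p] ++ [iv p]) := by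
    refine red_mid (P := P) (R := Q) hred ?_
    rw [hPQ]; simp
  rw [red_pair] at h3
  exact h3 rfl

/-- If the first letter changes then the point `1` is passed. -/
theorem cancel_point {y z : α × Bool} (hyz : y ≠ z) : ∀ (V : List (α × Bool)) (p : FreeGroup α),
    p ∈ C [y] → p * mk V ∈ C [z] → ∃ V1 V2, V = V1 ++ V2 ∧ p * mk V1 = 1 := by
  intro V
  induction V with
  | nil =>
    intro p h1 h2
    rw [← one_eq_mk, mul_one] at h2
    exact absurd (C_uniq h1 h2) hyz
  | cons s V ih =>
    intro p h1 h2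
    by_cases h3 : p * mk [s] ∈ C [y]
    · have e : s :: V = [s] ++ V := rfl
      rw [e, ← mul_mk, ← mul_assoc] at h2
      obtain ⟨V1, V2, h4, h5⟩ := ih _ h3 h2
      refine ⟨s :: V1, V2, by rw [h4]; rfl, ?_⟩
      have e2 : s :: V1 = [s] ++ V1 := rfl
      rw [e2, ← mul_mk, ← mul_assoc, h5]
    · refine ⟨[s], V, rfl, ?_⟩
      by_contra h4
      have h5 : s = iv y := by
        by_contra h5
        exact h3 (C_mul_right h1 h5)
      apply h3
      rw [C_iff_head] at h1 ⊢
      refine head_mul_letter h1 (Or.inl ?_)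
      by_contra hlen
      apply h4
      have h6 : p.toWord = [y] := by
        rcases hk2 : p.toWord with _ | ⟨a, v⟩
        · rw [hk2] at h1; simp at h1
        · rw [hk2] at h1 hlen
          simp only [List.head?_cons, Option.some.injEq] at h1
          rcases v with _ | ⟨b, v⟩
          · rw [h1]
          · simp at hlen
      rw [← mk_toWord (x := p), h6, h5, mk_iv, mul_inv_cancel]

theorem prefix_rep (hW0 : W ≠ []) : ∀ (n : ℕ) (V : List (α × Bool)), V <+: rep n W →
    ∃ j i, i < W.length ∧ V = rep j W ++ W.take i := by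
  intro n
  have hpos : 0 < W.length := List.length_pos_iff.2 hW0
  induction n with
  | zero =>
    intro V hV
    rw [rep_zero, List.prefix_nil] at hV
    exact ⟨0, 0, hpos, by rw [hV]; simp [rep_zero]⟩
  | succ n ih =>
    intro V hV
    rw [rep_succ] at hV
    rcases Nat.lt_or_ge V.length W.length with h | h
    · refine ⟨0, V.length, h, ?_⟩
      have h1 : V <+: W := List.prefix_of_prefix_length_le hV (List.prefix_append _ _) h.le
      rw [rep_zero, List.nil_append]
      exact List.prefix_iff_eq_take.1 h1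
    · have h1 : W <+: V := List.prefix_of_prefix_length_le (List.prefix_append _ _) hV h
      obtain ⟨V', rfl⟩ := h1
      rw [List.prefix_append_right_inj] at hV
      obtain ⟨j, i, h2, h3⟩ := ih V' hV
      exact ⟨j + 1, i, h2, by rw [h3, rep_succ, List.append_assoc]⟩

include hW in
/-- A line with ends in two directions at `1` passes through `1`. -/
theorem through {y z : α × Bool} (hyz : y ≠ z) {k : FreeGroup α}
    (h1 : bw (mk W) hv k ∈ D [y]) (h2 : fw (mk W) hv k ∈ D [z]) :
    ∃ i, W[i]? = some z ∧ W[prv W.length i]? = some (iv y) ∧ ∀ A : Set (Pt α), Clo A →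
      ((bw (mk W) hv k ∈ A ↔ bw (mk W) hv (kk W 1 i) ∈ A) ∧
      (fw (mk W) hv k ∈ A ↔ fw (mk W) hv (kk W 1 i) ∈ A)) := by
  have hW0 := W_ne hv
  obtain ⟨n, h3, h4⟩ := (h1.and h2).exists
  have e1 : (bw (mk W) hv k).at n * mk (rep (n + n) W) = (fw (mk W) hv k).at n := by
    simp only [Pt.at, bw, fw, mk_rep, pow_add]
    group
  obtain ⟨V1, V2, h5, h6⟩ := cancel_point hyz (rep (n + n) W) _ h3 (by rw [e1]; exact h4)
  obtain ⟨j, i, h7, h8⟩ := prefix_rep hW0 (n + n) V1 ⟨V2, h5.symm⟩
  have e2 : kk W 1 i * mk W ^ n = k * mk W ^ j := by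
    have h9 : k * (mk W ^ n)⁻¹ * (mk W ^ j * mk (W.take i)) = 1 := by
      rw [← mk_rep j, mul_mk, ← h8, ← h6]
      simp only [Pt.at, bw, inv_pow]
    have h10 : kk W 1 i = k * (mk W ^ n)⁻¹ * mk W ^ j := by
      unfold kk
      rw [one_mul, inv_eq_iff_mul_eq_one] 
      rw [← h9]
      have hc : k * (mk W ^ n)⁻¹ * (mk W ^ j * mk (W.take i)) = 1 := h9
      rw [hc]
      have h11 : (k * (mk W ^ n)⁻¹ * mk W ^ j) * mk (W.take i) = 1 := by
        rw [← hc]; group
      exact mul_eq_one_comm.1 h11
    rw [h10]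
    have : Commute ((mk W : FreeGroup α) ^ j) (mk W ^ n) := (Commute.refl _).pow_pow _ _
    rw [mul_assoc, this.eq]
    group
  have hshift : ∀ A : Set (Pt α), Clo A →
      ((bw (mk W) hv k ∈ A ↔ bw (mk W) hv (kk W 1 i) ∈ A) ∧
      (fw (mk W) hv k ∈ A ↔ fw (mk W) hv (kk W 1 i) ∈ A)) := by
    intro A hA
    constructor
    · rw [← bw_pow hA hv j k, ← e2, bw_pow hA hv]
    · rw [← fw_pow hA hv j k, ← e2, fw_pow hA hv]
  obtain ⟨q, hq⟩ : ∃ q, W[i]? = some q := ⟨W[i], List.getElem?_eq_getElem h7⟩
  obtain ⟨p, hp⟩ : ∃ p, W[prv W.length i]? = some p :=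
    ⟨W[prv W.length i]'(prv_lt h7), List.getElem?_eq_getElem (prv_lt h7)⟩
  obtain ⟨h9, h10⟩ := pos_dir hW hv hq hp
  rw [← (hshift _ (D_clo _)).1] at h9
  rw [← (hshift _ (D_clo _)).2] at h10
  have h11 := D_uniq h1 h9
  have h12 := D_uniq h2 h10
  refine ⟨i, by rw [hq, h12], by rw [hp, h11, iv_iv], hshift⟩

end Pool.Agent.Q98.Cut
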