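import Pool.Agent.Q98.Cut.Fix

/-!
# The closure process computes the existence of forward closed sets (2)
-/

set_option autoImplicit false

namespace Pool.Agent.Q98.Cut

open FreeGroup List
open Filter hiding mk
open Pool.Agent.Q98.Pos Pool.Agent.Q98.Block

variable {α : Type*} [DecidableEq α]

theorem AI.iInter {ι : Type*} [Finite ι] {U : ι → Set (FreeGroup α)} (hU : ∀ i, AI (U i)) :
    AI (⋂ i, U i) := by
  intro s
  have h1 : (⋃ i, {g : FreeGroup α | g ∈ U i ∧ g * mk [s] ∉ U i}).Finite :=
    Set.finite_iUnion fun i => hU i s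
  refine h1.subset ?_
  rintro g ⟨h2, h3⟩
  rw [Set.mem_iInter] at h2
  rw [Set.mem_iInter] at h3
  push Not at h3
  obtain ⟨i, hi⟩ := h3
  rw [Set.mem_iUnion]
  exact ⟨i, h2 i, hi⟩

theorem Clo.iInter {ι : Type*} [Finite ι] {A : ι → Set (Pt α)} (hA : ∀ i, Clo (A i)) :
    Clo (⋂ i, A i) := by
  choose U hU hAU using hA
  refine ⟨⋂ i, U i, AI.iInter hU, ?_⟩
  ext p
  rw [Set.mem_iInter]
  simp only [lim, Set.mem_iInter, Set.mem_ofPred_eq, eventually_all]
  refine forall_congr' fun i => ?_
  rw [hAU i]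
  rfl

/-- the clopen set which is equal to the translate of `B y` beyond the edge `y` -/
def glue (B : α × Bool → Set (Pt α)) : Set (Pt α) := {p | ∀ y, p ∈ D [y] → p ∈ sh (mk [y]) (B y)}

theorem mem_glue {B : α × Bool → Set (Pt α)} {p : Pt α} {y : α × Bool} (hy : p ∈ D [y]) :
    p ∈ glue B ↔ p ∈ sh (mk [y]) (B y) := by
  constructor
  · intro h; exact h y hy
  · intro h z hz
    rw [← D_uniq hy hz]; exact h

theorem glue_clo [Finite α] {B : α × Bool → Set (Pt α)} (hB : ∀ y, Clo (B y)) :
    Clo (glue B) := by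
  have h : glue B = ⋂ y, ((D [y])ᶜ ∪ sh (mk [y]) (B y)) := by
    ext p
    simp only [glue, Set.mem_ofPred_eq, Set.mem_iInter, Set.mem_union, Set.mem_compl_iff]
    refine forall_congr' fun y => ?_
    tauto
  rw [h]
  exact Clo.iInter fun y => (D_clo _).compl.union ((hB y).sh _)

variable {W : List (α × Bool)} (hW : IsCyclicallyReduced W) (hv : mk W ≠ (1 : FreeGroup α))

theorem child_fw {i : ℕ} {z : α × Bool} (hz : W[i]? = some z) {B : Set (Pt α)} (hB : Clo B) :
    fw (mk W) hv (kk W 1 i) ∈ sh (mk [z]) B ↔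
      fw (mk W) hv (kk W 1 (nxt W.length i)) ∈ B := by
  have h1 := kk_next hz (mk [z])⁻¹
  rw [inv_mul_cancel] at h1
  have h2 : fw (mk W) hv (kk W 1 i) ∈ sh (mk [z]) B ↔
      fw (mk W) hv (kk W (mk [z])⁻¹ i) ∈ B := by
    rw [mem_sh]
    simp only [fw, kk, one_mul]
  rw [h2]
  rcases h1 with h1 | h1
  · rw [h1]
  · rw [h1, fw_mul hB]

theorem child_bw {i : ℕ} (hi : i < W.length) {y : α × Bool}
    (hy : W[prv W.length i]? = some (iv y)) {B : Set (Pt α)} (hB : Clo B) :
    bw (mk W) hv (kk W 1 i) ∈ sh (mk [y]) B ↔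
      bw (mk W) hv (kk W 1 (prv W.length i)) ∈ B := by
  have h1 := kk_next hy (1 : FreeGroup α)
  rw [one_mul, nxt_prv hi] at h1
  have h2 : bw (mk W) hv (kk W 1 i) ∈ sh (mk [y]) B ↔
      bw (mk W) hv (kk W (mk [iv y]) i) ∈ B := by
    rw [mem_sh, mk_iv]
    simp only [bw, kk, one_mul]
  rw [h2]
  rcases h1 with h1 | h1
  · rw [h1]
  · rw [h1, bw_mul hB]

theorem cp_eq {t : α × Bool → List Bool} {i : ℕ} {z : α × Bool} (hz : W[i]? = some z) :
    cp W t i = (t z).getD (nxt W.length i) false := by
  unfold cp; rw [hz]; rfl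

theorem cm_eq {t : α × Bool → List Bool} {i : ℕ} {p : α × Bool}
    (hp : W[prv W.length i]? = some p) :
    cm W t i = (t (iv p)).getD (prv W.length i) false := by
  unfold cm; rw [hp]; rfl

/-- the set `A` realises the type `τ` of a cone with last letter `x` -/
structure Sem (W : List (α × Bool)) (hv : mk W ≠ (1 : FreeGroup α)) (x : α × Bool)
    (τ : List Bool) (A : Set (Pt α)) : Prop where
  fwd : ∀ k, bw (mk W) hv k ∉ D [iv x] → fw (mk W) hv k ∉ D [iv x] →
    bw (mk W) hv k ∈ A → fw (mk W) hv k ∈ A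
  pf : ∀ i, i < W.length → W[prv W.length i]? = some x →
    (τ.getD i false = true ↔ fw (mk W) hv (kk W 1 i) ∈ A)
  pb : ∀ i, i < W.length → W[i]? = some (iv x) →
    (τ.getD i false = true ↔ bw (mk W) hv (kk W 1 i) ∈ A)

/-- the colour of the forward end from the children -/
theorem glue_fw {t : α × Bool → List Bool} {B : α × Bool → Set (Pt α)} {i : ℕ} {z : α × Bool}
    (hz : W[i]? = some z) (hB : Clo (B z)) (hs : Sem W hv z (t z) (B z))
    (hd : fw (mk W) hv (kk W 1 i) ∈ D [z]) :
    cp W t i = true ↔ fw (mk W) hv (kk W 1 i) ∈ glue B := by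
  have hi : i < W.length := by
    rw [List.getElem?_eq_some_iff] at hz
    exact hz.1
  rw [cp_eq hz, mem_glue hd, child_fw hv hz hB]
  refine hs.pf _ (nxt_lt hi) ?_
  rw [prv_nxt hi]; exact hz

theorem glue_bw {t : α × Bool → List Bool} {B : α × Bool → Set (Pt α)} {i : ℕ}
    (hi : i < W.length) {y : α × Bool}
    (hy : W[prv W.length i]? = some (iv y)) (hB : Clo (B y)) (hs : Sem W hv y (t y) (B y))
    (hd : bw (mk W) hv (kk W 1 i) ∈ D [y]) :
    cm W t i = true ↔ bw (mk W) hv (kk W 1 i) ∈ glue B := by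
  rw [cm_eq hy, iv_iv, mem_glue hd, child_bw hv hi hy hB]
  exact hs.pb _ (prv_lt hi) hy

include hW in
theorem glue_fwd {t : α × Bool → List Bool} {B : α × Bool → Set (Pt α)} {Y : α × Bool → Prop}
    (hB : ∀ y, Clo (B y)) (hs : ∀ y, Y y → Sem W hv y (t y) (B y))
    (hc : ∀ i p q, W[i]? = some q → W[prv W.length i]? = some p → Y q → Y (iv p) →
      cm W t i = true → cp W t i = true) {k : FreeGroup α} {y z : α × Bool} (hy : Y y) (hz : Y z)
    (h1 : bw (mk W) hv k ∈ D [y]) (h2 : fw (mk W) hv k ∈ D [z])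
    (h3 : bw (mk W) hv k ∈ glue B) : fw (mk W) hv k ∈ glue B := by
  have hDy : ∀ p : Pt α, p ∈ D [y] → (⟨(mk [y])⁻¹ * p.g, p.h, p.ne⟩ : Pt α) ∉ D [iv y] := by
    intro p hp hp2
    have h4 : p ∈ sh (mk [y]) (D [iv y]) := hp2
    rw [sh_D_inv] at h4
    exact h4 hp
  by_cases hyz : y = z
  · subst hyz
    rw [mem_glue h1] at h3
    rw [mem_glue h2]
    exact (hs y hy).fwd ((mk [y])⁻¹ * k) (hDy _ h1) (hDy _ h2) h3
  · obtain ⟨i, h4, h5, h6⟩ := through hW hv hyz h1 h2
    have hi : i < W.length := by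
      rw [List.getElem?_eq_some_iff] at h4
      exact h4.1
    obtain ⟨d1, d2⟩ := pos_dir hW hv h4 h5
    rw [iv_iv] at d1
    -- `glue B` is perhaps not clopen: use the pieces
    rw [mem_glue h1] at h3
    rw [mem_glue h2]
    rw [(h6 _ ((hB y).sh _)).1, ← mem_glue (B := B) d1,
      ← glue_bw hv hi h5 (hB y) (hs y hy) d1] at h3
    rw [(h6 _ ((hB z).sh _)).2, ← mem_glue (B := B) d2,
      ← glue_fw hv h4 (hB z) (hs z hz) d2]
    exact hc i _ _ h4 h5 hz (by rw [iv_iv]; exact hy) h3

include hW in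
theorem Ach.sem [Finite α] {x : α × Bool} {τ : List Bool} (h : Ach W x τ) :
    ∃ A : Set (Pt α), Clo A ∧ Sem W hv x τ A := by
  classical
  induction h with
  | tt x =>
    refine ⟨Set.univ, Clo.univ, ⟨fun _ _ _ _ => trivial, ?_, ?_⟩⟩
    · intro i hi h
      rw [baseT, getD_map_range _ hi, if_pos h]
      simp
    · intro i hi h
      rw [baseT, getD_map_range _ hi]
      split_ifs <;> simp
  | ff x =>
    refine ⟨∅, by simpa using Clo.univ.compl, ⟨fun _ _ _ h => h, ?_, ?_⟩⟩
    · intro i hi h
      rw [baseF, getD_map_range _ hi]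
      simp
    · intro i hi h
      rw [baseF, getD_map_range _ hi]
      simp
  | node x t _ ht hc ih =>
    have hex : ∀ y, ∃ A : Set (Pt α), Clo A ∧ (y ≠ iv x → Sem W hv y (t y) A) := by
      intro y
      by_cases hy : y = iv x
      · exact ⟨Set.univ, Clo.univ, fun h => absurd hy h⟩
      · obtain ⟨A, h1, h2⟩ := ih y hy
        exact ⟨A, h1, fun _ => h2⟩
    choose B hB hs using hex
    refine ⟨glue B, glue_clo hB, ⟨?_, ?_, ?_⟩⟩
    · intro k h1 h2 h3
      obtain ⟨y, hy⟩ := D_exists (bw (mk W) hv k)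
      obtain ⟨z, hz⟩ := D_exists (fw (mk W) hv k)
      refine glue_fwd hW hv (t := t) (Y := fun y => y ≠ iv x) hB (fun y hy => hs y hy) ?_
        (y := y) (z := z) ?_ ?_ hy hz h3
      · intro i p q hq hp hYq hYp hcm
        have hi : i < W.length := by
          rw [List.getElem?_eq_some_iff] at hq
          exact hq.1
        refine hc i hi ?_ ?_ hcm
        · rw [hp]
          intro h4
          simp only [Option.some.injEq] at h4
          exact hYp (by rw [h4])
        · rw [hq]
          intro h4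
          simp only [Option.some.injEq] at h4
          exact hYq h4
      · rintro rfl; exact h1 hy
      · rintro rfl; exact h2 hz
    · intro i hi h
      obtain ⟨q, hq⟩ : ∃ q, W[i]? = some q := ⟨W[i], List.getElem?_eq_getElem hi⟩
      have hqx : q ≠ iv x := turn_ne hW hv hq h
      rw [outW, getD_map_range _ hi, if_pos h]
      exact glue_fw hv hq (hB q) (hs q hqx) (pos_dir hW hv hq h).2
    · intro i hi h
      obtain ⟨p, hp⟩ : ∃ p, W[prv W.length i]? = some p :=
        ⟨W[prv W.length i]'(prv_lt hi), List.getElem?_eq_getElem (prv_lt hi)⟩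
      have hpx : p ≠ x := by
        rintro rfl
        exact turn_ne hW hv h hp rfl
      rw [outW, getD_map_range _ hi, if_neg (by rw [hp]; simpa using hpx), if_pos h]
      have hp' : W[prv W.length i]? = some (iv (iv p)) := by rw [iv_iv]; exact hp
      refine glue_bw hv hi hp' (hB _) (hs _ (fun h2 => hpx (iv_inj h2))) ?_
      exact (pos_dir hW hv h hp).1

include hW in
/-- Soundness of the closure process. -/
theorem fc_of_root [Finite α] (h : ∃ t, (∀ y, Ach W y (t y)) ∧ RootOK W t) :
    ∃ A : Set (Pt α), FC (mk W) hv A := by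
  obtain ⟨t, ht, hr1, i, hi, hr2, hr3⟩ := h
  have hex : ∀ y, ∃ A : Set (Pt α), Clo A ∧ Sem W hv y (t y) A := fun y => (ht y).sem hW hv
  choose B hB hs using hex
  refine ⟨glue B, glue_clo hB, ?_, kk W 1 i, ?_, ?_⟩
  · intro k h3
    obtain ⟨y, hy⟩ := D_exists (bw (mk W) hv k)
    obtain ⟨z, hz⟩ := D_exists (fw (mk W) hv k)
    refine glue_fwd hW hv (t := t) (Y := fun _ => True) hB (fun y _ => hs y) ?_
      (y := y) (z := z) trivial trivial hy hz h3
    intro i p q hq hp _ _ hcm
    have hi : i < W.length := by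
      rw [List.getElem?_eq_some_iff] at hq
      exact hq.1
    exact hr1 i hi hcm
  · obtain ⟨q, hq⟩ : ∃ q, W[i]? = some q := ⟨W[i], List.getElem?_eq_getElem hi⟩
    obtain ⟨p, hp⟩ : ∃ p, W[prv W.length i]? = some p :=
      ⟨W[prv W.length i]'(prv_lt hi), List.getElem?_eq_getElem (prv_lt hi)⟩
    have hp' : W[prv W.length i]? = some (iv (iv p)) := by rw [iv_iv]; exact hp
    rw [← glue_bw hv hi hp' (hB _) (hs _) (pos_dir hW hv hq hp).1, hr2]
    simp
  · obtain ⟨q, hq⟩ : ∃ q, W[i]? = some q := ⟨W[i], List.getElem?_eq_getElem hi⟩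
    obtain ⟨p, hp⟩ : ∃ p, W[prv W.length i]? = some p :=
      ⟨W[prv W.length i]'(prv_lt hi), List.getElem?_eq_getElem (prv_lt hi)⟩
    rw [← glue_fw hv hq (hB _) (hs _) (pos_dir hW hv hq hp).2]
    exact hr3

/-! ### Completeness -/

open Classical in
/-- the type of `A` at the vertex `g` with last letter `x` -/
noncomputable def typ (W : List (α × Bool)) (hv : mk W ≠ (1 : FreeGroup α)) (A : Set (Pt α))
    (g : FreeGroup α) (x : α × Bool) : List Bool :=
  (List.range W.length).map (fun i => if W[prv W.length i]? = some x then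
      decide (fw (mk W) hv (kk W g i) ∈ A)
    else if W[i]? = some (iv x) then decide (bw (mk W) hv (kk W g i) ∈ A) else false)

open Classical in
theorem cp_typ {A : Set (Pt α)} (hA : Clo A) {t : α × Bool → List Bool} {g : FreeGroup α} {i : ℕ}
    {z : α × Bool} (hz : W[i]? = some z) (ht : t z = typ W hv A (g * mk [z]) z) :
    cp W t i = decide (fw (mk W) hv (kk W g i) ∈ A) := by
  have hi : i < W.length := by
    rw [List.getElem?_eq_some_iff] at hz
    exact hz.1
  rw [cp_eq hz, ht, typ, getD_map_range _ (nxt_lt hi), if_pos (by rw [prv_nxt hi]; exact hz)]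
  rw [decide_eq_decide]
  rcases kk_next hz g with h | h
  · rw [h]
  · rw [h, fw_mul hA]

include hW in
open Classical in
theorem cm_typ {A : Set (Pt α)} (hA : Clo A) {t : α × Bool → List Bool} {g : FreeGroup α} {i : ℕ}
    (hi : i < W.length) {p : α × Bool} (hp : W[prv W.length i]? = some p)
    (ht : t (iv p) = typ W hv A (g * mk [iv p]) (iv p)) :
    cm W t i = decide (bw (mk W) hv (kk W g i) ∈ A) := by
  obtain ⟨p', hp'⟩ : ∃ p', W[prv W.length (prv W.length i)]? = some p' :=
    ⟨W[prv W.length (prv W.length i)]'(prv_lt (prv_lt hi)),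
      List.getElem?_eq_getElem (prv_lt (prv_lt hi))⟩
  have hne : W[prv W.length (prv W.length i)]? ≠ some (iv p) := by
    rw [hp']
    intro h
    simp only [Option.some.injEq] at h
    apply turn_ne hW hv hp hp'
    rw [h, iv_iv]
  rw [cm_eq hp, ht, typ, getD_map_range _ (prv_lt hi), if_neg hne,
    if_pos (by rw [iv_iv]; exact hp)]
  rw [decide_eq_decide]
  have h := kk_next hp (g * mk [iv p])
  rw [nxt_prv hi] at h
  have e : g * mk [iv p] * mk [p] = g := by rw [mk_iv]; group
  rw [e] at h
  rcases h with h | h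
  · rw [h]
  · rw [h, bw_mul hA]

include hW in
theorem ach_typ [Finite α] {A : Set (Pt α)} (hA : Clo A)
    (hfwd : ∀ k, bw (mk W) hv k ∈ A → fw (mk W) hv k ∈ A) {R : ℕ}
    (hR : ∀ u : List (α × Bool), IsReduced u → R ≤ u.length → D u ⊆ A ∨ D u ⊆ Aᶜ) :
    ∀ (n : ℕ) (u : List (α × Bool)) (x : α × Bool), IsReduced (u ++ [x]) →
      R ≤ (u ++ [x]).length + n → Ach W x (typ W hv A (mk (u ++ [x])) x) := by
  classical
  intro n
  induction n with
  | zero =>
    intro u x hu hl
    -- forward ends
    have hf : ∀ i, i < W.length → W[prv W.length i]? = some x →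
        fw (mk W) hv (kk W (mk (u ++ [x])) i) ∈ D (u ++ [x]) := by
      intro i hi h
      obtain ⟨q, hq⟩ : ∃ q, W[i]? = some q := ⟨W[i], List.getElem?_eq_getElem hi⟩
      have h1 := (pos_dir hW hv hq h).2
      have hqx : q ≠ iv x := turn_ne hW hv hq h
      have h2 : fw (mk W) hv (kk W (mk (u ++ [x])) i) ∈ sh (mk (u ++ [x])) (D [q]) := by
        rw [mem_sh]
        convert h1 using 1
        ext
        · change (mk (u ++ [x]))⁻¹ * (mk (u ++ [x]) * (mk (W.take i))⁻¹) = 1 * (mk (W.take i))⁻¹
          rw [inv_mul_cancel_left, one_mul]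
        · rfl
      rw [sh_D (red_concat.2 ⟨hu, by
        intro a ha
        simp only [List.getLast?_append, List.getLast?_singleton, Option.some_or,
          Option.mem_def, Option.some.injEq] at ha
        rw [← ha]; exact hqx⟩)] at h2
      exact D_mono (List.prefix_append _ _) h2
    have hb : ∀ i, i < W.length → W[i]? = some (iv x) →
        bw (mk W) hv (kk W (mk (u ++ [x])) i) ∈ D (u ++ [x]) := by
      intro i hi h
      obtain ⟨p, hp⟩ : ∃ p, W[prv W.length i]? = some p :=
        ⟨W[prv W.length i]'(prv_lt hi), List.getElem?_eq_getElem (prv_lt hi)⟩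
      have hpx : p ≠ x := by
        rintro rfl
        exact turn_ne hW hv h hp rfl
      have h1 := (pos_dir hW hv h hp).1
      have h2 : bw (mk W) hv (kk W (mk (u ++ [x])) i) ∈ sh (mk (u ++ [x])) (D [iv p]) := by
        rw [mem_sh]
        convert h1 using 1
        ext
        · change (mk (u ++ [x]))⁻¹ * (mk (u ++ [x]) * (mk (W.take i))⁻¹) = 1 * (mk (W.take i))⁻¹
          rw [inv_mul_cancel_left, one_mul]
        · rfl
      rw [sh_D (red_concat.2 ⟨hu, by
        intro a ha
        simp only [List.getLast?_append, List.getLast?_singleton, Option.some_or,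
          Option.mem_def, Option.some.injEq] at ha
        rw [← ha]; exact fun h3 => hpx (iv_inj h3)⟩)] at h2
      exact D_mono (List.prefix_append _ _) h2
    rcases hR (u ++ [x]) hu (by simpa using hl) with h | h
    · have e : typ W hv A (mk (u ++ [x])) x = baseT W x := by
        unfold typ baseT
        apply List.map_congr_left
        intro i hi
        rw [List.mem_range] at hi
        split_ifs with h1 h2
        · simpa using h (hf i hi h1)
        · simpa using h (hb i hi h2)
        · rfl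
      rw [e]; exact Ach.tt x
    · have e : typ W hv A (mk (u ++ [x])) x = baseF W := by
        unfold typ baseF
        apply List.map_congr_left
        intro i hi
        rw [List.mem_range] at hi
        split_ifs with h1 h2
        · simpa using h (hf i hi h1)
        · simpa using h (hb i hi h2)
        · rfl
      rw [e]; exact Ach.ff x
  | succ n ih =>
    intro u x hu hl
    set g : FreeGroup α := mk (u ++ [x]) with hg
    let t : α × Bool → List Bool := fun y => if y = iv x then [] else typ W hv A (g * mk [y]) y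
    have htx : t (iv x) = [] := by simp [t]
    have hty : ∀ y, y ≠ iv x → t y = typ W hv A (g * mk [y]) y := by
      intro y hy; simp [t, hy]
    have hAch : ∀ y, y ≠ iv x → Ach W y (t y) := by
      intro y hy
      rw [hty y hy]
      have h1 : IsReduced ((u ++ [x]) ++ [y]) := by
        rw [red_concat]
        refine ⟨hu, ?_⟩
        intro a ha
        simp only [List.getLast?_append, List.getLast?_singleton, Option.some_or,
          Option.mem_def, Option.some.injEq] at ha
        rw [← ha]; exact hy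
      have h2 := ih (u ++ [x]) y h1 (by simp at hl ⊢; omega)
      have e : (mk ((u ++ [x]) ++ [y]) : FreeGroup α) = g * mk [y] := by
        rw [hg, mul_mk]
      rw [e] at h2
      exact h2
    have hcomp : compat W x t := by
      intro i hi h1 h2 hcm
      obtain ⟨q, hq⟩ : ∃ q, W[i]? = some q := ⟨W[i], List.getElem?_eq_getElem hi⟩
      obtain ⟨p, hp⟩ : ∃ p, W[prv W.length i]? = some p :=
        ⟨W[prv W.length i]'(prv_lt hi), List.getElem?_eq_getElem (prv_lt hi)⟩
      have hqx : q ≠ iv x := by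
        rintro rfl; exact h2 hq
      have hpx : iv p ≠ iv x := by
        intro h3
        rw [iv_inj h3] at hp
        exact h1 hp
      rw [cm_typ (t := t) hW hv hA hi hp (g := g) (hty _ hpx), decide_eq_true_eq] at hcm
      rw [cp_typ (t := t) hv hA hq (g := g) (hty _ hqx), decide_eq_true_eq]
      exact hfwd _ hcm
    have e : typ W hv A g x = outW W x t := by
      unfold outW
      conv_lhs => unfold typ
      apply List.map_congr_left
      intro i hi
      rw [List.mem_range] at hi
      obtain ⟨q, hq⟩ : ∃ q, W[i]? = some q := ⟨W[i], List.getElem?_eq_getElem hi⟩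
      obtain ⟨p, hp⟩ : ∃ p, W[prv W.length i]? = some p :=
        ⟨W[prv W.length i]'(prv_lt hi), List.getElem?_eq_getElem (prv_lt hi)⟩
      by_cases h1 : W[prv W.length i]? = some x
      · rw [if_pos h1, if_pos h1]
        exact (cp_typ (t := t) hv hA hq (g := g) (hty _ (turn_ne hW hv hq h1))).symm
      · rw [if_neg h1, if_neg h1]
        by_cases h2 : W[i]? = some (iv x)
        · rw [if_pos h2, if_pos h2]
          refine (cm_typ (t := t) hW hv hA hi hp (g := g) (hty _ ?_)).symm
          intro h3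
          rw [iv_inj h3] at hp
          exact h1 hp
        · rw [if_neg h2, if_neg h2]
    rw [e]
    exact Ach.node x t htx hAch hcomp

include hW in
/-- Completeness of the closure process. -/
theorem root_of_fc [Finite α] (h : ∃ A : Set (Pt α), FC (mk W) hv A) :
    ∃ t, (∀ y, Ach W y (t y)) ∧ RootOK W t := by
  classical
  obtain ⟨A0, hA0⟩ := h
  obtain ⟨g0, h1, h2⟩ := hA0.crs
  have hA := hA0.sh g0⁻¹
  set A := sh g0⁻¹ A0 with hAdef
  have e1 : bw (mk W) hv 1 ∉ A := by
    intro h3
    apply h1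
    rw [hAdef, mem_sh] at h3
    simpa [bw] using h3
  have e2 : fw (mk W) hv 1 ∈ A := by
    rw [hAdef, mem_sh]
    simpa [fw] using h2
  obtain ⟨R, hR⟩ := hA.clo.level
  let t : α × Bool → List Bool := fun y => typ W hv A (1 * mk [y]) y
  have hcm : ∀ i, i < W.length → cm W t i = decide (bw (mk W) hv (kk W 1 i) ∈ A) := by
    intro i hi
    obtain ⟨p, hp⟩ : ∃ p, W[prv W.length i]? = some p :=
      ⟨W[prv W.length i]'(prv_lt hi), List.getElem?_eq_getElem (prv_lt hi)⟩
    exact cm_typ hW hv hA.clo hi hp (g := 1) rfl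
  have hcp : ∀ i, i < W.length → cp W t i = decide (fw (mk W) hv (kk W 1 i) ∈ A) := by
    intro i hi
    obtain ⟨q, hq⟩ : ∃ q, W[i]? = some q := ⟨W[i], List.getElem?_eq_getElem hi⟩
    exact cp_typ hv hA.clo hq (g := 1) rfl
  refine ⟨t, ?_, ?_, 0, List.length_pos_iff.2 (W_ne hv), ?_, ?_⟩
  · intro y
    have h3 := ach_typ hW hv hA.clo hA.fwd hR R [] y IsReduced.singleton (by simp)
    have e : (mk ([] ++ [y]) : FreeGroup α) = 1 * mk [y] := by rw [one_mul]; rfl
    rw [e] at h3
    exact h3
  · intro i hi h3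
    rw [hcm i hi, decide_eq_true_eq] at h3
    rw [hcp i hi, decide_eq_true_eq]
    exact hA.fwd _ h3
  · rw [hcm 0 (List.length_pos_iff.2 (W_ne hv))]
    have e3 : kk W (1 : FreeGroup α) 0 = 1 := by
      unfold kk; rw [List.take_zero, ← one_eq_mk]; simp
    rw [e3]
    simpa using e1
  · rw [hcp 0 (List.length_pos_iff.2 (W_ne hv))]
    have e3 : kk W (1 : FreeGroup α) 0 = 1 := by
      unfold kk; rw [List.take_zero, ← one_eq_mk]; simp
    rw [e3]
    simpa using e2

end Pool.Agent.Q98.Cut
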