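import Mathlib

/-!
# A finite closure process
-/

set_option autoImplicit false

namespace Pool.Agent.Q98.Cut

/-- the inverse letter -/
def iv {α : Type*} (s : α × Bool) : α × Bool := (s.1, !s.2)

variable {α : Type*} [DecidableEq α]

/-- the next position -/
def nxt (m i : ℕ) : ℕ := if i + 1 < m then i + 1 else 0

/-- the previous position -/
def prv (m i : ℕ) : ℕ := if i = 0 then m - 1 else i - 1

/-- the colour of the forward end of the `i`-th line through a vertex with children `t` -/
def cp (W : List (α × Bool)) (t : α × Bool → List Bool) (i : ℕ) : Bool :=
  (W[i]?).elim false (fun y => (t y).getD (nxt W.length i) false)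

/-- the colour of the backward end of the `i`-th line through a vertex with children `t` -/
def cm (W : List (α × Bool)) (t : α × Bool → List Bool) (i : ℕ) : Bool :=
  (W[prv W.length i]?).elim false (fun y => (t (iv y)).getD (prv W.length i) false)

/-- the type of a vertex with last letter `x` and children `t` -/
def outW (W : List (α × Bool)) (x : α × Bool) (t : α × Bool → List Bool) : List Bool :=
  (List.range W.length).map (fun i => if W[prv W.length i]? = some x then cp W t i
    else if W[i]? = some (iv x) then cm W t i else false)

/-- the type of a monochromatic cone (`true`) -/
def baseT (W : List (α × Bool)) (x : α × Bool) : List Bool :=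
  (List.range W.length).map (fun i => if W[prv W.length i]? = some x then true
    else if W[i]? = some (iv x) then true else false)

/-- the type of a monochromatic cone (`false`) -/
def baseF (W : List (α × Bool)) : List Bool := (List.range W.length).map (fun _ => false)

/-- no line goes from `true` to `false` between different children -/
def compat (W : List (α × Bool)) (x : α × Bool) (t : α × Bool → List Bool) : Prop :=
  ∀ i < W.length, W[prv W.length i]? ≠ some x → W[i]? ≠ some (iv x) →
    cm W t i = true → cp W t i = true

/-- the types which are realised -/
inductive Ach (W : List (α × Bool)) : α × Bool → List Bool → Prop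
  | tt (x : α × Bool) : Ach W x (baseT W x)
  | ff (x : α × Bool) : Ach W x (baseF W)
  | node (x : α × Bool) (t : α × Bool → List Bool) : t (iv x) = [] →
      (∀ y, y ≠ iv x → Ach W y (t y)) → compat W x t → Ach W x (outW W x t)

/-- the condition at the root -/
def RootOK (W : List (α × Bool)) (t : α × Bool → List Bool) : Prop :=
  (∀ i < W.length, cm W t i = true → cp W t i = true) ∧
  ∃ i < W.length, cm W t i = false ∧ cp W t i = true

end Pool.Agent.Q98.Cut
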