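import Pool.Agent.Q98.Cut.White
import Pool.Agent.Q98.Cut.Count

/-!
# Forward closed clopen sets
-/

set_option autoImplicit false

namespace Pool.Agent.Q98.Cut

open FreeGroup List
open Filter hiding mk
open Pool.Agent.Q98.Pos Pool.Agent.Q98.Block

variable {α : Type*} [DecidableEq α]

/-- the forward end of a line -/
def fw (w : FreeGroup α) (hw : w ≠ 1) (g : FreeGroup α) : Pt α := ⟨g, w, hw⟩

/-- the backward end of a line -/
def bw (w : FreeGroup α) (hw : w ≠ 1) (g : FreeGroup α) : Pt α := ⟨g, w⁻¹, inv_ne_one.2 hw⟩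

/-- `A` is clopen, no translate of the axis of `w` goes from `A` to its complement, and some
translate of the axis of `w` goes from the complement to `A`. -/
structure FC (w : FreeGroup α) (hw : w ≠ 1) (A : Set (Pt α)) : Prop where
  clo : Clo A
  fwd : ∀ g, bw w hw g ∈ A → fw w hw g ∈ A
  crs : ∃ g, bw w hw g ∉ A ∧ fw w hw g ∈ A

theorem FC.sh {w : FreeGroup α} {hw : w ≠ 1} {A : Set (Pt α)} (h : FC w hw A)
    (k : FreeGroup α) : FC w hw (sh k A) := by
  refine ⟨h.clo.sh k, fun g => h.fwd (k⁻¹ * g), ?_⟩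
  obtain ⟨g, h1, h2⟩ := h.crs
  refine ⟨k * g, ?_, ?_⟩
  · change ¬ (bw w hw (k⁻¹ * (k * g)) ∈ A)
    rwa [inv_mul_cancel_left]
  · change fw w hw (k⁻¹ * (k * g)) ∈ A
    rwa [inv_mul_cancel_left]

theorem FC.im {w : FreeGroup α} {hw : w ≠ 1} {A : Set (Pt α)} (h : FC w hw A)
    (φ : FreeGroup α ≃* FreeGroup α) (hw' : φ w ≠ 1) : FC (φ w) hw' (im φ A) := by
  have e1 : ∀ g, fw (φ w) hw' (φ g) = (fw w hw g).map φ := fun g => rfl
  have e2 : ∀ g, bw (φ w) hw' (φ g) = (bw w hw g).map φ := by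
    intro g
    ext
    · rfl
    · simp [bw, Pt.map]
  refine ⟨h.clo.im φ, fun g => ?_, ?_⟩
  · obtain ⟨g, rfl⟩ := φ.surjective g
    rw [e1, e2, map_mem_im, map_mem_im]
    exact h.fwd g
  · obtain ⟨g, h1, h2⟩ := h.crs
    refine ⟨φ g, ?_, ?_⟩
    · rw [e2, map_mem_im]; exact h1
    · rw [e1, map_mem_im]; exact h2

theorem FC.corners {w : FreeGroup α} {hw : w ≠ 1} {A B : Set (Pt α)} (hA : FC w hw A)
    (hB : FC w hw B) : ∃ P Q, Corners A B P Q ∧ FC w hw P ∧ FC w hw Q := by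
  by_cases h1 : ∃ g, bw w hw g ∉ A ∩ B ∧ fw w hw g ∈ A ∩ B
  · by_cases h2 : ∃ g, bw w hw g ∉ A ∪ B ∧ fw w hw g ∈ A ∪ B
    · refine ⟨A ∩ B, A ∪ B, Or.inl ⟨rfl, rfl⟩, ⟨hA.clo.inter hB.clo, ?_, h1⟩,
        ⟨hA.clo.union hB.clo, ?_, h2⟩⟩
      · rintro g ⟨h3, h4⟩
        exact ⟨hA.fwd g h3, hB.fwd g h4⟩
      · rintro g (h3 | h3)
        · exact Or.inl (hA.fwd g h3)
        · exact Or.inr (hB.fwd g h3)
    · push Not at h2
      have key : ∀ {A B : Set (Pt α)}, FC w hw A → FC w hw B →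
          (∀ g, bw w hw g ∉ A ∪ B → fw w hw g ∉ A ∪ B) → FC w hw (A ∪ Bᶜ) := by
        intro A B hA hB h2
        refine ⟨hA.clo.union hB.clo.compl, ?_, ?_⟩
        · intro g h3
          by_cases h4 : bw w hw g ∈ A
          · exact Or.inl (hA.fwd g h4)
          · rcases h3 with h3 | h3
            · exact absurd h3 h4
            · right
              intro h5
              refine h2 g ?_ (Or.inr h5)
              rintro (h6 | h6)
              · exact h4 h6
              · exact h3 h6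
        · obtain ⟨g, h3, h4⟩ := hA.crs
          refine ⟨g, ?_, Or.inl h4⟩
          rintro (h5 | h5)
          · exact h3 h5
          · refine h2 g ?_ (Or.inl h4)
            rintro (h6 | h6)
            · exact h3 h6
            · exact h5 h6
      refine ⟨A ∪ Bᶜ, B ∪ Aᶜ, Or.inr (Or.inr ⟨rfl, rfl⟩), key hA hB h2, key hB hA ?_⟩
      rw [Set.union_comm]; exact h2
  · push Not at h1
    have key : ∀ {A B : Set (Pt α)}, FC w hw A → FC w hw B →
        (∀ g, bw w hw g ∉ A ∩ B → fw w hw g ∉ A ∩ B) → FC w hw (A ∩ Bᶜ) := by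
      intro A B hA hB h2
      refine ⟨hA.clo.inter hB.clo.compl, ?_, ?_⟩
      · rintro g ⟨h3, h4⟩
        refine ⟨hA.fwd g h3, fun h5 => h2 g ?_ ⟨hA.fwd g h3, h5⟩⟩
        exact fun h6 => h4 h6.2
      · obtain ⟨g, h3, h4⟩ := hA.crs
        refine ⟨g, fun h5 => h3 h5.1, h4, fun h5 => ?_⟩
        exact h2 g (fun h6 => h3 h6.1) ⟨h4, h5⟩
    refine ⟨A ∩ Bᶜ, B ∩ Aᶜ, Or.inr (Or.inl ⟨rfl, rfl⟩), key hA hB h1, key hB hA ?_⟩
    rw [Set.inter_comm]; exact h1

theorem FC.conj {v c : FreeGroup α} {hv : v ≠ 1} {hw : c * v * c⁻¹ ≠ 1} {A : Set (Pt α)}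
    (h : FC (c * v * c⁻¹) hw A) : FC v hv A := by
  have e1 : ∀ g, fw (c * v * c⁻¹) hw g ∈ A ↔ fw v hv (g * c) ∈ A := fun g =>
    h.clo.conj g c v hv hw
  have e2 : ∀ g, bw (c * v * c⁻¹) hw g ∈ A ↔ bw v hv (g * c) ∈ A := by
    intro g
    have h1 : c * v⁻¹ * c⁻¹ ≠ 1 := by
      intro h2
      apply hw
      have : (c * v * c⁻¹)⁻¹ = 1 := by rw [← h2]; group
      rwa [inv_eq_one] at this
    have := h.clo.conj g c v⁻¹ (inv_ne_one.2 hv) h1
    refine Iff.trans (Eq.to_iff ?_) this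
    congr 1
    ext
    · rfl
    · simp [bw, mul_assoc]
  refine ⟨h.clo, fun g h1 => ?_, ?_⟩
  · have h2 := (e2 (g * c⁻¹)).2 (by rwa [inv_mul_cancel_right])
    have h3 := (e1 (g * c⁻¹)).1 (h.fwd _ h2)
    rwa [inv_mul_cancel_right] at h3
  · obtain ⟨g, h1, h2⟩ := h.crs
    exact ⟨g * c, fun h3 => h1 ((e2 g).2 h3), (e1 g).1 h2⟩

/-- The leaf lemma. -/
theorem leaf [Finite α] {A : Set (Pt α)} (hA : Clo A) (h1 : ∃ p, p ∈ A) (h2 : ∃ p, p ∉ A) :
    (∃ g : FreeGroup α, ∀ s, Mono (sh g (D [s])) A) ∨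
    (∃ (g : FreeGroup α) (s0 : α × Bool), Cross (sh g (D [s0])) A ∧
      ∀ s, s ≠ s0 → Mono (sh g (D [s])) A) := by
  obtain ⟨R, hR⟩ := hA.level
  let X : Set (List (α × Bool)) := {u | IsReduced u ∧ ¬ Mono (D u) A}
  have hX : X.Nonempty := by
    refine ⟨[], IsReduced.nil, ?_⟩
    rw [D_nil]
    obtain ⟨p, hp⟩ := h1
    obtain ⟨q, hq⟩ := h2
    rintro (h | h)
    · exact hq (h (Set.mem_univ q))
    · exact h (Set.mem_univ p) hp
  have hb : ∀ u ∈ X, u.length < R := by
    intro u hu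
    by_contra h
    exact hu.2 (hR u hu.1 (not_lt.1 h))
  obtain ⟨u, hu, hmax⟩ := WellFounded.has_min
    (measure (fun u : List (α × Bool) => R - u.length)).wf X hX
  have hmax' : ∀ v, IsReduced v → u.length < v.length → Mono (D v) A := by
    intro v hv hl
    by_contra h
    refine hmax v ⟨hv, h⟩ ?_
    have := hb u hu
    change R - v.length < R - u.length
    omega
  have hgood : ∀ s, IsReduced (u ++ [s]) → Mono (sh (mk u) (D [s])) A := by
    intro s hs
    rw [sh_D hs]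
    exact hmax' _ hs (by simp)
  by_cases hall : ∀ s, Mono (sh (mk u) (D [s])) A
  · exact Or.inl ⟨mk u, hall⟩
  · right
    push Not at hall
    obtain ⟨s0, hs0⟩ := hall
    have hnr : ¬ IsReduced (u ++ [s0]) := fun h => hs0 (hgood s0 h)
    have h3 : ∃ a ∈ u.getLast?, s0 = iv a := by
      by_contra h3
      push Not at h3
      exact hnr (red_concat.2 ⟨hu.1, h3⟩)
    obtain ⟨a, ha, rfl⟩ := h3
    obtain ⟨v, rfl⟩ : ∃ v, u = v ++ [a] := by
      have hne : u ≠ [] := by
        rintro rfl; simp at ha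
      have := List.dropLast_append_getLast hne
      rw [List.getLast?_eq_some_getLast hne] at ha
      simp only [Option.mem_def, Option.some.injEq] at ha
      rw [ha] at this
      exact ⟨_, this.symm⟩
    refine ⟨mk (v ++ [a]), iv a, ?_, ?_⟩
    · rw [sh_D_inv' hu.1] at hs0 ⊢
      rw [cross_compl_left]
      exact ⟨hu.2, hs0⟩
    · intro s hs
      apply hgood
      rw [red_concat]
      refine ⟨hu.1, ?_⟩
      intro b hb
      simp only [List.getLast?_append, List.getLast?_singleton, Option.some_or,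
        Option.mem_def, Option.some.injEq] at hb
      subst hb
      exact hs

theorem cross_im {φ : FreeGroup α ≃* FreeGroup α} {B A : Set (Pt α)} :
    Cross (im φ B) (im φ A) ↔ Cross B A := by
  unfold Cross Mono
  rw [← im_compl, ← im_compl]
  simp only [im_subset]

/-- The Whitehead move. -/
theorem step [Finite α] {A : Set (Pt α)} (hA : Clo A) (hn : ∀ k, ¬ Cross A (sh k A))
    {a : α × Bool} (hc : Cross (D [iv a]) A) (hm : ∀ s, s ≠ iv a → Mono (D [s]) A)
    (haA : D [a] ⊆ A) :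
    ∃ φ : FreeGroup α ≃* FreeGroup α, (J (im φ A)).ncard < (J A).ncard := by
  classical
  set Cs : Set (α × Bool) := {t | t ≠ iv a ∧ D [t] ⊆ A} with hCs
  have ha : a ∈ Cs := ⟨fun h => iv_ne a h.symm, haA⟩
  have hiv : iv a ∉ Cs := fun h => h.1 rfl
  have hDA : DD Cs ⊆ A := by
    intro p hp
    obtain ⟨t, ht, h⟩ := mem_DD.1 hp
    exact ht.2 h
  have hDia : DD Cs ⊆ (D [iv a])ᶜ := by
    intro p hp hp2
    obtain ⟨t, ht, h⟩ := mem_DD.1 hp
    exact ht.1 (D_uniq h hp2)
  have key : ∀ g, Cross (sh g (DD Cs)) A → Cross (sh g (D [iv a])) A := by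
    intro g hg
    set V := sh g⁻¹ A with hV
    have e : A = sh g V := by rw [hV, sh_sh, mul_inv_cancel, sh_one]
    rw [e, cross_sh] at hg ⊢
    by_contra hno
    apply hn g⁻¹
    rw [← hV]
    rw [cross_iff] at hg hc
    obtain ⟨g1, g2, g3, g4⟩ := hg
    obtain ⟨c1, c2, c3, c4⟩ := hc
    have hmono : Mono (D [iv a]) V := by
      by_contra h1
      apply hno
      refine ⟨h1, fun h2 => ?_⟩
      rcases h2 with h2 | h2
      · obtain ⟨x, hx1, hx2⟩ := g3
        exact hx1 (h2 (hDia hx2))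
      · obtain ⟨x, hx1, hx2⟩ := g1
        exact h2 (hDia hx2) hx1
    have hout : ∀ p, p ∉ DD Cs → p ∉ D [iv a] → p ∉ A := by
      intro p hp1 hp2 hp3
      obtain ⟨s, hs⟩ := D_exists p
      have h1 : s ≠ iv a := fun h => hp2 (h ▸ hs)
      rcases hm s h1 with h2 | h2
      · exact hp1 (mem_DD.2 ⟨s, ⟨h1, h2⟩, hs⟩)
      · exact h2 hs hp3
    rw [cross_iff]
    rcases hmono with h1 | h1
    · obtain ⟨x1, hx1⟩ := c1
      obtain ⟨x3, hx3⟩ := c3
      obtain ⟨y3, hy3⟩ := g3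
      obtain ⟨y4, hy4⟩ := g4
      refine ⟨⟨x1, h1 hx1.2, hx1.1⟩, ⟨x3, h1 hx3.2, hx3.1⟩, ⟨y3, hy3.1, hDA hy3.2⟩,
        ⟨y4, hy4.1, hout y4 hy4.2 (fun h => hy4.1 (h1 h))⟩⟩
    · obtain ⟨x1, hx1⟩ := c1
      obtain ⟨x3, hx3⟩ := c3
      obtain ⟨y1, hy1⟩ := g1
      obtain ⟨y2, hy2⟩ := g2
      refine ⟨⟨y1, hy1.1, hDA hy1.2⟩, ⟨y2, hy2.1, hout y2 hy2.2 (fun h => h1 h hy2.1)⟩,
        ⟨x1, h1 hx1.2, hx1.1⟩, ⟨x3, h1 hx3.2, hx3.1⟩⟩
  refine ⟨(wh a Cs).symm, ?_⟩
  set τ := wh a Cs with hτ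
  have hJ : ∀ e, e ∈ J (im τ.symm A) ↔ Cross (sh (τ e.1) (im τ (D [e.2]))) A := by
    intro e
    simp only [J, Set.mem_ofPred_eq]
    rw [← cross_im (φ := τ), im_symm, im_sh]
  -- the injection
  let f : FreeGroup α × (α × Bool) → FreeGroup α × (α × Bool) := fun e =>
    if e.2 = a then (τ e.1 * mk [a], iv a)
    else if e.2 = iv a then (τ e.1 * (mk [a])⁻¹, a)
    else if e.2 ∈ Cs then (τ e.1, e.2)
    else (τ e.1 * mk [a], e.2)
  have hfs : ∀ e, (f e).2 = if e.2 = a then iv a else if e.2 = iv a then a else e.2 := by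
    intro e
    simp only [f]
    split_ifs <;> rfl
  have hfi : Function.Injective f := by
    rintro ⟨g, s⟩ ⟨h, t⟩ hgh
    have h1 := congrArg Prod.snd hgh
    rw [hfs, hfs] at h1
    have h2 : s = t := by
      simp only at h1
      have hia := iv_ne a
      split_ifs at h1 with h3 h4 h5 h6 h7 h8 h9
      · rw [h3, h4]
      · exact absurd h1 hia
      · exact absurd h1.symm h5
      · exact absurd h1.symm hia
      · rw [h6, h8]
      · exact absurd h1.symm h7
      · exact absurd h1 h6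
      · exact absurd h1 h3
      · exact h1
    subst h2
    have h3 := congrArg Prod.fst hgh
    simp only [f] at h3
    refine Prod.ext ?_ rfl
    apply τ.injective
    split_ifs at h3 <;> simpa using h3
  have hfm : ∀ e ∈ J (im τ.symm A), f e ∈ J A \ {(1, iv a)} := by
    rintro ⟨g, s⟩ he
    rw [hJ] at he
    simp only at he
    by_cases h1 : s = a
    · subst h1
      rw [im_D_a ha hiv, sh_sh] at he
      have e1 : f (g, s) = (τ g * mk [s], iv s) := by simp [f]
      rw [e1]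
      refine ⟨key _ he, ?_⟩
      rw [Set.mem_singleton_iff, Prod.mk.injEq]
      rintro ⟨h2, _⟩
      rw [h2, sh_one] at he
      exact he.1 (Or.inl hDA)
    · by_cases h2 : s = iv a
      · subst h2
        rw [im_D_ia ha hiv, sh_compl, cross_compl_left] at he
        have h3 := key _ he
        have e1 : f (g, iv a) = (τ g * (mk [a])⁻¹, a) := by simp [f, iv_ne a]
        rw [e1]
        refine ⟨?_, ?_⟩
        · rw [D_inv_eq, sh_compl, cross_compl_left, sh_sh] at h3
          exact h3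
        · rw [Set.mem_singleton_iff, Prod.mk.injEq]
          rintro ⟨_, h4⟩
          exact iv_ne a h4.symm
      · by_cases h3 : s ∈ Cs
        · rw [im_D_in ha hiv h3 h1] at he
          have e1 : f (g, s) = (τ g, s) := by simp [f, h1, h2, h3]
          rw [e1]
          refine ⟨he, ?_⟩
          rw [Set.mem_singleton_iff, Prod.mk.injEq]
          rintro ⟨_, h4⟩
          exact h2 h4
        · rw [im_D_out ha hiv h3 h2, sh_sh] at he
          have e1 : f (g, s) = (τ g * mk [a], s) := by simp [f, h1, h2, h3]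
          rw [e1]
          refine ⟨he, ?_⟩
          rw [Set.mem_singleton_iff, Prod.mk.injEq]
          rintro ⟨_, h4⟩
          exact h2 h4
  have h1A : ((1 : FreeGroup α), iv a) ∈ J A := by
    simp only [J, Set.mem_ofPred_eq, sh_one]
    exact hc
  calc (J (im τ.symm A)).ncard = (f '' J (im τ.symm A)).ncard :=
        (Set.ncard_image_of_injective _ hfi).symm
    _ ≤ (J A \ {(1, iv a)}).ncard := by
        refine Set.ncard_le_ncard ?_ ((J_finite hA).subset Set.sdiff_subset)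
        rintro _ ⟨e, he, rfl⟩
        exact hfm e he
    _ < (J A).ncard := Set.ncard_sdiff_singleton_lt_of_mem h1A (J_finite hA)

end Pool.Agent.Q98.Cut
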