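import Pool.Agent.Q98.Cut.Ends
import Pool.Agent.Q98.Cut.FixDefs

/-!
# The tree structure of the set of ends
-/

set_option autoImplicit false

namespace Pool.Agent.Q98.Cut

open FreeGroup List
open Filter hiding mk
open Pool.Agent.Q98.Pos Pool.Agent.Q98.Block

variable {α : Type*} [DecidableEq α]


theorem iv_iv (s : α × Bool) : iv (iv s) = s := by simp [iv]

theorem iv_ne (s : α × Bool) : iv s ≠ s := by
  intro h
  have := congrArg Prod.snd h
  simp [iv] at this

theorem iv_inj {s t : α × Bool} (h : iv s = iv t) : s = t := by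
  rw [← iv_iv s, h, iv_iv]

theorem mk_iv (s : α × Bool) : (mk [iv s] : FreeGroup α) = (mk [s])⁻¹ := by
  rw [inv_mk]; simp [invRev, iv]

theorem red_concat {u : List (α × Bool)} {s : α × Bool} :
    IsReduced (u ++ [s]) ↔ IsReduced u ∧ ∀ a ∈ u.getLast?, s ≠ iv a := by
  rw [reduced_append]
  constructor
  · rintro ⟨h1, _, h3⟩
    refine ⟨h1, fun a ha h => ?_⟩
    have := h3 a ha s (by simp)
    rw [h] at this
    simp [iv] at this
  · rintro ⟨h1, h2⟩
    refine ⟨h1, IsReduced.singleton, ?_⟩
    intro a ha b hb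
    simp only [List.head?_cons, Option.mem_def, Option.some.injEq] at hb
    subst hb
    intro h
    by_contra h3
    apply h2 a ha
    refine Prod.ext h.symm ?_
    simp only [iv]
    revert h3
    cases a.2 <;> cases s.2 <;> simp

theorem red_pair {s t : α × Bool} : IsReduced ([s] ++ [t]) ↔ t ≠ iv s := by
  rw [red_concat]
  constructor
  · intro h
    exact h.2 s (by simp)
  · intro h
    refine ⟨IsReduced.singleton, ?_⟩
    intro a ha
    simp only [List.getLast?_singleton, Option.mem_def, Option.some.injEq] at ha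
    rw [← ha]; exact h

theorem toWord_red (k : FreeGroup α) : IsReduced k.toWord := isReduced_toWord

theorem D_empty {u : List (α × Bool)} (hu : ¬ IsReduced u) : D u = ∅ := by
  ext p
  simp only [D, lim, Set.mem_ofPred_eq, Set.mem_empty_iff_false, iff_false]
  intro h
  obtain ⟨n, hn⟩ := h.exists
  obtain ⟨v, hv⟩ := hn
  apply hu
  refine red_mid (P := []) (R := v) (toWord_red (p.at n)) ?_
  simpa using hv

theorem D_cover [Finite α] {u : List (α × Bool)} {p : Pt α} (hp : p ∈ D u) :
    ∃ s, p ∈ D (u ++ [s]) := by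
  by_contra hno
  push Not at hno
  have h1 : ∀ s, ∀ᶠ n in atTop, p.at n ∉ C (u ++ [s]) := by
    intro s
    rcases (C_ai (u ++ [s])).ev p with h | h
    · exact absurd h (hno s)
    · exact h
  have h2 : ∀ᶠ n in atTop, ∀ s, p.at n ∉ C (u ++ [s]) := eventually_all.2 h1
  have h3 : ∀ᶠ n in atTop, p.at n = mk u := by
    filter_upwards [h2, hp] with n hn hn2
    obtain ⟨v, hv⟩ := hn2
    rcases v with _ | ⟨s, v⟩
    · rw [← mk_toWord (x := p.at n), ← hv]; simp
    · exfalso
      apply hn s
      refine ⟨v, ?_⟩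
      rw [← hv]; simp
  obtain ⟨N, hN⟩ := h3.exists_forall_of_atTop
  have h4 : p.at N = p.at (N + 1) := by rw [hN N le_rfl, hN (N + 1) (by omega)]
  have := p.inj h4
  omega

theorem D_cover_red [Finite α] {u : List (α × Bool)} {p : Pt α} (hp : p ∈ D u) :
    ∃ s, IsReduced (u ++ [s]) ∧ p ∈ D (u ++ [s]) := by
  obtain ⟨s, hs⟩ := D_cover hp
  refine ⟨s, ?_, hs⟩
  by_contra h
  rw [D_empty h] at hs
  exact hs

/-- Every end lies beyond a reduced path of any given length. -/
theorem exists_level [Finite α] (p : Pt α) (R : ℕ) :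
    ∃ u : List (α × Bool), u.length = R ∧ IsReduced u ∧ p ∈ D u := by
  induction R with
  | zero => exact ⟨[], rfl, IsReduced.nil, by rw [D_nil]; trivial⟩
  | succ R ih =>
    obtain ⟨u, h1, _, h3⟩ := ih
    obtain ⟨s, h4, h5⟩ := D_cover_red h3
    exact ⟨u ++ [s], by simp [h1], h4, h5⟩

theorem exists_level_ext [Finite α] {p : Pt α} {u : List (α × Bool)} (hp : p ∈ D u) (R : ℕ)
    (hR : u.length ≤ R) :
    ∃ v : List (α × Bool), (u ++ v).length = R ∧ IsReduced (u ++ v) ∧ p ∈ D (u ++ v) := by
  obtain ⟨w, h1, h2, h3⟩ := exists_level p R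
  obtain ⟨n, h4, h5⟩ := (hp.and h3).exists
  have h6 : u <+: w := List.prefix_of_prefix_length_le h4 h5 (by omega)
  obtain ⟨v, rfl⟩ := h6
  exact ⟨v, h1, h2, h3⟩

/-- left multiplication by a reduced word -/
theorem toWord_mul_red {u : List (α × Bool)} {k : FreeGroup α} (h : IsReduced (u ++ k.toWord)) :
    (mk u * k).toWord = u ++ k.toWord := by
  conv_lhs => rw [← mk_toWord (x := k), mul_mk]
  exact toWord_mk_red h

theorem sh_D {u : List (α × Bool)} {s : α × Bool} (hu : IsReduced (u ++ [s])) :
    sh (mk u) (D [s]) = D (u ++ [s]) := by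
  rw [D, sh_lim, D]
  congr 1
  ext g
  simp only [C, Set.mem_ofPred_eq]
  constructor
  · rintro ⟨v, hv⟩
    have h1 : IsReduced (u ++ ((mk u)⁻¹ * g).toWord) := by
      rw [← hv, ← List.append_assoc]
      refine IsReduced.append_overlap hu ?_ (by simp)
      rw [hv]; exact toWord_red _
    have h2 := toWord_mul_red h1
    rw [mul_inv_cancel_left] at h2
    rw [h2, ← hv]
    exact ⟨v, by simp⟩
  · rintro ⟨v, hv⟩
    have h1 : g = mk u * mk ([s] ++ v) := by
      rw [mul_mk, ← List.append_assoc, hv, mk_toWord]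
    rw [h1, inv_mul_cancel_left]
    have h2 : IsReduced ([s] ++ v) := by
      refine red_mid (P := u) (R := []) (toWord_red g) ?_
      rw [← hv]; simp
    rw [toWord_mk_red h2]
    exact ⟨v, rfl⟩

theorem C_inv (s : α × Bool) : {g : FreeGroup α | (mk [s])⁻¹ * g ∈ C [iv s]} = (C [s])ᶜ := by
  ext g
  simp only [C, Set.mem_ofPred_eq, Set.mem_compl_iff]
  constructor
  · rintro ⟨v, hv⟩ ⟨w, hw⟩
    have h1 : g = mk [s] * mk w := by rw [mul_mk, hw, mk_toWord]
    rw [h1, inv_mul_cancel_left] at hv
    have h2 : IsReduced w := by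
      refine red_mid (P := [s]) (R := []) (toWord_red g) ?_
      rw [← hw]; simp
    rw [toWord_mk_red h2] at hv
    have h3 : IsReduced ([s] ++ [iv s]) := by
      refine red_mid (P := []) (R := v) (toWord_red g) ?_
      rw [← hw, ← hv]; simp
    rw [red_pair] at h3
    exact h3 rfl
  · intro h
    have h1 : IsReduced ([iv s] ++ g.toWord) := by
      rw [reduced_append]
      refine ⟨IsReduced.singleton, toWord_red _, ?_⟩
      intro a ha b hb
      simp only [List.getLast?_singleton, Option.mem_def, Option.some.injEq] at ha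
      subst ha
      intro h2
      by_contra h3
      apply h
      have h4 : b = s := by
        refine Prod.ext h2.symm ?_
        simp only [iv] at h3
        revert h3
        cases b.2 <;> cases s.2 <;> simp
      subst h4
      cases hg : g.toWord with
      | nil => rw [hg] at hb; simp at hb
      | cons c w =>
        rw [hg] at hb
        simp only [List.head?_cons, Option.mem_def, Option.some.injEq] at hb
        subst hb
        exact ⟨w, rfl⟩
    have h2 := toWord_mul_red h1
    rw [mk_iv] at h2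
    rw [h2]
    exact List.prefix_append _ _

theorem sh_D_inv (s : α × Bool) : sh (mk [s]) (D [iv s]) = (D [s])ᶜ := by
  rw [D, sh_lim, C_inv, lim_compl (C_ai _)]
  rfl

theorem sh_D_inv' {u : List (α × Bool)} {s : α × Bool} (hu : IsReduced (u ++ [s])) :
    sh (mk (u ++ [s])) (D [iv s]) = (D (u ++ [s]))ᶜ := by
  rw [← mul_mk, ← sh_sh, sh_D_inv, sh_compl, sh_D hu]

theorem D_inv_eq (s : α × Bool) : D [iv s] = (sh ((mk [s])⁻¹) (D [s]))ᶜ := by
  have h := sh_D_inv s
  have h2 : sh ((mk [s])⁻¹) (sh (mk [s]) (D [iv s])) = D [iv s] := by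
    rw [sh_sh, inv_mul_cancel, sh_one]
  rw [← h2, h, sh_compl]

theorem D_single_nonempty (s : α × Bool) : (D [s]).Nonempty := by
  have : IsReduced ([] ++ [s]) := IsReduced.singleton
  exact D_nonempty this

/-- Clopen sets are unions of cones of a fixed length. -/
theorem Clo.level [Finite α] {A : Set (Pt α)} (hA : Clo A) :
    ∃ R, ∀ u : List (α × Bool), IsReduced u → R ≤ u.length → D u ⊆ A ∨ D u ⊆ Aᶜ := by
  obtain ⟨U, hU, rfl⟩ := hA
  have hfin : (⋃ s : α × Bool, ({g : FreeGroup α | g ∈ U ∧ g * mk [s] ∉ U} ∪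
      {g : FreeGroup α | g ∈ Uᶜ ∧ g * mk [s] ∉ Uᶜ})).Finite :=
    Set.finite_iUnion fun s => (hU s).union (hU.compl s)
  obtain ⟨N, hN⟩ := (hfin.image FreeGroup.norm).bddAbove
  refine ⟨N + 1, fun u hu hl => ?_⟩
  have key : ∀ v, IsReduced (u ++ v) → (mk (u ++ v) ∈ U ↔ mk u ∈ U) := by
    intro v
    induction v using List.reverseRecOn with
    | nil => intro _; simp
    | append_singleton v s ih =>
      intro h
      rw [← List.append_assoc] at h ⊢
      have h1 : IsReduced (u ++ v) := (red_concat.1 h).1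
      rw [← ih h1, ← mul_mk]
      by_contra hne
      have h2 : mk (u ++ v) ∈ (⋃ s : α × Bool, ({g : FreeGroup α | g ∈ U ∧ g * mk [s] ∉ U} ∪
          {g : FreeGroup α | g ∈ Uᶜ ∧ g * mk [s] ∉ Uᶜ})) := by
        rw [Set.mem_iUnion]
        refine ⟨s, ?_⟩
        simp only [Set.mem_union, Set.mem_ofPred_eq, Set.mem_compl_iff, not_not]
        tauto
      have h3 := hN (Set.mem_image_of_mem _ h2)
      unfold FreeGroup.norm at h3
      rw [toWord_mk_red h1] at h3
      simp at h3
      omega
  by_cases h : mk u ∈ U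
  · left
    refine lim_of_finite ?_
    convert Set.finite_empty
    rw [Set.sdiff_eq_empty]
    rintro g ⟨v, hv⟩
    rw [← mk_toWord (x := g), ← hv, key v (by rw [hv]; exact toWord_red g)]
    exact h
  · right
    rw [← lim_compl hU]
    refine lim_of_finite ?_
    convert Set.finite_empty
    rw [Set.sdiff_eq_empty]
    rintro g ⟨v, hv⟩
    rw [← mk_toWord (x := g), ← hv, Set.mem_compl_iff, key v (by rw [hv]; exact toWord_red g)]
    exact h

end Pool.Agent.Q98.Cut
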