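import Pool.Agent.Q98.Cut.Comp

/-!
# Potential partial positivity is decidable: primitive recursiveness
-/

set_option autoImplicit false

namespace Pool.Agent.Q98.Cut

open FreeGroup List
open Pool.Agent.Q98.Pos Pool.Agent.Q98.Block

variable {r : ℕ}

/-- one step of the free reduction -/
def redStep (x : Lt r) (ih : List (Lt r)) : List (Lt r) :=
  List.casesOn ih [x] fun hd tl => if x.1 = hd.1 ∧ x.2 = not hd.2 then tl else x :: hd :: tl

theorem reduce_eq_foldr (l : List (Lt r)) :
    FreeGroup.reduce l = l.foldr (fun b s => redStep b s) [] := by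
  induction l with
  | nil => rfl
  | cons x l ih =>
    rw [List.foldr_cons, ← ih]
    rfl

theorem primrec_redStep : Primrec₂ (redStep (r := r)) := by
  unfold redStep
  refine Primrec.list_casesOn (f := fun p : (Lt r) × List (Lt r) => p.2)
    (g := fun p => [p.1]) (h := fun (p : (Lt r) × List (Lt r)) (q : (Lt r) × List (Lt r)) =>
      if p.1.1 = q.1.1 ∧ p.1.2 = not q.1.2 then q.2 else p.1 :: q.1 :: q.2) Primrec.snd ?_ ?_
  · exact Primrec.list_cons.comp Primrec.fst (Primrec.const [])
  · refine Primrec.ite ?_ ?_ ?_
    · refine PrimrecPred.and ?_ ?_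
      · exact Primrec.eq.comp (Primrec.fst.comp (Primrec.fst.comp Primrec.fst))
          (Primrec.fst.comp (Primrec.fst.comp Primrec.snd))
      · exact Primrec.eq.comp (Primrec.snd.comp (Primrec.fst.comp Primrec.fst))
          (Primrec.not.comp (Primrec.snd.comp (Primrec.fst.comp Primrec.snd)))
    · exact Primrec.snd.comp Primrec.snd
    · exact Primrec.list_cons.comp (Primrec.fst.comp Primrec.fst)
        (Primrec.list_cons.comp (Primrec.fst.comp Primrec.snd) (Primrec.snd.comp Primrec.snd))

theorem primrec_reduce : Primrec (FreeGroup.reduce : List (Lt r) → List (Lt r)) := by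
  refine (Primrec.list_foldr (f := fun l : List (Lt r) => l) (g := fun _ => ([] : List (Lt r)))
    (h := fun _ p => redStep p.1 p.2) Primrec.id (Primrec.const []) ?_).of_eq
      (fun l => (reduce_eq_foldr l).symm)
  exact primrec_redStep.comp (Primrec.fst.comp Primrec.snd) (Primrec.snd.comp Primrec.snd)

/-- existential quantification of a decidable predicate -/
theorem re_exists {α β : Type} [Primcodable α] [Primcodable β] (p : α → β → Bool)
    (hp : Primrec₂ p) : REPred (fun a => ∃ b, p a b = true) := by
  have h1 : Partrec (fun a : α => (Nat.rfind fun n =>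
      Part.some ((Encodable.decode (α := β) n).elim false (fun b => p a b)))) := by
    refine Partrec.rfind ?_
    refine Primrec.to_comp ?_ |>.partrec
    have h2 : Primrec (fun q : α × ℕ => (Option.casesOn (Encodable.decode (α := β) q.2) false
        (fun b => p q.1 b) : Bool)) := by
      refine Primrec.option_casesOn (Primrec.decode.comp Primrec.snd) (Primrec.const false) ?_
      exact hp.comp (Primrec.fst.comp Primrec.fst) Primrec.snd
    refine h2.of_eq ?_
    intro q
    cases (Encodable.decode (α := β) q.2) <;> rfl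
  refine (Partrec.dom_re h1).of_eq ?_
  intro a
  refine Iff.trans Nat.rfind_dom ?_
  constructor
  · rintro ⟨n, hn, _⟩
    simp only [Part.mem_some_iff] at hn
    cases h : (Encodable.decode (α := β) n) with
    | none => rw [h] at hn; simp at hn
    | some b => rw [h] at hn; exact ⟨b, by simpa using hn.symm⟩
  · rintro ⟨b, hb⟩
    refine ⟨Encodable.encode b, ?_, fun _ => trivial⟩
    simp [Encodable.encodek, hb]

/-! ### the functions -/

theorem nxt_prim : Primrec₂ nxt := by
  unfold nxt
  refine Primrec.ite ?_ ?_ (Primrec.const 0)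
  · exact Primrec.nat_lt.comp (Primrec.succ.comp Primrec.snd) Primrec.fst
  · exact Primrec.succ.comp Primrec.snd

theorem prv_prim : Primrec₂ prv := by
  unfold prv
  refine Primrec.ite ?_ ?_ ?_
  · exact Primrec.eq.comp Primrec.snd (Primrec.const 0)
  · exact Primrec.nat_sub.comp Primrec.fst (Primrec.const 1)
  · exact Primrec.nat_sub.comp Primrec.snd (Primrec.const 1)

theorem iv_prim : Primrec (iv : Lt r → Lt r) := Primrec.dom_finite _

theorem idx_prim : Primrec (idx : Lt r → ℕ) := Primrec.dom_finite _

theorem tf_prim : Primrec₂ (tf : List (List Bool) → Lt r → List Bool) := by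
  unfold tf
  exact (Primrec.list_getD []).comp Primrec.fst (idx_prim.comp Primrec.snd)

/-- data: the word, the children, the position -/
abbrev Dt (r : ℕ) := (List (Lt r) × List (List Bool)) × ℕ

theorem fW : Primrec (fun d : Dt r => d.1.1) := Primrec.fst.comp Primrec.fst
theorem fT : Primrec (fun d : Dt r => d.1.2) := Primrec.snd.comp Primrec.fst
theorem fI : Primrec (fun d : Dt r => d.2) := Primrec.snd
theorem fM : Primrec (fun d : Dt r => d.1.1.length) := Primrec.list_length.comp fW
theorem fN : Primrec (fun d : Dt r => nxt d.1.1.length d.2) := nxt_prim.comp fM fI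
theorem fP : Primrec (fun d : Dt r => prv d.1.1.length d.2) := prv_prim.comp fM fI
theorem fWi : Primrec (fun d : Dt r => d.1.1[d.2]?) := Primrec.list_getElem?.comp fW fI
theorem fWp : Primrec (fun d : Dt r => d.1.1[prv d.1.1.length d.2]?) :=
  Primrec.list_getElem?.comp fW fP

theorem cp_prim : Primrec (fun d : Dt r => cp d.1.1 (tf d.1.2) d.2) := by
  have h : Primrec (fun d : Dt r => (Option.casesOn d.1.1[d.2]? false
      (fun y => ((tf d.1.2) y).getD (nxt d.1.1.length d.2) false) : Bool)) := by
    refine Primrec.option_casesOn fWi (Primrec.const false) ?_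
    refine (Primrec.list_getD false).comp ?_ ?_
    · exact tf_prim.comp (fT.comp Primrec.fst) Primrec.snd
    · exact fN.comp Primrec.fst
  refine h.of_eq ?_
  intro d
  unfold cp
  cases d.1.1[d.2]? <;> rfl

theorem cm_prim : Primrec (fun d : Dt r => cm d.1.1 (tf d.1.2) d.2) := by
  have h : Primrec (fun d : Dt r => (Option.casesOn d.1.1[prv d.1.1.length d.2]? false
      (fun y => ((tf d.1.2) (iv y)).getD (prv d.1.1.length d.2) false) : Bool)) := by
    refine Primrec.option_casesOn fWp (Primrec.const false) ?_
    refine (Primrec.list_getD false).comp ?_ ?_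
    · exact tf_prim.comp (fT.comp Primrec.fst) (iv_prim.comp Primrec.snd)
    · exact fP.comp Primrec.fst
  refine h.of_eq ?_
  intro d
  unfold cm
  cases d.1.1[prv d.1.1.length d.2]? <;> rfl

/-- the types of the cones -/
theorem outW_prim : Primrec (fun q : (List (Lt r) × List (List Bool)) × Lt r =>
    outW q.1.1 q.2 (tf q.1.2)) := by
  unfold outW
  refine Primrec.list_map (Primrec.list_range.comp (Primrec.list_length.comp
    (Primrec.fst.comp Primrec.fst))) ?_
  have hd : Primrec (fun e : ((List (Lt r) × List (List Bool)) × Lt r) × ℕ =>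
      ((e.1.1, e.2) : Dt r)) :=
    Primrec.pair (Primrec.fst.comp Primrec.fst) Primrec.snd
  refine Primrec.ite ?_ ?_ (Primrec.ite ?_ ?_ (Primrec.const false))
  · exact Primrec.eq.comp (fWp.comp hd) (Primrec.option_some.comp (Primrec.snd.comp Primrec.fst))
  · exact cp_prim.comp hd
  · exact Primrec.eq.comp (fWi.comp hd)
      (Primrec.option_some.comp (iv_prim.comp (Primrec.snd.comp Primrec.fst)))
  · exact cm_prim.comp hd

theorem baseT_prim : Primrec₂ (baseT : List (Lt r) → Lt r → List Bool) := by
  unfold baseT
  refine Primrec.list_map (Primrec.list_range.comp (Primrec.list_length.comp Primrec.fst)) ?_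
  have h1 : Primrec (fun e : (List (Lt r) × Lt r) × ℕ => e.1.1[prv e.1.1.length e.2]?) :=
    Primrec.list_getElem?.comp (Primrec.fst.comp Primrec.fst) (prv_prim.comp
      (Primrec.list_length.comp (Primrec.fst.comp Primrec.fst)) Primrec.snd)
  have h2 : Primrec (fun e : (List (Lt r) × Lt r) × ℕ => e.1.1[e.2]?) :=
    Primrec.list_getElem?.comp (Primrec.fst.comp Primrec.fst) Primrec.snd
  refine Primrec.ite ?_ (Primrec.const true) (Primrec.ite ?_ (Primrec.const true)
    (Primrec.const false))
  · exact Primrec.eq.comp h1 (Primrec.option_some.comp (Primrec.snd.comp Primrec.fst))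
  · exact Primrec.eq.comp h2
      (Primrec.option_some.comp (iv_prim.comp (Primrec.snd.comp Primrec.fst)))

theorem baseF_prim : Primrec (baseF : List (Lt r) → List Bool) := by
  unfold baseF
  exact Primrec.list_map (Primrec.list_range.comp Primrec.list_length)
    (Primrec.const false).to₂

theorem compat_prim : PrimrecPred (fun q : (List (Lt r) × List (List Bool)) × Lt r =>
    compat q.1.1 q.2 (tf q.1.2)) := by
  have hd : Primrec (fun e : ℕ × ((List (Lt r) × List (List Bool)) × Lt r) =>
      ((e.2.1, e.1) : Dt r)) :=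
    Primrec.pair (Primrec.fst.comp Primrec.snd) Primrec.fst
  have h1 : PrimrecRel (fun (i : ℕ) (q : (List (Lt r) × List (List Bool)) × Lt r) =>
      q.1.1[prv q.1.1.length i]? = some q.2 ∨ q.1.1[i]? = some (iv q.2) ∨
        cm q.1.1 (tf q.1.2) i = false ∨ cp q.1.1 (tf q.1.2) i = true) := by
    refine PrimrecPred.or ?_ (PrimrecPred.or ?_ (PrimrecPred.or ?_ ?_))
    · exact Primrec.eq.comp (fWp.comp hd)
        (Primrec.option_some.comp (Primrec.snd.comp Primrec.snd))
    · exact Primrec.eq.comp (fWi.comp hd)
        (Primrec.option_some.comp (iv_prim.comp (Primrec.snd.comp Primrec.snd)))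
    · exact Primrec.eq.comp (cm_prim.comp hd) (Primrec.const false)
    · exact Primrec.eq.comp (cp_prim.comp hd) (Primrec.const true)
  have h2 := PrimrecRel.comp (PrimrecRel.forall_mem_list h1)
    (Primrec.list_range.comp (Primrec.list_length.comp (Primrec.fst.comp Primrec.fst)))
    (Primrec.id (α := (List (Lt r) × List (List Bool)) × Lt r))
  refine PrimrecPred.of_eq h2 ?_
  intro q
  simp only [List.mem_range, compat, id]
  refine forall_congr' fun i => forall_congr' fun _ => ?_
  cases cm q.1.1 (tf q.1.2) i <;> cases cp q.1.1 (tf q.1.2) i <;> simp <;> tauto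

theorem root_prim : PrimrecPred (fun q : List (Lt r) × List (List Bool) =>
    RootOK q.1 (tf q.2)) := by
  have hd : Primrec (fun e : ℕ × (List (Lt r) × List (List Bool)) =>
      ((e.2, e.1) : Dt r)) :=
    Primrec.pair Primrec.snd Primrec.fst
  have hr : Primrec (fun q : List (Lt r) × List (List Bool) => List.range q.1.length) :=
    Primrec.list_range.comp (Primrec.list_length.comp Primrec.fst)
  have h1 : PrimrecRel (fun (i : ℕ) (q : List (Lt r) × List (List Bool)) =>
        cm q.1 (tf q.2) i = false ∨ cp q.1 (tf q.2) i = true) := by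
    refine PrimrecPred.or ?_ ?_
    · exact Primrec.eq.comp (cm_prim.comp hd) (Primrec.const false)
    · exact Primrec.eq.comp (cp_prim.comp hd) (Primrec.const true)
  have h1' : PrimrecRel (fun (i : ℕ) (q : List (Lt r) × List (List Bool)) =>
        cm q.1 (tf q.2) i = false ∧ cp q.1 (tf q.2) i = true) := by
    refine PrimrecPred.and ?_ ?_
    · exact Primrec.eq.comp (cm_prim.comp hd) (Primrec.const false)
    · exact Primrec.eq.comp (cp_prim.comp hd) (Primrec.const true)
  have h2 := PrimrecRel.comp (PrimrecRel.forall_mem_list h1) hr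
    (Primrec.id (α := List (Lt r) × List (List Bool)))
  have h3 := PrimrecRel.comp (PrimrecRel.exists_mem_list h1') hr
    (Primrec.id (α := List (Lt r) × List (List Bool)))
  refine PrimrecPred.of_eq (h2.and h3) ?_
  intro q
  simp only [List.mem_range, RootOK, id]
  refine and_congr ?_ ?_
  · refine forall_congr' fun i => forall_congr' fun _ => ?_
    cases cm q.1 (tf q.2) i <;> cases cp q.1 (tf q.2) i <;> simp
  · exact Iff.rfl

theorem sel_prim (y : Lt r) : Primrec (fun p : Option (Lt r) × List (St' r) =>
    sel p.1 p.2 y) := by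
  unfold sel
  refine Primrec.ite ?_ (Primrec.const _) ?_
  · exact Primrec.eq.comp Primrec.fst (Primrec.const _)
  · refine Primrec.listFilterMap Primrec.snd ?_
    refine Primrec.ite ?_ ?_ (Primrec.const none)
    · exact Primrec.eq.comp (Primrec.fst.comp Primrec.snd) (Primrec.const _)
    · exact Primrec.option_some.comp (Primrec.snd.comp Primrec.snd)

theorem tup_prim : ∀ ys : List (Lt r), Primrec (fun p : Option (Lt r) × List (St' r) =>
    tup p.1 p.2 ys) := by
  intro ys
  induction ys with
  | nil => exact Primrec.const _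
  | cons y ys ih =>
    simp only [tup]
    refine Primrec.list_flatMap (sel_prim y) ?_
    refine Primrec.list_map (ih.comp Primrec.fst) ?_
    exact Primrec.list_cons.comp (Primrec.snd.comp Primrec.fst) Primrec.snd

theorem stepL_prim : Primrec₂ (stepL : List (Lt r) → List (St' r) → List (St' r)) := by
  classical
  unfold stepL
  refine Primrec.list_append.comp ?_ ?_
  · refine Primrec.list_flatMap (Primrec.const _) ?_
    refine Primrec.list_cons.comp ?_ (Primrec.list_cons.comp ?_ (Primrec.const []))
    · exact Primrec.pair Primrec.snd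
        (baseT_prim.comp (Primrec.fst.comp Primrec.fst) Primrec.snd)
    · exact Primrec.pair Primrec.snd (baseF_prim.comp (Primrec.fst.comp Primrec.fst))
  · refine Primrec.list_flatMap (Primrec.const _) ?_
    refine Primrec.listFilterMap ?_ ?_
    · exact (tup_prim (letters r)).comp (Primrec.pair
        (Primrec.option_some.comp (iv_prim.comp Primrec.snd))
        (Primrec.snd.comp Primrec.fst))
    · have hd : Primrec (fun e : ((List (Lt r) × List (St' r)) × Lt r) × List (List Bool) =>
          (((e.1.1.1, e.2), e.1.2) : (List (Lt r) × List (List Bool)) × Lt r)) :=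
        Primrec.pair (Primrec.pair (Primrec.fst.comp (Primrec.fst.comp Primrec.fst)) Primrec.snd)
          (Primrec.snd.comp Primrec.fst)
      refine Primrec.ite (compat_prim.comp hd) ?_ (Primrec.const none)
      exact Primrec.option_some.comp (Primrec.pair (Primrec.snd.comp Primrec.fst)
        (outW_prim.comp hd))

theorem itL_prim : Primrec₂ (itL : List (Lt r) → ℕ → List (St' r)) := by
  unfold itL
  refine Primrec.nat_iterate Primrec.snd (Primrec.const []) ?_
  exact stepL_prim.comp (Primrec.fst.comp Primrec.fst) Primrec.snd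

theorem acc_prim : PrimrecRel (Acc : List (Lt r) → List (St' r) → Prop) := by
  unfold Acc
  have h1 : PrimrecRel (fun (tl : List (List Bool)) (W : List (Lt r)) => RootOK W (tf tl)) :=
    root_prim.comp (Primrec.pair Primrec.snd Primrec.fst)
  exact PrimrecRel.comp (PrimrecRel.exists_mem_list h1)
    ((tup_prim (letters r)).comp (Primrec.pair (Primrec.const none) Primrec.snd)) Primrec.fst

/-- **Potential partial positivity is decidable.** -/
theorem computable_pp3 (r : ℕ) :
    ComputablePred (fun L : List (Lt r) => PP3 (mk L : FreeGroup (Fin r))) := by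
  classical
  -- the common part of the two semi-algorithms
  have hcyc : ∀ {γ : Type} [Primcodable γ], PrimrecPred (fun q : List (Lt r) ×
      (List (Lt r) × List (Lt r) × γ) =>
      FreeGroup.reduce (q.2.1 ++ q.2.1) = q.2.1 ++ q.2.1) := by
    intro γ _
    have h : Primrec (fun q : List (Lt r) × (List (Lt r) × List (Lt r) × γ) =>
        q.2.1 ++ q.2.1) :=
      Primrec.list_append.comp (Primrec.fst.comp Primrec.snd) (Primrec.fst.comp Primrec.snd)
    exact Primrec.eq.comp (primrec_reduce.comp h) h
  have hconj : ∀ {γ : Type} [Primcodable γ], PrimrecPred (fun q : List (Lt r) ×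
      (List (Lt r) × List (Lt r) × γ) =>
      FreeGroup.reduce (q.1 ++ q.2.2.1) = FreeGroup.reduce (q.2.2.1 ++ q.2.1)) := by
    intro γ _
    have hc : Primrec (fun q : List (Lt r) × (List (Lt r) × List (Lt r) × γ) => q.2.2.1) :=
      Primrec.fst.comp (Primrec.snd.comp Primrec.snd)
    exact Primrec.eq.comp (primrec_reduce.comp (Primrec.list_append.comp Primrec.fst hc))
      (primrec_reduce.comp (Primrec.list_append.comp hc (Primrec.fst.comp Primrec.snd)))
  have re1 : REPred (fun L : List (Lt r) => PP3 (mk L : FreeGroup (Fin r))) := by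
    have h3 : PrimrecPred (fun q : List (Lt r) × (List (Lt r) × List (Lt r) × ℕ) =>
        Acc q.2.1 (itL q.2.1 q.2.2.2)) :=
      acc_prim.comp (Primrec.fst.comp Primrec.snd) (itL_prim.comp (Primrec.fst.comp Primrec.snd)
        (Primrec.snd.comp (Primrec.snd.comp Primrec.snd)))
    have h := ((hcyc (γ := ℕ)).and ((hconj (γ := ℕ)).and h3)).decide
    refine (re_exists (fun (L : List (Lt r)) (p : List (Lt r) × List (Lt r) × ℕ) =>
      decide (FreeGroup.reduce (p.1 ++ p.1) = p.1 ++ p.1 ∧
      FreeGroup.reduce (L ++ p.2.1) = FreeGroup.reduce (p.2.1 ++ p.1) ∧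
      Acc p.1 (itL p.1 p.2.2))) ?_).of_eq ?_
    · exact h
    · intro L
      rw [pp3_iff_pos]
      simp only [decide_eq_true_eq]
  have re2 : REPred (fun L : List (Lt r) => ¬ PP3 (mk L : FreeGroup (Fin r))) := by
    have hmem : PrimrecRel (fun (L : List (St' r)) (s : St' r) => ∃ a ∈ L, a = s) :=
      PrimrecRel.exists_mem_list Primrec.eq
    have h4 : PrimrecPred (fun q : List (Lt r) × (List (Lt r) × List (Lt r) × List (St' r)) =>
        ∀ s ∈ stepL q.2.1 q.2.2.2, ∃ a ∈ q.2.2.2, a = s) := by
      have h5 : PrimrecRel (fun (L : List (St' r)) (T : List (St' r)) =>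
          ∀ s ∈ L, ∃ a ∈ T, a = s) := by
        have h6 : PrimrecRel (fun (s : St' r) (T : List (St' r)) => ∃ a ∈ T, a = s) :=
          PrimrecRel.comp hmem Primrec.snd Primrec.fst
        exact PrimrecRel.forall_mem_list h6
      exact PrimrecRel.comp h5 (stepL_prim.comp (Primrec.fst.comp Primrec.snd)
        (Primrec.snd.comp (Primrec.snd.comp Primrec.snd)))
        (Primrec.snd.comp (Primrec.snd.comp Primrec.snd))
    have h3 : PrimrecPred (fun q : List (Lt r) × (List (Lt r) × List (Lt r) × List (St' r)) =>
        ¬ Acc q.2.1 q.2.2.2) :=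
      (acc_prim.comp (Primrec.fst.comp Primrec.snd)
        (Primrec.snd.comp (Primrec.snd.comp Primrec.snd))).not
    have h := ((hcyc (γ := List (St' r))).and ((hconj (γ := List (St' r))).and
      (h4.and h3))).decide
    refine (re_exists (fun (L : List (Lt r)) (p : List (Lt r) × List (Lt r) × List (St' r)) =>
      decide (FreeGroup.reduce (p.1 ++ p.1) = p.1 ++ p.1 ∧
      FreeGroup.reduce (L ++ p.2.1) = FreeGroup.reduce (p.2.1 ++ p.1) ∧
      (∀ s ∈ stepL p.1 p.2.2, ∃ a ∈ p.2.2, a = s) ∧ ¬ Acc p.1 p.2.2)) ?_).of_eq ?_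
    · exact h
    · intro L
      rw [pp3_iff_neg]
      simp only [decide_eq_true_eq, exists_eq_right]
  rw [ComputablePred.computable_iff_re_compl_re]
  exact ⟨re1, re2⟩

end Pool.Agent.Q98.Cut
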