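import Pool.Agent.Q98.Cut.Fwd

/-!
# Potentially partially positive elements and forward closed sets
-/

set_option autoImplicit false

namespace Pool.Agent.Q98.Cut

open FreeGroup List
open Filter hiding mk
open Pool.Agent.Q98.Pos Pool.Agent.Q98.Block

variable {α : Type*} [DecidableEq α]

/-- `w` is potentially partially positive -/
def PP3 (w : FreeGroup α) : Prop := ∃ (φ : FreeGroup α ≃* FreeGroup α) (x : α),
  (x, true) ∈ (φ w).toWord ∧ (x, false) ∉ (φ w).toWord

theorem C_iff_head {t : α × Bool} {k : FreeGroup α} : k ∈ C [t] ↔ k.toWord.head? = some t := by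
  constructor
  · rintro ⟨v, hv⟩
    rw [← hv]; rfl
  · intro h
    rcases hk : k.toWord with _ | ⟨s, v⟩
    · rw [hk] at h; simp at h
    · rw [hk] at h
      simp only [List.head?_cons, Option.some.injEq] at h
      exact ⟨v, by rw [hk, h]; rfl⟩

theorem C_mul_right {t r : α × Bool} {k : FreeGroup α} (h : k ∈ C [t]) (hr : r ≠ iv t) :
    k * mk [r] ∈ C [t] := by
  rw [C_iff_head] at h ⊢
  exact head_mul_letter h (Or.inr hr)

theorem C_mul_word {t : α × Bool} (L : List (α × Bool)) (hL : iv t ∉ L) :
    ∀ k : FreeGroup α, k ∈ C [t] → k * mk L ∈ C [t] := by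
  induction L with
  | nil => intro k hk; rwa [← one_eq_mk, mul_one]
  | cons s L ih =>
    intro k hk
    have e : s :: L = [s] ++ L := rfl
    rw [e, ← mul_mk, ← mul_assoc]
    refine ih (fun h => hL (by simp [h])) _ (C_mul_right hk ?_)
    rintro rfl
    exact hL (by simp)

theorem C_mul_word_iff {t : α × Bool} {L : List (α × Bool)} (h1 : t ∉ L) (h2 : iv t ∉ L)
    (k : FreeGroup α) : k * mk L ∈ C [t] ↔ k ∈ C [t] := by
  constructor
  · intro h
    have := C_mul_word (invRev L) (t := t) (by
      rw [mem_invRev]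
      simpa [iv] using h1) _ h
    rwa [← inv_mk, mul_inv_cancel_right] at this
  · exact C_mul_word L h2 k

/-- The line through `1` at a turn. -/
theorem line_at {W : List (α × Bool)} (hW : IsCyclicallyReduced W)
    (hv : mk W ≠ (1 : FreeGroup α))
    {m : ℕ} {P Q : List (α × Bool)} {p q : α × Bool} (h : rep m W = P ++ [p, q] ++ Q) :
    bw (mk W) hv (mk (P ++ [p]))⁻¹ ∈ D [iv p] ∧ fw (mk W) hv (mk (P ++ [p]))⁻¹ ∈ D [q] := by
  have hrr : ∀ i j : ℕ, rep (i + j) W = rep i W ++ rep j W := by
    intro i j
    induction i with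
    | zero => simp [rep_zero]
    | succ i ih => rw [Nat.add_right_comm, rep_succ, rep_succ, ih, List.append_assoc]
  refine ⟨?_, ?_⟩
  · change ∀ᶠ n in atTop, _ ∈ C [iv p]
    filter_upwards with n
    have e1 : (bw (mk W) hv (mk (P ++ [p]))⁻¹).at n = mk (invRev (rep n W ++ (P ++ [p]))) := by
      simp only [Pt.at, bw]
      rw [← inv_mk, ← mul_mk (L₁ := rep n W) (L₂ := P ++ [p]), mk_rep]
      group
    have r1 : IsReduced (rep n W ++ (P ++ [p])) := by
      refine red_mid (P := []) (R := [q] ++ Q) (cyc_rep hW (n + m)).isReduced ?_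
      rw [hrr, h]; simp
    have e2 : invRev (rep n W ++ (P ++ [p])) = [iv p] ++ invRev (rep n W ++ P) := by
      rw [← List.append_assoc, invRev_append (L₁ := rep n W ++ P)]
      simp [invRev, iv]
    rw [e1, e2]
    have r2 := reduced_invRev r1
    rw [e2] at r2
    rw [C, Set.mem_ofPred_eq, toWord_mk_red r2]
    exact List.prefix_append _ _
  · change ∀ᶠ n in atTop, _ ∈ C [q]
    filter_upwards [eventually_ge_atTop m] with n hn
    obtain ⟨k, rfl⟩ := Nat.exists_eq_add_of_le hn
    have e1 : (fw (mk W) hv (mk (P ++ [p]))⁻¹).at (m + k) = mk ([q] ++ (Q ++ rep k W)) := by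
      simp only [Pt.at, fw]
      rw [← mk_rep, hrr, h]
      have : P ++ [p, q] ++ Q ++ rep k W = (P ++ [p]) ++ ([q] ++ (Q ++ rep k W)) := by simp
      rw [this, ← mul_mk (L₁ := P ++ [p]), inv_mul_cancel_left]
    have r1 : IsReduced ([q] ++ (Q ++ rep k W)) := by
      refine red_mid (P := P ++ [p]) (R := []) (cyc_rep hW (m + k)).isReduced ?_
      rw [hrr, h]; simp
    rw [e1, C, Set.mem_ofPred_eq, toWord_mk_red r1]
    exact List.prefix_append _ _

theorem line {W : List (α × Bool)} (hW : IsCyclicallyReduced W) (hv : mk W ≠ (1 : FreeGroup α))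
    {m : ℕ} {P Q : List (α × Bool)} {p q : α × Bool} (h : rep m W = P ++ [p, q] ++ Q) :
    ∃ g, bw (mk W) hv g ∈ D [iv p] ∧ fw (mk W) hv g ∈ D [q] := ⟨_, line_at hW hv h⟩

theorem rep_two (W : List (α × Bool)) : rep 2 W = W ++ W := by
  simp [rep_succ, rep_zero]

/-- Words whose axes go forward through an edge. -/
theorem letters_of_fc {W : List (α × Bool)} (hW : IsCyclicallyReduced W)
    (hv : mk W ≠ (1 : FreeGroup α)) {a : α × Bool} (h : FC (mk W) hv (D [a])) :
    a ∈ W ∧ iv a ∉ W := by
  have hW0 : W ≠ [] := by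
    rintro rfl; exact hv (by rw [← one_eq_mk])
  have h2 : iv a ∉ W := by
    intro hin
    obtain ⟨P, Q, hPQ⟩ := List.append_of_mem hin
    -- the next letter
    obtain ⟨q, Q', hq⟩ : ∃ q Q', Q ++ W = q :: Q' := by
      rcases hQ : Q ++ W with _ | ⟨q, Q'⟩
      · exact absurd (List.append_eq_nil_iff.1 hQ).2 hW0
      · exact ⟨q, Q', rfl⟩
    have h3 : rep 2 W = P ++ [iv a, q] ++ Q' := by
      rw [rep_two]
      conv_lhs => rw [hPQ]
      rw [List.append_assoc, List.cons_append, ← hPQ, hq]
      simp
    obtain ⟨g, h4, h5⟩ := line hW hv h3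
    rw [iv_iv] at h4
    have h6 := h.fwd g h4
    have h7 := D_uniq h5 h6
    have h8 : IsReduced ([iv a] ++ [q]) := by
      refine red_mid (P := P) (R := Q') (cyc_rep hW 2).isReduced ?_
      rw [h3]; simp
    rw [red_pair, iv_iv] at h8
    exact h8 h7
  refine ⟨?_, h2⟩
  by_contra h1
  obtain ⟨g, h3, h4⟩ := h.crs
  have hr1 : ∀ n, a ∉ rep n W := fun n hn => h1 (mem_rep hn)
  have hr2 : ∀ n, iv a ∉ rep n W := fun n hn => h2 (mem_rep hn)
  obtain ⟨n, hn⟩ := h4.exists
  have h5 : g ∈ C [a] := by
    have e : (fw (mk W) hv g).at n = g * mk (rep n W) := by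
      simp only [Pt.at, fw, mk_rep]
    rw [e, C_mul_word_iff (hr1 n) (hr2 n)] at hn
    exact hn
  apply h3
  change ∀ᶠ n in atTop, _ ∈ C [a]
  filter_upwards with n
  have e : (bw (mk W) hv g).at n = g * mk (invRev (rep n W)) := by
    simp only [Pt.at, bw, ← inv_mk, mk_rep, inv_pow]
  rw [e, C_mul_word_iff]
  · exact h5
  · rw [mem_invRev]
    exact hr2 n
  · rw [mem_invRev]
    have := hr1 n
    simpa [iv] using this

/-- The inversion of all generators. -/
def flip : FreeGroup α ≃* FreeGroup α :=
  MonoidHom.toMulEquiv (FreeGroup.lift fun x => (FreeGroup.of x)⁻¹)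
    (FreeGroup.lift fun x => (FreeGroup.of x)⁻¹)
    (by apply FreeGroup.ext_hom; intro x; simp) (by apply FreeGroup.ext_hom; intro x; simp)

theorem flip_mk (L : List (α × Bool)) : flip (mk L) = mk (L.map iv) := by
  induction L with
  | nil => rw [List.map_nil, ← one_eq_mk, _root_.map_one]
  | cons s L ih =>
    have e : s :: L = [s] ++ L := rfl
    have e2 : (s :: L).map iv = [iv s] ++ L.map iv := rfl
    rw [e2, e, ← mul_mk, ← mul_mk, _root_.map_mul, ih]
    congr 1
    obtain ⟨x, b⟩ := s
    change FreeGroup.lift (fun x => (FreeGroup.of x)⁻¹) (mk [(x, b)]) = _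
    cases b
    · have h1 : (mk [(x, false)] : FreeGroup α) = (FreeGroup.of x)⁻¹ := rfl
      rw [h1, _root_.map_inv, FreeGroup.lift_apply_of, inv_inv]
      rfl
    · have h1 : (mk [(x, true)] : FreeGroup α) = FreeGroup.of x := rfl
      rw [h1, FreeGroup.lift_apply_of]
      rfl

theorem red_map_iv {L : List (α × Bool)} (h : IsReduced L) : IsReduced (L.map iv) := by
  unfold FreeGroup.IsReduced at h ⊢
  rw [List.isChain_map]
  refine h.imp ?_
  intro a b h1 h2
  simp only [iv] at h2 ⊢
  rw [h1 h2]

theorem pp3_of_word {W : List (α × Bool)} (hW : IsReduced W) {a : α × Bool} (h1 : a ∈ W)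
    (h2 : iv a ∉ W) : PP3 (mk W : FreeGroup α) := by
  obtain ⟨x, b⟩ := a
  cases b
  · refine ⟨flip, x, ?_, ?_⟩
    · rw [flip_mk, toWord_mk_red (red_map_iv hW), List.mem_map]
      exact ⟨_, h1, rfl⟩
    · rw [flip_mk, toWord_mk_red (red_map_iv hW), List.mem_map]
      rintro ⟨c, hc1, hc2⟩
      apply h2
      have : c = iv (x, false) := iv_inj (by rw [hc2, iv_iv])
      rwa [← this]
  · refine ⟨MulEquiv.refl _, x, ?_, ?_⟩
    · simp only [MulEquiv.refl_apply]
      rw [toWord_mk_red hW]; exact h1
    · simp only [MulEquiv.refl_apply]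
      rw [toWord_mk_red hW]; exact h2

theorem PP3.map {w : FreeGroup α} (φ : FreeGroup α ≃* FreeGroup α) (h : PP3 (φ w)) : PP3 w := by
  obtain ⟨ψ, x, h1, h2⟩ := h
  exact ⟨φ.trans ψ, x, h1, h2⟩

theorem PP3.conj {v : FreeGroup α} (c : FreeGroup α) (h : PP3 v) : PP3 (c * v * c⁻¹) := by
  have e : (MulAut.conj c⁻¹ : FreeGroup α ≃* FreeGroup α) (c * v * c⁻¹) = v := by
    rw [MulAut.conj_apply]; group
  exact PP3.map (MulAut.conj c⁻¹) (by rw [e]; exact h)

/-- Every element is conjugate to an element given by a cyclically reduced word. -/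
theorem exists_cyc (w : FreeGroup α) : ∃ (W : List (α × Bool)) (c : FreeGroup α),
    IsCyclicallyReduced W ∧ w = c * mk W * c⁻¹ := by
  refine ⟨reduceCyclically w.toWord, mk (reduceCyclically.conjugator w.toWord),
    reduceCyclically.isCyclicallyReduced (toWord_red w), ?_⟩
  have := reduceCyclically.conj_conjugator_reduceCyclically w.toWord
  conv_lhs => rw [← mk_toWord (x := w), ← this]
  rw [← mul_mk, ← mul_mk, ← inv_mk]

theorem PP3_of_fc_edge {w : FreeGroup α} {hw : w ≠ 1} {a : α × Bool} (h : FC w hw (D [a])) :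
    PP3 w := by
  obtain ⟨W, c, hW, rfl⟩ := exists_cyc w
  have hv : mk W ≠ (1 : FreeGroup α) := by
    intro h1
    apply hw
    rw [h1]; group
  have h1 := FC.conj (hv := hv) h
  obtain ⟨h2, h3⟩ := letters_of_fc hW hv h1
  exact (pp3_of_word hW.isReduced h2 h3).conj c

section base

variable [Finite α]

theorem DD_sub {A : Set (Pt α)} {t : α × Bool} (T : Set (α × Bool)) (hA : A = DD T) :
    D [t] ⊆ A ↔ t ∈ T := by
  constructor
  · intro h
    obtain ⟨p, hp⟩ := D_single_nonempty t
    have h1 := h hp
    rw [hA] at h1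
    obtain ⟨s, hs, h2⟩ := mem_DD.1 h1
    exact D_uniq hp h2 ▸ hs
  · intro h p hp
    rw [hA]
    exact mem_DD.2 ⟨t, h, hp⟩

/-- The case in which the cut is a union of edges at `1`, with an alphabet closed under
inversion, is impossible. -/
theorem no_sym {w : FreeGroup α} {hw : w ≠ 1} {T : Set (α × Bool)} (hT : ∀ t ∈ T, iv t ∈ T)
    (h : FC w hw (DD T)) : False := by
  obtain ⟨W, c, hW, rfl⟩ := exists_cyc w
  have hv : mk W ≠ (1 : FreeGroup α) := by
    intro h1
    apply hw
    rw [h1]; group
  have h1 := FC.conj (hv := hv) h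
  have hT' : ∀ t, iv t ∈ T → t ∈ T := fun t ht => by
    have := hT _ ht
    rwa [iv_iv] at this
  have hstep : ∀ (m : ℕ) (P Q : List (α × Bool)) (p q : α × Bool),
      rep m W = P ++ [p, q] ++ Q → p ∈ T → q ∈ T := by
    intro m P Q p q hpq hp
    obtain ⟨g, h2, h3⟩ := line hW hv hpq
    have h4 := h1.fwd g (mem_DD.2 ⟨_, hT p hp, h2⟩)
    obtain ⟨t, ht, h5⟩ := mem_DD.1 h4
    exact D_uniq h3 h5 ▸ ht
  have hprop : ∀ (R P Q : List (α × Bool)) (t : α × Bool) (m : ℕ),
      rep m W = P ++ [t] ++ R ++ Q → t ∈ T → ∀ r ∈ R, r ∈ T := by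
    intro R
    induction R with
    | nil => intro P Q t m _ _ r hr; simp at hr
    | cons s R ih =>
      intro P Q t m hm ht r hr
      have hs : s ∈ T := hstep m P (R ++ Q) t s (by rw [hm]; simp) ht
      rcases List.mem_cons.1 hr with rfl | hr
      · exact hs
      · exact ih (P ++ [t]) Q s m (by rw [hm]; simp) hs r hr
  obtain ⟨g, h3, h4⟩ := h1.crs
  by_cases hex : ∃ t ∈ W, t ∈ T
  · obtain ⟨t, ht1, ht2⟩ := hex
    obtain ⟨P, Q, hPQ⟩ := List.append_of_mem ht1
    have hall : ∀ r ∈ W, r ∈ T := by
      intro r hr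
      refine hprop (Q ++ W) P [] t 2 ?_ ht2 r (by simp [hr])
      rw [rep_two]
      conv_lhs => rw [hPQ]
      rw [List.append_assoc, List.cons_append, ← hPQ]
      simp
    -- multiplication by letters of `T` preserves `{1} ∪ CC T`
    have hmul : ∀ (L : List (α × Bool)), (∀ r ∈ L, r ∈ T) → ∀ k : FreeGroup α,
        (k = 1 ∨ k ∈ CC T) → (k * mk L = 1 ∨ k * mk L ∈ CC T) := by
      intro L
      induction L with
      | nil => intro _ k hk; rwa [← one_eq_mk, mul_one]
      | cons s L ih =>
        intro hL k hk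
        have e : s :: L = [s] ++ L := rfl
        rw [e, ← mul_mk, ← mul_assoc]
        refine ih (fun r hr => hL r (by simp [hr])) _ ?_
        have hs : s ∈ T := hL s (by simp)
        rcases hk with rfl | ⟨t, ht, hk⟩
        · right
          refine ⟨s, hs, ?_⟩
          rw [one_mul, C_iff_head, toWord_mk_red IsReduced.singleton]; rfl
        · by_cases hk1 : k * mk [s] = 1
          · exact Or.inl hk1
          · right
            refine ⟨t, ht, ?_⟩
            by_cases hst : s = iv t
            · rw [C_iff_head] at hk ⊢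
              refine head_mul_letter hk (Or.inl ?_)
              by_contra hlen
              apply hk1
              have h5 : k.toWord = [t] := by
                rcases hk2 : k.toWord with _ | ⟨a, v⟩
                · rw [hk2] at hk; simp at hk
                · rw [hk2] at hk hlen
                  simp only [List.head?_cons, Option.some.injEq] at hk
                  rcases v with _ | ⟨b, v⟩
                  · rw [hk]
                  · simp at hlen
              rw [← mk_toWord (x := k), h5, hst, mk_iv, mul_inv_cancel]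
            · exact C_mul_right hk hst
    obtain ⟨n, hn⟩ := h4.exists
    have h5 : g = 1 ∨ g ∈ CC T := by
      have := hmul (invRev (rep n W)) (by
        intro r hr
        rw [mem_invRev] at hr
        exact hT' r (hall _ (mem_rep hr))) ((fw (mk W) hv g).at n) (Or.inr hn)
      have e : (fw (mk W) hv g).at n * mk (invRev (rep n W)) = g := by
        simp only [Pt.at, fw, ← inv_mk, mk_rep]
        group
      rwa [e] at this
    apply h3
    have hinj := (bw (mk W) hv g).inj
    have hfin : {n | (bw (mk W) hv g).at n = 1}.Finite := by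
      have : {n | (bw (mk W) hv g).at n = 1} = (bw (mk W) hv g).at ⁻¹' {1} := rfl
      rw [this]
      exact (Set.finite_singleton _).preimage hinj.injOn
    obtain ⟨N, hN⟩ := hfin.bddAbove
    change ∀ᶠ n in atTop, _ ∈ CC T
    filter_upwards [eventually_gt_atTop N] with n hn
    have e : (bw (mk W) hv g).at n = g * mk (invRev (rep n W)) := by
      simp only [Pt.at, bw, ← inv_mk, mk_rep, inv_pow]
    have := hmul (invRev (rep n W)) (by
        intro r hr
        rw [mem_invRev] at hr
        exact hT' r (hall _ (mem_rep hr))) g h5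
    rw [← e] at this
    rcases this with h6 | h6
    · exact absurd (hN (show n ∈ {n | _} from h6)) (by omega)
    · exact h6
  · push Not at hex
    -- multiplication by letters outside `T` preserves the complement of `CC T`
    have hmul : ∀ (L : List (α × Bool)), (∀ r ∈ L, r ∉ T) → ∀ k : FreeGroup α,
        k ∈ CC T → k * mk L ∈ CC T := by
      rintro L hL k ⟨t, ht, hk⟩
      refine ⟨t, ht, C_mul_word L ?_ k hk⟩
      intro h6
      exact hL _ h6 (hT t ht)
    obtain ⟨n, hn⟩ := h4.exists
    apply h3
    change ∀ᶠ n in atTop, _ ∈ CC T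
    filter_upwards with m
    have e : (bw (mk W) hv g).at m = (fw (mk W) hv g).at n *
        mk (invRev (rep n W) ++ invRev (rep m W)) := by
      simp only [Pt.at, bw, fw, ← mul_mk, ← inv_mk, mk_rep, inv_pow]
      group
    rw [e]
    refine hmul _ ?_ _ hn
    intro r hr
    rw [List.mem_append, mem_invRev, mem_invRev] at hr
    intro h6
    have h7 : (r.1, !r.2) ∈ W := by
      rcases hr with hr | hr
      · exact mem_rep hr
      · exact mem_rep hr
    exact hex _ h7 (hT r h6)

/-- The base case. -/
theorem base {w : FreeGroup α} {hw : w ≠ 1} {A : Set (Pt α)} (h : FC w hw A)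
    (hm : ∀ s, Mono (D [s]) A) : PP3 w := by
  classical
  set T : Set (α × Bool) := {t | D [t] ⊆ A} with hT
  have hA : A = DD T := by
    ext p
    rw [mem_DD]
    constructor
    · intro hp
      obtain ⟨s, hs⟩ := D_exists p
      refine ⟨s, ?_, hs⟩
      rcases hm s with h1 | h1
      · exact h1
      · exact absurd hp (h1 hs)
    · rintro ⟨t, ht, hp⟩
      exact ht hp
  by_cases hsym : ∀ t ∈ T, iv t ∈ T
  · rw [hA] at h
    exact (no_sym hsym h).elim
  · push Not at hsym
    obtain ⟨a, ha, hiv⟩ := hsym
    have h1 : FC w hw (im (wh a T) (D [a])) := by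
      rw [im_D_a ha hiv, ← hA]
      exact h.sh _
    have hw' : (wh a T).symm w ≠ 1 := by
      intro h2
      apply hw
      rw [← (wh a T).apply_symm_apply w, h2, _root_.map_one]
    have h2 := h1.im (wh a T).symm hw'
    have h3 : im (wh a T).symm (im (wh a T) (D [a])) = D [a] := by
      have := im_symm (wh a T).symm (D [a])
      rwa [MulEquiv.symm_symm] at this
    rw [h3] at h2
    exact PP3.map _ (PP3_of_fc_edge h2)

/-- **Forward closed sets produce automorphisms.** -/
theorem PP3_of_fc : ∀ (n : ℕ) (w : FreeGroup α) (hw : w ≠ 1) (A : Set (Pt α)), FC w hw A →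
    (J A).ncard ≤ n → PP3 w := by
  intro n
  induction n using Nat.strong_induction_on with
  | _ n ih =>
    intro w hw A hA hn
    obtain ⟨B, hB, hmin, hnest⟩ := exists_nested {B | FC w hw B} ⟨A, hA⟩ (fun B hB => hB.clo)
      (fun B hB k => hB.sh k) (fun B hB B' hB' _ => hB.corners hB')
    have hBn : (J B).ncard ≤ n := (hmin A hA).trans hn
    have hB1 : ∃ p, p ∈ B := by
      obtain ⟨g, _, h⟩ := hB.crs
      exact ⟨_, h⟩
    have hB2 : ∃ p, p ∉ B := by
      obtain ⟨g, h, _⟩ := hB.crs
      exact ⟨_, h⟩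
    rcases leaf hB.clo hB1 hB2 with ⟨g, hg⟩ | ⟨g, s0, hc, hm⟩
    · refine base (hB.sh g⁻¹) (fun s => ?_)
      have := hg s
      rw [← mono_sh (k := g⁻¹), sh_sh, inv_mul_cancel, sh_one] at this
      exact this
    · set B' := sh g⁻¹ B with hB'
      have e : B = sh g B' := by rw [hB', sh_sh, mul_inv_cancel, sh_one]
      have hFC : FC w hw B' := hB.sh g⁻¹
      have hn' : ∀ k, ¬ Cross B' (sh k B') := by
        intro k hk
        rw [← cross_sh (k := g), ← e, sh_sh] at hk
        have h1 := hnest (g * k * g⁻¹)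
        have e2 : sh (g * k * g⁻¹) B = sh (g * k) B' := by
          rw [hB', sh_sh]
        rw [e2] at h1
        exact h1 hk
      have hc' : Cross (D [s0]) B' := by
        rw [← cross_sh (k := g), ← e]; exact hc
      have hm' : ∀ s, s ≠ s0 → Mono (D [s]) B' := by
        intro s hs
        rw [← mono_sh (k := g), ← e]
        exact hm s hs
      have hJ : (J B').ncard = (J B).ncard := J_sh _ _
      obtain ⟨φ, hφ⟩ : ∃ φ : FreeGroup α ≃* FreeGroup α,
          (J (im φ B')).ncard < (J B').ncard := by
        rcases hm' (iv s0) (iv_ne s0) with h1 | h1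
        · refine Cut.step hFC.clo hn' (a := iv s0) ?_ ?_ h1
          · rw [iv_iv]; exact hc'
          · rw [iv_iv]; exact hm'
        · obtain ⟨φ, hφ⟩ := Cut.step (A := B'ᶜ) hFC.clo.compl (by
            intro k hk
            rw [sh_compl, cross_compl_right, cross_compl_left] at hk
            exact hn' k hk) (a := iv s0) (by
            rw [iv_iv, cross_compl_right]; exact hc') (by
            rw [iv_iv]
            intro s hs
            exact (hm' s hs).compl) h1
          refine ⟨φ, ?_⟩
          have hJc : ∀ X : Set (Pt α), J Xᶜ = J X := by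
            intro X
            unfold J
            simp only [cross_compl_right]
          rwa [im_compl, hJc, hJc] at hφ
      have hφw : φ w ≠ 1 := by
        intro h2
        apply hw
        rw [← φ.symm_apply_apply w, h2, _root_.map_one]
      exact PP3.map φ (ih _ (lt_of_lt_of_le hφ (by rw [hJ]; exact hBn)) (φ w) hφw _
        (hFC.im φ hφw) le_rfl)

end base

/-- Potentially partially positive elements have forward closed sets. -/
theorem fc_of_PP3 {w : FreeGroup α} (h : PP3 w) : ∃ (hw : w ≠ 1) (A : Set (Pt α)), FC w hw A := by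
  obtain ⟨φ, x, h1, h2⟩ := h
  have hw : w ≠ 1 := by
    rintro rfl
    rw [_root_.map_one] at h1
    simp at h1
  have hv : φ w ≠ 1 := by
    intro h3
    rw [h3] at h1
    simp at h1
  refine ⟨hw, ?_⟩
  set v := φ w with hvdef
  have hiv : iv (x, true) = (x, false) := rfl
  have key : ∀ k n, k ∈ C [(x, true)] → k * v ^ n ∈ C [(x, true)] := by
    intro k n hk
    have := C_mul_word (t := (x, true)) (rep n v.toWord) (by
      intro h3
      exact h2 (mem_rep h3)) k hk
    rwa [mk_rep, mk_toWord] at this
  have hfc : FC v hv (D [(x, true)]) := by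
    refine ⟨D_clo _, ?_, ?_⟩
    · intro g hg
      obtain ⟨n, hn⟩ := hg.exists
      change ∀ᶠ n in atTop, _ ∈ C [(x, true)]
      filter_upwards with m
      have := key _ (n + m) hn
      simp only [Pt.at, bw] at this
      simp only [Pt.at, fw]
      have e : g * v⁻¹ ^ n * v ^ (n + m) = g * v ^ m := by
        rw [pow_add]; group
      rwa [e] at this
    · -- the first occurrence of `x`
      obtain ⟨P, Q, hPQ, hP⟩ : ∃ P Q, v.toWord = P ++ (x, true) :: Q ∧ (x, true) ∉ P :=
        List.eq_append_cons_of_mem h1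
      refine ⟨(mk P)⁻¹, ?_, ?_⟩
      · intro h3
        obtain ⟨n, hn⟩ := h3.exists
        have h4 := C_mul_word (t := (x, true)) (rep n v.toWord ++ P) (by
          rw [List.mem_append]
          rintro (h5 | h5)
          · exact h2 (mem_rep h5)
          · apply h2
            rw [hPQ, List.mem_append]
            exact Or.inl h5) _ hn
        simp only [Pt.at, bw] at h4
        have e : (mk P)⁻¹ * v⁻¹ ^ n * mk (rep n v.toWord ++ P) = 1 := by
          rw [← mul_mk, mk_rep, mk_toWord]; group
        rw [e] at h4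
        exact C_one _ h4
      · change ∀ᶠ n in atTop, _ ∈ C [(x, true)]
        filter_upwards [eventually_ge_atTop 1] with n hn
        obtain ⟨m, rfl⟩ := Nat.exists_eq_add_of_le hn
        simp only [Pt.at, fw]
        have e : (mk P)⁻¹ * v ^ (1 + m) = mk [(x, true)] * mk (Q ++ rep m v.toWord) := by
          have hv3 : v = mk P * (mk [(x, true)] * mk Q) := by
            rw [mul_mk, mul_mk]
            have e1 : P ++ ([(x, true)] ++ Q) = P ++ (x, true) :: Q := rfl
            rw [e1, ← hPQ, mk_toWord]
          have hv4 : (mk P)⁻¹ * v = mk [(x, true)] * mk Q := by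
            rw [hv3]; group
          rw [pow_add, pow_one, ← mul_assoc, hv4, ← mul_mk (L₁ := Q), mk_rep, mk_toWord, mul_assoc]
        rw [e]
        refine C_mul_word _ ?_ _ ?_
        · rw [List.mem_append]
          rintro (h5 | h5)
          · apply h2
            rw [hPQ]
            simp [hiv ▸ h5]
          · exact h2 (mem_rep h5)
        · rw [C_iff_head, toWord_mk_red IsReduced.singleton]; rfl
  have hw2 : φ.symm v ≠ 1 := by rw [hvdef, φ.symm_apply_apply]; exact hw
  have h5 := hfc.im φ.symm hw2
  have h6 : φ.symm v = w := by rw [hvdef, φ.symm_apply_apply]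
  refine ⟨im φ.symm (D [(x, true)]), ?_⟩
  simp only [h6] at h5
  exact h5

end Pool.Agent.Q98.Cut
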