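import Pool.Agent.Q98.Cut.Levels

/-!
# Whitehead automorphisms and cones
-/

set_option autoImplicit false

namespace Pool.Agent.Q98.Cut

open FreeGroup List
open Filter hiding mk
open Pool.Agent.Q98.Pos Pool.Agent.Q98.Block

variable {α : Type*} [DecidableEq α]

theorem C_mul_iff (s : α × Bool) (k : FreeGroup α) : mk [s] * k ∈ C [s] ↔ k ∉ C [iv s] := by
  have h : (mk [s])⁻¹ * (mk [s] * k) ∈ C [iv s] ↔ ¬ (mk [s] * k ∈ C [s]) := by
    have := congrArg (fun S : Set (FreeGroup α) => mk [s] * k ∈ S) (C_inv s)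
    simpa using this
  rw [inv_mul_cancel_left] at h
  tauto

theorem C_uniq {s t : α × Bool} {k : FreeGroup α} (h1 : k ∈ C [s]) (h2 : k ∈ C [t]) : s = t := by
  obtain ⟨v, hv⟩ := h1
  obtain ⟨w, hw⟩ := h2
  rw [← hv] at hw
  simp only [List.singleton_append, List.cons.injEq] at hw
  exact hw.1.symm

theorem C_one (s : α × Bool) : (1 : FreeGroup α) ∉ C [s] := by
  rintro ⟨v, hv⟩
  simp at hv

theorem C_exists {k : FreeGroup α} (hk : k ≠ 1) : ∃ s, k ∈ C [s] := by
  rcases h : k.toWord with _ | ⟨s, w⟩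
  · exact absurd (toWord_eq_nil_iff.1 h) hk
  · exact ⟨s, w, by rw [h]; rfl⟩

section

variable (a : α × Bool) (Cs : Set (α × Bool))

open Classical in
/-- the left factor -/
noncomputable def pre (s : α × Bool) : FreeGroup α := if s ∈ Cs then 1 else mk [a]

open Classical in
/-- images of the generators -/
noncomputable def gen (x : α) : FreeGroup α :=
  if x = a.1 then FreeGroup.of x else pre a Cs (x, true) * FreeGroup.of x *
    (pre a Cs (x, false))⁻¹

open Classical in
/-- images of the generators under the inverse map -/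
noncomputable def gen' (x : α) : FreeGroup α :=
  if x = a.1 then FreeGroup.of x else (pre a Cs (x, true))⁻¹ * FreeGroup.of x *
    pre a Cs (x, false)

theorem lift_gen_a {f : α → FreeGroup α} (hf : f a.1 = FreeGroup.of a.1) :
    FreeGroup.lift f (mk [a]) = mk [a] := by
  obtain ⟨x, b⟩ := a
  cases b
  · have h1 : (mk [(x, false)] : FreeGroup α) = (FreeGroup.of x)⁻¹ := rfl
    rw [h1, _root_.map_inv, FreeGroup.lift_apply_of]
    rw [hf]
  · have h1 : (mk [(x, true)] : FreeGroup α) = FreeGroup.of x := rfl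
    rw [h1, FreeGroup.lift_apply_of]
    exact hf

theorem lift_pre {f : α → FreeGroup α} (hf : f a.1 = FreeGroup.of a.1) (s : α × Bool) :
    FreeGroup.lift f (pre a Cs s) = pre a Cs s := by
  unfold pre
  split_ifs
  · simp
  · exact lift_gen_a a hf

/-- The Whitehead automorphism. -/
noncomputable def wh : FreeGroup α ≃* FreeGroup α :=
  MonoidHom.toMulEquiv (FreeGroup.lift (gen a Cs)) (FreeGroup.lift (gen' a Cs))
    (by
      apply FreeGroup.ext_hom
      intro x
      rw [MonoidHom.comp_apply, FreeGroup.lift_apply_of, MonoidHom.id_apply]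
      by_cases h : x = a.1
      · rw [gen, if_pos h, FreeGroup.lift_apply_of, gen', if_pos h]
      · rw [gen, if_neg h, _root_.map_mul, _root_.map_mul, _root_.map_inv,
          lift_pre a Cs (by simp [gen']), lift_pre a Cs (by simp [gen']),
          FreeGroup.lift_apply_of, gen', if_neg h]
        group)
    (by
      apply FreeGroup.ext_hom
      intro x
      rw [MonoidHom.comp_apply, FreeGroup.lift_apply_of, MonoidHom.id_apply]
      by_cases h : x = a.1
      · rw [gen', if_pos h, FreeGroup.lift_apply_of, gen, if_pos h]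
      · rw [gen', if_neg h, _root_.map_mul, _root_.map_mul, _root_.map_inv,
          lift_pre a Cs (by simp [gen]), lift_pre a Cs (by simp [gen]),
          FreeGroup.lift_apply_of, gen, if_neg h]
        group)

theorem wh_of (x : α) : wh a Cs (FreeGroup.of x) = gen a Cs x := by
  change FreeGroup.lift (gen a Cs) (FreeGroup.of x) = _
  rw [FreeGroup.lift_apply_of]

theorem wh_a : wh a Cs (mk [a]) = mk [a] := by
  change FreeGroup.lift (gen a Cs) (mk [a]) = _
  exact lift_gen_a a (by simp [gen])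

theorem wh_ia : wh a Cs (mk [iv a]) = (mk [a])⁻¹ := by
  rw [mk_iv, _root_.map_inv, wh_a]

theorem wh_letter {s : α × Bool} (hs : s.1 ≠ a.1) :
    wh a Cs (mk [s]) = pre a Cs s * mk [s] * (pre a Cs (iv s))⁻¹ := by
  obtain ⟨x, b⟩ := s
  simp only at hs
  cases b
  · have h1 : (mk [(x, false)] : FreeGroup α) = (FreeGroup.of x)⁻¹ := rfl
    rw [h1, _root_.map_inv, wh_of, gen, if_neg hs]
    simp only [iv, Bool.not_false]
    group
  · have h1 : (mk [(x, true)] : FreeGroup α) = FreeGroup.of x := rfl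
    rw [h1, wh_of, gen, if_neg hs]
    simp only [iv, Bool.not_true]

open Classical in
/-- the images of the cones -/
noncomputable def St (s : α × Bool) : Set (FreeGroup α) :=
  if s = a then {k | (mk [a])⁻¹ * k = 1 ∨ ∃ t ∈ Cs, (mk [a])⁻¹ * k ∈ C [t]}
  else if s = iv a then {k | ∃ t, t ∉ Cs ∧ k ∈ C [t]}
  else {k | (pre a Cs s)⁻¹ * k ∈ C [s]}

theorem St_a : St a Cs a = {k | (mk [a])⁻¹ * k = 1 ∨ ∃ t ∈ Cs, (mk [a])⁻¹ * k ∈ C [t]} := by
  rw [St, if_pos rfl]

theorem St_ia : St a Cs (iv a) = {k | ∃ t, t ∉ Cs ∧ k ∈ C [t]} := by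
  rw [St, if_neg (iv_ne a), if_pos rfl]

theorem St_other {s : α × Bool} (h1 : s ≠ a) (h2 : s ≠ iv a) :
    St a Cs s = {k | (pre a Cs s)⁻¹ * k ∈ C [s]} := by
  rw [St, if_neg h1, if_neg h2]

theorem fst_ne {s a : α × Bool} (h1 : s ≠ a) (h2 : s ≠ iv a) : s.1 ≠ a.1 := by
  intro h
  rcases Bool.eq_or_eq_not s.2 a.2 with h3 | h3
  · exact h1 (Prod.ext h h3)
  · exact h2 (Prod.ext h h3)

variable {a Cs}

theorem aC_sub {t : α × Bool} (ht : t ≠ iv a) {k : FreeGroup α} (h : (mk [a])⁻¹ * k ∈ C [t]) :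
    k ∈ C [a] := by
  have h1 : (mk [a])⁻¹ * k ∉ C [iv a] := fun h2 => ht (C_uniq h h2)
  rw [← C_mul_iff, mul_inv_cancel_left] at h1
  exact h1

theorem St_a_sub (hiv : iv a ∉ Cs) {k : FreeGroup α} (h : k ∈ St a Cs a) : k ∈ C [a] := by
  rw [St_a] at h
  rcases h with h | ⟨t, ht, h⟩
  · have : k = mk [a] := by
      rw [inv_mul_eq_one] at h; exact h.symm
    rw [this]
    exact ⟨[], by rw [toWord_mk_red IsReduced.singleton]; rfl⟩
  · exact aC_sub (fun h2 => hiv (h2 ▸ ht)) h

theorem St_one (ha : a ∈ Cs) (hiv : iv a ∉ Cs) (s : α × Bool) : (1 : FreeGroup α) ∉ St a Cs s := by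
  intro h
  by_cases h1 : s = a
  · subst h1
    exact C_one _ (St_a_sub hiv h)
  · by_cases h2 : s = iv a
    · subst h2
      rw [St_ia] at h
      obtain ⟨t, _, h⟩ := h
      exact C_one _ h
    · rw [St_other a Cs h1 h2] at h
      simp only [Set.mem_ofPred_eq, mul_one] at h
      unfold pre at h
      split_ifs at h with h3
      · rw [inv_one] at h; exact C_one _ h
      · rw [← mk_iv] at h
        have : (mk [iv a] : FreeGroup α) ∈ C [iv a] :=
          ⟨[], by rw [toWord_mk_red IsReduced.singleton]; rfl⟩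
        exact h2 (C_uniq h this)

theorem St_disj (ha : a ∈ Cs) (hiv : iv a ∉ Cs) {s t : α × Bool} {k : FreeGroup α}
    (hs : k ∈ St a Cs s) (ht : k ∈ St a Cs t) : s = t := by
  -- `k ∈ St a` against the others
  have key1 : ∀ u, u ≠ a → k ∈ St a Cs a → k ∉ St a Cs u := by
    intro u hu h1 h2
    by_cases h3 : u = iv a
    · subst h3
      rw [St_ia] at h2
      obtain ⟨t, h4, h5⟩ := h2
      have := C_uniq (St_a_sub hiv h1) h5
      exact h4 (this ▸ ha)
    · rw [St_other a Cs hu h3] at h2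
      simp only [Set.mem_ofPred_eq] at h2
      unfold pre at h2
      split_ifs at h2 with h4
      · rw [inv_one, one_mul] at h2
        exact hu (C_uniq h2 (St_a_sub hiv h1))
      · rw [St_a] at h1
        rcases h1 with h1 | ⟨t, h5, h6⟩
        · rw [h1] at h2
          exact C_one _ h2
        · exact h4 (C_uniq h6 h2 ▸ h5)
  have key2 : ∀ u, u ≠ a → u ≠ iv a → k ∈ St a Cs (iv a) → k ∉ St a Cs u := by
    intro u hu hu2 h1 h2
    rw [St_ia] at h1
    obtain ⟨t, h4, h5⟩ := h1
    rw [St_other a Cs hu hu2] at h2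
    simp only [Set.mem_ofPred_eq] at h2
    unfold pre at h2
    split_ifs at h2 with h6
    · rw [inv_one, one_mul] at h2
      exact h4 (C_uniq h2 h5 ▸ h6)
    · exact h4 (C_uniq (aC_sub hu2 h2) h5 ▸ ha)
  by_cases h1 : s = a
  · subst h1
    by_contra h2
    exact key1 t (fun h => h2 h.symm) hs ht
  · by_cases h2 : t = a
    · subst h2
      exact absurd hs (key1 s h1 ht)
    · by_cases h3 : s = iv a
      · subst h3
        by_contra h4
        exact key2 t h2 (fun h => h4 h.symm) hs ht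
      · by_cases h4 : t = iv a
        · subst h4
          exact absurd hs (key2 s h1 h3 ht)
        · rw [St_other a Cs h1 h3] at hs
          rw [St_other a Cs h2 h4] at ht
          simp only [Set.mem_ofPred_eq] at hs ht
          unfold pre at hs ht
          split_ifs at hs ht
          · exact C_uniq hs ht
          · rw [inv_one, one_mul] at hs
            exact absurd (C_uniq hs (aC_sub h4 ht)) h1
          · rw [inv_one, one_mul] at ht
            exact absurd (C_uniq ht (aC_sub h3 hs)) h2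
          · exact C_uniq hs ht

theorem St_cover (ha : a ∈ Cs) {k : FreeGroup α} (hk : k ≠ 1) :
    ∃ s, k ∈ St a Cs s := by
  obtain ⟨s, hs⟩ := C_exists hk
  by_cases h1 : s ∈ Cs
  · by_cases h2 : s = a
    · subst h2
      by_cases h3 : (mk [s])⁻¹ * k = 1
      · exact ⟨s, by rw [St_a]; exact Or.inl h3⟩
      · obtain ⟨t, ht⟩ := C_exists h3
        by_cases h4 : t ∈ Cs
        · exact ⟨s, by rw [St_a]; exact Or.inr ⟨t, h4, ht⟩⟩
        · have h5 : t ≠ s := fun h => h4 (h ▸ h1)
          have h6 : t ≠ iv s := by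
            rintro rfl
            have := (C_mul_iff s ((mk [s])⁻¹ * k)).1 (by rw [mul_inv_cancel_left]; exact hs)
            exact this ht
          refine ⟨t, ?_⟩
          rw [St_other s Cs h5 h6]
          simp only [Set.mem_ofPred_eq, pre, if_neg h4]
          exact ht
    · by_cases h3 : s = iv a
      · subst h3
        by_contra h4
        push Not at h4
        -- `iv a ∈ Cs` is not excluded here, so treat it directly
        exact h4 (iv a) (by
          exfalso
          have h5 := h4 a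
          have h6 : (mk [a])⁻¹ * k ∈ C [iv a] := by
            rw [← mk_iv]
            rw [C_mul_iff, iv_iv]
            intro h7
            exact iv_ne a (C_uniq hs h7)
          apply h5
          rw [St_a]
          exact Or.inr ⟨iv a, h1, h6⟩)
      · refine ⟨s, ?_⟩
        rw [St_other a Cs h2 h3]
        simp only [Set.mem_ofPred_eq, pre, if_pos h1, inv_one, one_mul]
        exact hs
  · exact ⟨iv a, by rw [St_ia]; exact ⟨s, h1, hs⟩⟩

/-- The ping-pong lemma. -/
theorem St_step (ha : a ∈ Cs) (hiv : iv a ∉ Cs) (s : α × Bool) (k : FreeGroup α) :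
    wh a Cs (mk [s]) * k ∈ St a Cs s ↔ k ∉ St a Cs (iv s) := by
  have key : ∀ l : FreeGroup α, (l = 1 ∨ ∃ t ∈ Cs, l ∈ C [t]) ↔ ¬ ∃ t, t ∉ Cs ∧ l ∈ C [t] := by
    intro l
    constructor
    · rintro (rfl | ⟨t, h1, h2⟩) ⟨u, h3, h4⟩
      · exact C_one _ h4
      · exact h3 (C_uniq h2 h4 ▸ h1)
    · intro h
      by_cases h1 : l = 1
      · exact Or.inl h1
      · obtain ⟨t, ht⟩ := C_exists h1
        refine Or.inr ⟨t, ?_, ht⟩
        by_contra h2
        exact h ⟨t, h2, ht⟩
  by_cases h1 : s = a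
  · subst h1
    rw [wh_a, St_a, St_ia]
    simp only [Set.mem_ofPred_eq, inv_mul_cancel_left]
    exact key k
  · by_cases h2 : s = iv a
    · subst h2
      rw [wh_ia, iv_iv, St_a, St_ia]
      simp only [Set.mem_ofPred_eq]
      rw [key]
      exact not_not.symm
    · have h3 : iv s ≠ a := fun h => h2 (by rw [← h, iv_iv])
      have h4 : iv s ≠ iv a := fun h => h1 (iv_inj h)
      rw [wh_letter a Cs (fst_ne h1 h2), St_other a Cs h1 h2, St_other a Cs h3 h4]
      simp only [Set.mem_ofPred_eq]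
      rw [← C_mul_iff]
      have e : (pre a Cs s)⁻¹ * (pre a Cs s * mk [s] * (pre a Cs (iv s))⁻¹ * k) =
        mk [s] * ((pre a Cs (iv s))⁻¹ * k) := by group
      rw [e]

theorem wh_C_sub (ha : a ∈ Cs) (hiv : iv a ∉ Cs) : ∀ (w : List (α × Bool)) (s : α × Bool),
    IsReduced (s :: w) → wh a Cs (mk (s :: w)) ∈ St a Cs s := by
  intro w
  induction w with
  | nil =>
    intro s _
    have := (St_step ha hiv s 1).2 (St_one ha hiv _)
    rwa [mul_one] at this
  | cons t w ih =>
    intro s h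
    have e : s :: t :: w = [s] ++ (t :: w) := rfl
    have h1 : IsReduced (t :: w) := red_mid (P := [s]) (R := []) h (by simp)
    rw [e, ← mul_mk, _root_.map_mul, St_step ha hiv]
    intro h2
    have h3 := St_disj ha hiv h2 (ih t h1)
    have h4 : IsReduced ([s] ++ [t]) := red_mid (P := []) (R := w) h (by simp)
    rw [red_pair] at h4
    exact h4 h3.symm

/-- **The images of the cones under a Whitehead automorphism.** -/
theorem wh_C (ha : a ∈ Cs) (hiv : iv a ∉ Cs) (s : α × Bool) :
    {k | (wh a Cs).symm k ∈ C [s]} = St a Cs s := by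
  have hsub : ∀ t l, l ∈ C [t] → wh a Cs l ∈ St a Cs t := by
    rintro t l ⟨v, hv⟩
    have h1 : l = mk (t :: v) := by
      rw [← mk_toWord (x := l), ← hv]; rfl
    rw [h1]
    refine wh_C_sub ha hiv v t ?_
    have := toWord_red l
    rw [← hv] at this
    exact this
  ext k
  simp only [Set.mem_ofPred_eq]
  constructor
  · intro h
    have := hsub s _ h
    rwa [MulEquiv.apply_symm_apply] at this
  · intro h
    have h1 : (wh a Cs).symm k ≠ 1 := by
      intro h2
      have h3 : k = 1 := by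
        rw [← (wh a Cs).apply_symm_apply k, h2, _root_.map_one]
      rw [h3] at h
      exact St_one ha hiv s h
    obtain ⟨t, ht⟩ := C_exists h1
    have h2 := hsub t _ ht
    rw [MulEquiv.apply_symm_apply] at h2
    rw [St_disj ha hiv h h2]
    exact ht

end

/-- The words whose first letter lies in `T`. -/
def CC (T : Set (α × Bool)) : Set (FreeGroup α) := {k | ∃ t, t ∈ T ∧ k ∈ C [t]}

/-- The ends whose first letter lies in `T`. -/
def DD (T : Set (α × Bool)) : Set (Pt α) := lim (CC T)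

theorem mem_DD [Finite α] {T : Set (α × Bool)} {p : Pt α} : p ∈ DD T ↔ ∃ t ∈ T, p ∈ D [t] := by
  constructor
  · intro h
    obtain ⟨s, hs⟩ := D_cover (u := []) (p := p) (by rw [D_nil]; trivial)
    rw [List.nil_append] at hs
    refine ⟨s, ?_, hs⟩
    obtain ⟨n, ⟨t, h1, h2⟩, h3⟩ := (h.and hs).exists
    exact C_uniq h2 h3 ▸ h1
  · rintro ⟨t, h1, h2⟩
    change ∀ᶠ n in atTop, _ ∈ CC T
    filter_upwards [h2] with n hn
    exact ⟨t, h1, hn⟩

theorem D_uniq {s t : α × Bool} {p : Pt α} (h1 : p ∈ D [s]) (h2 : p ∈ D [t]) : s = t := by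
  by_contra h
  exact Set.disjoint_left.1 (D_disj (by simp) (by simpa using h)) h1 h2

theorem D_exists [Finite α] (p : Pt α) : ∃ s, p ∈ D [s] := by
  obtain ⟨s, hs⟩ := D_cover (u := []) (p := p) (by rw [D_nil]; trivial)
  exact ⟨s, hs⟩

theorem DD_compl [Finite α] (T : Set (α × Bool)) : DD Tᶜ = (DD T)ᶜ := by
  ext p
  rw [Set.mem_compl_iff, mem_DD, mem_DD]
  constructor
  · rintro ⟨t, h1, h2⟩ ⟨u, h3, h4⟩
    exact h1 (D_uniq h2 h4 ▸ h3)
  · intro h
    obtain ⟨s, hs⟩ := D_exists p
    exact ⟨s, fun h1 => h ⟨s, h1, hs⟩, hs⟩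

theorem CC_ai [Finite α] (T : Set (α × Bool)) : AI (CC T) := by
  intro s
  have h1 : (⋃ t : α × Bool, {g : FreeGroup α | g ∈ C [t] ∧ g * mk [s] ∉ C [t]}).Finite :=
    Set.finite_iUnion fun t => C_ai [t] s
  refine h1.subset ?_
  rintro g ⟨⟨t, h2, h3⟩, h4⟩
  rw [Set.mem_iUnion]
  exact ⟨t, h3, fun h5 => h4 ⟨t, h2, h5⟩⟩

theorem DD_clo [Finite α] (T : Set (α × Bool)) : Clo (DD T) := ⟨_, CC_ai T, rfl⟩

section

variable [Finite α] {a : α × Bool} {Cs : Set (α × Bool)}

theorem im_D_a (ha : a ∈ Cs) (hiv : iv a ∉ Cs) : im (wh a Cs) (D [a]) = sh (mk [a]) (DD Cs) := by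
  rw [D, im_lim, wh_C ha hiv, St_a, DD, sh_lim]
  apply Set.Subset.antisymm
  · refine lim_of_finite ((Set.finite_singleton (mk [a])).subset ?_)
    rintro k ⟨h1 | h1, h2⟩
    · rw [inv_mul_eq_one] at h1
      exact h1.symm
    · exact absurd h1 h2
  · refine lim_of_finite ?_
    convert Set.finite_empty
    rw [Set.sdiff_eq_empty]
    intro k hk
    exact Or.inr hk

theorem im_D_ia (ha : a ∈ Cs) (hiv : iv a ∉ Cs) : im (wh a Cs) (D [iv a]) = (DD Cs)ᶜ := by
  rw [D, im_lim, wh_C ha hiv, St_ia, ← DD_compl]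
  rfl

theorem im_D_in (ha : a ∈ Cs) (hiv : iv a ∉ Cs) {s : α × Bool} (hs : s ∈ Cs) (hsa : s ≠ a) :
    im (wh a Cs) (D [s]) = D [s] := by
  have h2 : s ≠ iv a := fun h => hiv (h ▸ hs)
  rw [D, im_lim, wh_C ha hiv, St_other a Cs hsa h2]
  simp only [pre, if_pos hs, inv_one, one_mul, Set.ofPred_mem_eq]

theorem im_D_out (ha : a ∈ Cs) (hiv : iv a ∉ Cs) {s : α × Bool} (hs : s ∉ Cs) (hsa : s ≠ iv a) :
    im (wh a Cs) (D [s]) = sh (mk [a]) (D [s]) := by
  have h2 : s ≠ a := fun h => hs (h ▸ ha)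
  rw [D, im_lim, wh_C ha hiv, St_other a Cs h2 hsa, sh_lim]
  simp only [pre, if_neg hs]

end

end Pool.Agent.Q98.Cut
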